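import Mathlib

/-!
# Functions on `(ZMod 5)^I` and multiplication by characters
-/

namespace Pool.Agent.MP_cdb312_al

open Finset

variable {p : ℕ} [Fact p.Prime]

instance : Fact (Nat.Prime 5) := ⟨by norm_num⟩

/-- a nontrivial fifth root of unity -/
structure IsRt (ζ : ZMod p) : Prop where
  pow5 : ζ ^ 5 = 1
  ne : ζ ≠ 1

/-- `ζ ^ a` for `a` modulo 5. -/
def zp (ζ : ZMod p) (a : ZMod 5) : ZMod p := ζ ^ a.val

@[simp] lemma zp_zero (ζ : ZMod p) : zp ζ 0 = 1 := by simp [zp]

lemma IsRt.zp_add {ζ : ZMod p} (h : IsRt ζ) (a b : ZMod 5) : zp ζ (a + b) = zp ζ a * zp ζ b := by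
  unfold zp
  rw [← pow_add, ZMod.val_add, ← pow_eq_pow_mod _ h.pow5]

lemma IsRt.sq {ζ : ZMod p} (h : IsRt ζ) : IsRt (ζ ^ 2) := by
  refine ⟨by rw [← pow_mul, mul_comm, pow_mul, h.pow5, one_pow], fun h2 => h.ne ?_⟩
  have : ζ ^ 5 = (ζ ^ 2) ^ 2 * ζ := by ring
  rw [h2, h.pow5] at this
  simpa using this.symm

lemma zp_sq (ζ : ZMod p) (a : ZMod 5) : zp (ζ ^ 2) a = zp ζ a * zp ζ a := by
  unfold zp; rw [← pow_mul, mul_comm, pow_mul, sq]

lemma IsRt.ne_zero {ζ : ZMod p} (h : IsRt ζ) : ζ ≠ 0 := by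
  intro h0
  have := h.pow5
  rw [h0] at this
  norm_num at this

lemma IsRt.zp_ne_zero {ζ : ZMod p} (h : IsRt ζ) (a : ZMod 5) : zp ζ a ≠ 0 :=
  pow_ne_zero _ h.ne_zero

lemma IsRt.zp_mul {ζ : ZMod p} (h : IsRt ζ) (a b : ZMod 5) : zp ζ (a * b) = zp ζ a ^ b.val := by
  unfold zp
  rw [← pow_mul, ZMod.val_mul, ← pow_eq_pow_mod _ h.pow5]

lemma IsRt.orderOf {ζ : ZMod p} (h : IsRt ζ) : orderOf ζ = 5 :=
  orderOf_eq_prime h.pow5 h.ne

lemma IsRt.zp_injective {ζ : ZMod p} (h : IsRt ζ) : Function.Injective (zp ζ) := by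
  intro a b hab
  unfold zp at hab
  have h5 : ∀ c : ZMod 5, c.val < 5 := fun c => ZMod.val_lt c
  refine ZMod.val_injective 5 ?_
  refine pow_injOn_Iio_orderOf ?_ ?_ hab
  · rw [h.orderOf]; exact h5 a
  · rw [h.orderOf]; exact h5 b

variable {V : Type*} [AddCommGroup V] [Module (ZMod p) V]

lemma smul_mem_of_addSubgroup {M : Type*} [AddCommGroup M] [Module (ZMod p) M]
    (S : AddSubgroup M) (c : ZMod p) {f : M} (hf : f ∈ S) : c • f ∈ S := by
  have : c • f = c.val • f := by
    conv_lhs => rw [← ZMod.natCast_zmod_val c]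
    rw [Nat.cast_smul_eq_nsmul]
  rw [this]
  exact S.nsmul_mem hf _

variable {I : Type*}

/-- multiplication by the character `ζ ^ (x i)` -/
def mulc (ζ : ZMod p) (i : I) (f : (I → ZMod 5) → V) : (I → ZMod 5) → V :=
  fun x => zp ζ (x i) • f x

lemma slice {ζ : ZMod p} (hζ : IsRt ζ) (S : AddSubgroup ((I → ZMod 5) → V)) (i : I)
    (hS : ∀ f ∈ S, mulc ζ i f ∈ S) (α : ZMod 5) {f : (I → ZMod 5) → V} (hf : f ∈ S) :
    (fun x => if x i = α then f x else 0) ∈ S := by
  classical
  have key : ∀ s : Finset (ZMod 5),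
      (fun x : I → ZMod 5 => (∏ β ∈ s, (zp ζ (x i) - zp ζ β)) • f x) ∈ S := by
    intro s
    induction s using Finset.induction_on with
    | empty => simpa using hf
    | insert β s hβ ih =>
      have h1 := hS _ ih
      have h2 := smul_mem_of_addSubgroup S (zp ζ β) ih
      have := S.sub_mem h1 h2
      convert this using 1
      funext x
      simp only [mulc, Pi.sub_apply, Pi.smul_apply, Finset.prod_insert hβ, sub_mul, sub_smul,
        mul_smul]
  set κ : ZMod p := ∏ β ∈ univ.erase α, (zp ζ α - zp ζ β) with hκ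
  have hκ0 : κ ≠ 0 := by
    rw [hκ, Finset.prod_ne_zero_iff]
    intro β hβ
    rw [sub_ne_zero]
    exact fun h => (Finset.ne_of_mem_erase hβ) (hζ.zp_injective h).symm
  have := smul_mem_of_addSubgroup S κ⁻¹ (key (univ.erase α))
  convert this using 1
  funext x
  simp only [Pi.smul_apply]
  by_cases hx : x i = α
  · rw [if_pos hx, hx, ← hκ, smul_smul, inv_mul_cancel₀ hκ0, one_smul]
  · rw [if_neg hx]
    have : ∏ β ∈ univ.erase α, (zp ζ (x i) - zp ζ β) = 0 :=
      Finset.prod_eq_zero (i := x i) (by simp [hx]) (sub_self _)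
    rw [this, zero_smul, smul_zero]

open Classical in
/-- the function supported at `x0` with value `v` -/
noncomputable def ind (x0 : I → ZMod 5) (v : V) : (I → ZMod 5) → V :=
  fun x => if x = x0 then v else 0

lemma ind_self (x0 : I → ZMod 5) (v : V) : ind x0 v x0 = v := by simp [ind]

lemma ind_ne {x0 x : I → ZMod 5} (h : x ≠ x0) (v : V) : ind x0 v x = 0 := by simp [ind, h]

lemma ind_add (x0 : I → ZMod 5) (v w : V) : ind x0 (v + w) = ind x0 v + ind x0 w := by
  funext x
  by_cases h : x = x0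
  · subst h; simp [ind]
  · simp [ind, h]

lemma ind_zero (x0 : I → ZMod 5) : ind x0 (0 : V) = 0 := by
  funext x; simp [ind]

lemma ind_smul (x0 : I → ZMod 5) (c : ZMod p) (v : V) : ind x0 (c • v) = c • ind x0 v := by
  funext x
  by_cases h : x = x0
  · subst h; simp [ind]
  · simp [ind, h]

lemma mulc_ind (ζ : ZMod p) (i : I) (x0 : I → ZMod 5) (v : V) :
    mulc ζ i (ind x0 v) = ind x0 (zp ζ (x0 i) • v) := by
  funext x
  by_cases h : x = x0
  · subst h; simp [ind, mulc]
  · simp [ind, mulc, h]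

lemma mulc_add (ζ : ZMod p) (i : I) (f g : (I → ZMod 5) → V) :
    mulc ζ i (f + g) = mulc ζ i f + mulc ζ i g := by
  funext x; simp [mulc]

lemma sum_ind [Fintype (I → ZMod 5)] (f : (I → ZMod 5) → V) : ∑ x, ind x (f x) = f := by
  classical
  funext y
  rw [Finset.sum_apply, Finset.sum_eq_single y]
  · exact ind_self y _
  · intro x _ hx
    exact ind_ne hx.symm _
  · intro h; exact absurd (Finset.mem_univ y) h

/-- Induction principle: an additive subgroup containing all `ind x v` is everything. -/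
lemma eq_top_of_ind [Finite I] (S : AddSubgroup ((I → ZMod 5) → V)) (h : ∀ x v, ind x v ∈ S) :
    S = ⊤ := by
  have := Fintype.ofFinite (I → ZMod 5)
  rw [eq_top_iff]
  intro f _
  rw [← sum_ind f]
  exact S.sum_mem fun x _ => h x _

variable [Finite I]

lemma ind_mem {ζ : ZMod p} (hζ : IsRt ζ) (S : AddSubgroup ((I → ZMod 5) → V))
    (hS : ∀ i, ∀ f ∈ S, mulc ζ i f ∈ S) (x0 : I → ZMod 5) {f : (I → ZMod 5) → V} (hf : f ∈ S) :
    ind x0 (f x0) ∈ S := by
  classical
  have := Fintype.ofFinite I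
  have key : ∀ s : Finset I, (fun x : I → ZMod 5 => if ∀ i ∈ s, x i = x0 i then f x else 0) ∈ S := by
    intro s
    induction s using Finset.induction_on with
    | empty => simpa using hf
    | insert i s hi ih =>
      have := slice hζ S i (hS i) (x0 i) ih
      convert this using 1
      funext x
      by_cases h1 : x i = x0 i
      · simp [h1]
      · simp [h1]
  convert key univ using 1
  funext x
  by_cases h : x = x0
  · subst h; simp [ind]
  · rw [ind_ne h, if_neg]
    intro h2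
    exact h (funext fun i => h2 i (Finset.mem_univ i))

lemma span_top {ζ : ZMod p} (hζ : IsRt ζ) (S : AddSubgroup ((I → ZMod 5) → V))
    (hS : ∀ i, ∀ f ∈ S, mulc ζ i f ∈ S) (hc : ∀ v : V, (fun _ => v) ∈ S) : S = ⊤ :=
  eq_top_of_ind S fun x v => ind_mem hζ S hS x (hc v)

end Pool.Agent.MP_cdb312_al
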