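import Mathlib
import Pool.Agent.Lib.MP_cdb312_al.Span

/-!
# Function subgroups in a group acted on by an abelian group
-/

namespace Pool.Agent.MP_cdb312_al

open Finset
open scoped commutatorElement

variable {p : ℕ} [Fact p.Prime] {V : Type*} [AddCommGroup V] [Module (ZMod p) V]
  {Γ : Type*} [Group Γ] {A : Type*} [CommGroup A]

/-- Induction along the functions `ind x v`. -/
lemma ind_induction {I : Type*} [Finite I] {P : ((I → ZMod 5) → V) → Prop} (h0 : P 0)
    (hadd : ∀ f g, P f → P g → P (f + g)) (hind : ∀ x v, P (ind x v)) (f : (I → ZMod 5) → V) :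
    P f := by
  have := Fintype.ofFinite (I → ZMod 5)
  rw [← sum_ind f]
  exact Finset.sum_induction _ P hadd h0 fun x _ => hind x _

/-- `θ` is a homomorphism on functions, extending `ι` on constants, such that `act (m i)` is the
multiplication by `ζ ^ (x i)`. -/
structure IsTheta (act : A →* MulAut Γ) (ζ : ZMod p) (ι : V → Γ) {I : Type*} (m : I → A)
    (θ : ((I → ZMod 5) → V) → Γ) : Prop where
  add : ∀ f g, θ (f + g) = θ f * θ g
  const : ∀ v, θ (fun _ => v) = ι v
  conj : ∀ i f, act (m i) (θ f) = θ (mulc ζ i f)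

/-- multiplication by `ζ ^ h`. -/
def mulf {I : Type*} (ζ : ZMod p) (h : (I → ZMod 5) → ZMod 5) (f : (I → ZMod 5) → V) :
    (I → ZMod 5) → V := fun x => zp ζ (h x) • f x

variable {act : A →* MulAut Γ} {ζ : ZMod p} {ι : V → Γ} {I : Type*} {m : I → A}
  {θ : ((I → ZMod 5) → V) → Γ}

lemma act_comm (act : A →* MulAut Γ) (a b : A) (g : Γ) : act a (act b g) = act b (act a g) := by
  rw [← MulAut.mul_apply, ← map_mul, mul_comm, map_mul, MulAut.mul_apply]

lemma act_mul (act : A →* MulAut Γ) (a b : A) (g : Γ) : act (a * b) g = act a (act b g) := by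
  rw [map_mul, MulAut.mul_apply]

lemma theta_zero (h : ∀ f g, θ (f + g) = θ f * θ g) : θ 0 = 1 := by
  have := h 0 0
  rw [add_zero] at this
  exact (mul_eq_left.1 this.symm)

lemma theta_neg (h : ∀ f g, θ (f + g) = θ f * θ g) (f : (I → ZMod 5) → V) :
    θ (-f) = (θ f)⁻¹ := by
  have := h (-f) f
  rw [neg_add_cancel, theta_zero h] at this
  exact eq_inv_of_mul_eq_one_left this.symm

lemma theta_comm (h : ∀ f g, θ (f + g) = θ f * θ g) (f g : (I → ZMod 5) → V) :
    Commute (θ f) (θ g) := by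
  rw [Commute, SemiconjBy, ← h, ← h, add_comm]

lemma theta_nsmul (h : ∀ f g, θ (f + g) = θ f * θ g) (n : ℕ) (f : (I → ZMod 5) → V) :
    θ (n • f) = θ f ^ n := by
  induction n with
  | zero => rw [zero_smul, pow_zero, theta_zero h]
  | succ n ih => rw [succ_nsmul, h, ih, pow_succ]

/-- the additive subgroup where two homs agree -/
def eqSub {θ θ' : ((I → ZMod 5) → V) → Γ} (h : ∀ f g, θ (f + g) = θ f * θ g)
    (h' : ∀ f g, θ' (f + g) = θ' f * θ' g) : AddSubgroup ((I → ZMod 5) → V) where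
  carrier := {f | θ f = θ' f}
  add_mem' := by intro a b ha hb; simp only [Set.mem_ofPred_eq] at *; rw [h, h', ha, hb]
  zero_mem' := by simp only [Set.mem_ofPred_eq]; rw [theta_zero h, theta_zero h']
  neg_mem' := by intro a ha; simp only [Set.mem_ofPred_eq] at *; rw [theta_neg h, theta_neg h', ha]

lemma IsTheta.unique [Finite I] (hζ : IsRt ζ) (h : IsTheta act ζ ι m θ)
    {θ' : ((I → ZMod 5) → V) → Γ} (h' : IsTheta act ζ ι m θ') : θ = θ' := by
  have : eqSub h.add h'.add = ⊤ := by
    refine span_top hζ _ (fun i f hf => ?_) fun v => ?_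
    · change θ _ = θ' _
      rw [← h.conj, ← h'.conj, show θ f = θ' f from hf]
    · change θ _ = θ' _
      rw [h.const, h'.const]
  funext f
  have hf : f ∈ eqSub h.add h'.add := this ▸ AddSubgroup.mem_top f
  exact hf

lemma IsTheta.comap {J : Type*} (h : IsTheta act ζ ι m θ) (r : J → I) :
    IsTheta act ζ ι (m ∘ r) (fun f => θ (fun x => f (x ∘ r))) where
  add _ _ := h.add _ _
  const v := h.const v
  conj i _ := h.conj (r i) _

lemma mulf_add (ζ : ZMod p) (h : (I → ZMod 5) → ZMod 5) (f g : (I → ZMod 5) → V) :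
    mulf ζ h (f + g) = mulf ζ h f + mulf ζ h g := by
  funext x; simp [mulf]

lemma mulc_eq_mulf (ζ : ZMod p) (i : I) (f : (I → ZMod 5) → V) :
    mulc ζ i f = mulf ζ (fun x => x i) f := rfl

lemma mulf_mulf (hζ : IsRt ζ) (h h' : (I → ZMod 5) → ZMod 5) (f : (I → ZMod 5) → V) :
    mulf ζ h (mulf ζ h' f) = mulf ζ (h + h') f := by
  funext x; simp [mulf, hζ.zp_add, mul_smul]

/-- an element acting correctly on the constants acts correctly on everything -/
lemma acts_of_const [Finite I] (hζ : IsRt ζ) (hθ : IsTheta act ζ ι m θ) (g : A)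
    (h : (I → ZMod 5) → ZMod 5)
    (hc : ∀ v, act g (ι v) = θ (fun x => zp ζ (h x) • v)) (f : (I → ZMod 5) → V) :
    act g (θ f) = θ (mulf ζ h f) := by
  have h1 : ∀ f g' : (I → ZMod 5) → V, act g (θ (f + g')) = act g (θ f) * act g (θ g') := by
    intro f g'; rw [hθ.add, map_mul]
  have h2 : ∀ f g' : (I → ZMod 5) → V,
      θ (mulf ζ h (f + g')) = θ (mulf ζ h f) * θ (mulf ζ h g') := by
    intro f g'; rw [mulf_add, hθ.add]
  have : eqSub (θ := fun f => act g (θ f)) (θ' := fun f => θ (mulf ζ h f)) h1 h2 = ⊤ := by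
    refine span_top hζ _ (fun i f hf => ?_) fun v => ?_
    · change act g (θ _) = θ (mulf ζ h _)
      rw [← hθ.conj, act_comm, show act g (θ f) = θ (mulf ζ h f) from hf, hθ.conj, mulc_eq_mulf,
        mulc_eq_mulf, mulf_mulf hζ, mulf_mulf hζ, add_comm]
    · change act g (θ _) = θ (mulf ζ h _)
      rw [hθ.const, hc]; rfl
  have hf : f ∈ eqSub (θ := fun f => act g (θ f)) (θ' := fun f => θ (mulf ζ h f)) h1 h2 :=
    this ▸ AddSubgroup.mem_top f
  exact hf

lemma acts_mul (hζ : IsRt ζ) {g g' : A} {h h' : (I → ZMod 5) → ZMod 5}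
    (hg : ∀ f, act g (θ f) = θ (mulf ζ h f)) (hg' : ∀ f, act g' (θ f) = θ (mulf ζ h' f))
    (f : (I → ZMod 5) → V) : act (g * g') (θ f) = θ (mulf ζ (h + h') f) := by
  rw [act_mul, hg', hg, mulf_mulf hζ]

lemma acts_pow (hζ : IsRt ζ) {g : A} {h : (I → ZMod 5) → ZMod 5}
    (hg : ∀ f, act g (θ f) = θ (mulf ζ h f)) (n : ℕ)
    (f : (I → ZMod 5) → V) : act (g ^ n) (θ f) = θ (mulf ζ (fun x => n * h x) f) := by
  induction n with
  | zero =>
    rw [pow_zero, map_one, MulAut.one_apply]
    congr 1; funext x; simp [mulf]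
  | succ n ih =>
    rw [pow_succ', act_mul, ih, hg, mulf_mulf hζ]
    congr 2; funext x; simp only [Pi.add_apply]; push_cast; ring

/-- The pair condition. -/
def Pair (act : A →* MulAut Γ) (ζ : ZMod p) (ι : V → Γ) (a b : A) : Prop :=
  ∃ θ : ((Fin 2 → ZMod 5) → V) → Γ, IsTheta act ζ ι ![a, b] θ ∧
    ∃ g : A, ∀ f, act g (θ f) = θ (mulf ζ (fun x => x 0 * x 1) f)

/-- Centralizer-like predicate: `z` commutes with all values of `θ` and `θ'`. -/
def Cen (θ θ' : ((I → ZMod 5) → V) → Γ) (z : Γ) : Prop :=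
  (∀ f, Commute z (θ f)) ∧ ∀ f, Commute z (θ' f)

lemma commute_of_zero_left [Finite I] {θ : ((I → ZMod 5) → V) → Γ}
    (h : ∀ f g, θ (f + g) = θ f * θ g) {z : Γ} {x : I → ZMod 5}
    (hz : ∀ y, y ≠ x → ∀ v, Commute z (θ (ind y v))) {f : (I → ZMod 5) → V} (hf : f x = 0) :
    Commute z (θ f) := by
  have := Fintype.ofFinite (I → ZMod 5)
  rw [← sum_ind f]
  refine Finset.sum_induction _ (fun f => Commute z (θ f)) (fun a b ha hb => ?_) ?_ fun y _ => ?_
  · rw [h]; exact ha.mul_right hb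
  · rw [theta_zero h]; exact Commute.one_right z
  · by_cases hy : y = x
    · subst hy
      rw [hf, ind_zero, theta_zero h]; exact Commute.one_right z
    · exact hz y hy _

/-- The main commutator argument. -/
theorem gamma [Finite I] (hζ : IsRt ζ) {θ θ' : ((I → ZMod 5) → V) → Γ}
    (h : ∀ f g, θ (f + g) = θ f * θ g) (h' : ∀ f g, θ' (f + g) = θ' f * θ' g)
    (hc : ∀ i f, act (m i) (θ f) = θ (mulc ζ i f))
    (hc' : ∀ i f, act (m i) (θ' f) = θ' (mulc ζ i f))
    (hconst : ∀ v w, Commute (θ' fun _ => v) (θ fun _ => w))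
    (hdisj : ∀ x y v w, x ≠ y → Commute (θ' (ind x v)) (θ (ind y w)))
    (f : (I → ZMod 5) → V) (w : V) : Commute (θ' f) (θ fun _ => w) := by
  -- commutation from supports
  have d1 : ∀ x v (g : (I → ZMod 5) → V), g x = 0 → Commute (θ' (ind x v)) (θ g) :=
    fun x v g hg => commute_of_zero_left h (fun y hy w => hdisj x y v w hy.symm) hg
  have d2 : ∀ x v (g : (I → ZMod 5) → V), g x = 0 → Commute (θ (ind x v)) (θ' g) :=
    fun x v g hg => commute_of_zero_left h' (fun y hy w => (hdisj y x w v hy).symm) hg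
  -- the commutators at a point are central
  have c1 : ∀ x v w, Cen θ θ' ⁅θ' (ind x v), θ (ind x w)⁆ := by
    intro x v w
    have hz : ∀ y, y ≠ x → ∀ u, Commute ⁅θ' (ind x v), θ (ind x w)⁆ (θ (ind y u)) ∧
        Commute ⁅θ' (ind x v), θ (ind x w)⁆ (θ' (ind y u)) := by
      intro y hy u
      have e1 := hdisj x y v u hy.symm
      have e2 := theta_comm h (ind x w) (ind y u)
      have e3 := theta_comm h' (ind x v) (ind y u)
      have e4 := (hdisj y x u w hy).symm
      rw [commutatorElement_def]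
      exact ⟨((e1.mul_left e2).mul_left e1.inv_left).mul_left e2.inv_left,
        ((e3.mul_left e4).mul_left e3.inv_left).mul_left e4.inv_left⟩
    -- relation with the complement
    have key : ⁅θ' (ind x v), θ (ind x w)⁆
        = ⁅θ ((fun _ => -w) - ind x (-w)), θ' ((fun _ => -v) - ind x (-v))⁆ := by
      set a := θ' (ind x (-v)) with ha
      set b := θ (ind x (-w)) with hb
      set a' := θ' ((fun _ => -v) - ind x (-v)) with ha'
      set b' := θ ((fun _ => -w) - ind x (-w)) with hb'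
      have hA : (θ' fun _ => -v) = a * a' := by
        rw [ha, ha', ← h']; congr 1; abel
      have hB : (θ fun _ => -w) = b * b' := by
        rw [hb, hb', ← h]; congr 1; abel
      have hAB := hconst (-v) (-w)
      rw [hA, hB] at hAB
      have e1 : Commute a b' := by
        rw [ha, hb']; exact d1 x _ _ (by simp [ind_self])
      have e2 : Commute b a' := by
        rw [hb, ha']; exact d2 x _ _ (by simp [ind_self])
      have e3 : Commute a a' := theta_comm h' _ _
      have e4 : Commute b b' := theta_comm h _ _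
      have ea : θ' (ind x v) = a⁻¹ := by
        rw [ha, ← theta_neg h']; congr 1; funext y
        by_cases hy : y = x
        · subst hy; simp [ind_self]
        · simp [ind_ne hy]
      have eb : θ (ind x w) = b⁻¹ := by
        rw [hb, ← theta_neg h]; congr 1; funext y
        by_cases hy : y = x
        · subst hy; simp [ind_self]
        · simp [ind_ne hy]
      rw [ea, eb, commutatorElement_def, commutatorElement_def, inv_inv, inv_inv]
      -- a⁻¹ b⁻¹ a b = b' a' b'⁻¹ a'⁻¹
      have h1 : a * b * (a' * b') = b * a * (b' * a') := by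
        calc a * b * (a' * b') = a * (b * a') * b' := by group
          _ = a * (a' * b) * b' := by rw [e2.eq]
          _ = (a * a') * (b * b') := by group
          _ = (b * b') * (a * a') := hAB.eq
          _ = b * (b' * a) * a' := by group
          _ = b * (a * b') * a' := by rw [e1.eq]
          _ = b * a * (b' * a') := by group
      calc a⁻¹ * b⁻¹ * a * b = (b * a)⁻¹ * (a * b * (a' * b')) * (a' * b')⁻¹ := by group
        _ = (b * a)⁻¹ * (b * a * (b' * a')) * (a' * b')⁻¹ := by rw [h1]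
        _ = b' * a' * b'⁻¹ * a'⁻¹ := by group
    have hx : ∀ u, Commute ⁅θ' (ind x v), θ (ind x w)⁆ (θ (ind x u)) ∧
        Commute ⁅θ' (ind x v), θ (ind x w)⁆ (θ' (ind x u)) := by
      intro u
      rw [key, commutatorElement_def]
      have e1 : Commute (θ ((fun _ => -w) - ind x (-w))) (θ (ind x u)) := theta_comm h _ _
      have e2 : Commute (θ' ((fun _ => -v) - ind x (-v))) (θ (ind x u)) :=
        (d2 x u _ (by simp [ind_self])).symm
      have e3 : Commute (θ ((fun _ => -w) - ind x (-w))) (θ' (ind x u)) :=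
        (d1 x u _ (by simp [ind_self])).symm
      have e4 : Commute (θ' ((fun _ => -v) - ind x (-v))) (θ' (ind x u)) := theta_comm h' _ _
      exact ⟨((e1.mul_left e2).mul_left e1.inv_left).mul_left e2.inv_left,
        ((e3.mul_left e4).mul_left e3.inv_left).mul_left e4.inv_left⟩
    have hall : ∀ y u, Commute ⁅θ' (ind x v), θ (ind x w)⁆ (θ (ind y u)) ∧
        Commute ⁅θ' (ind x v), θ (ind x w)⁆ (θ' (ind y u)) := by
      intro y u
      by_cases hy : y = x
      · subst hy; exact hx u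
      · exact hz y hy u
    constructor
    · refine fun g => ind_induction (P := fun g => Commute _ (θ g)) ?_ ?_ ?_ g
      · rw [theta_zero h]; exact Commute.one_right _
      · intro f g hf hg; rw [h]; exact hf.mul_right hg
      · exact fun y u => (hall y u).1
    · refine fun g => ind_induction (P := fun g => Commute _ (θ' g)) ?_ ?_ ?_ g
      · rw [theta_zero h']; exact Commute.one_right _
      · intro f g hf hg; rw [h']; exact hf.mul_right hg
      · exact fun y u => (hall y u).2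
  have cone : Cen θ θ' 1 := ⟨fun _ => Commute.one_left _, fun _ => Commute.one_left _⟩
  have cmul : ∀ a b : Γ, Cen θ θ' a → Cen θ θ' b → Cen θ θ' (a * b) := fun a b ha hb =>
    ⟨fun f => (ha.1 f).mul_left (hb.1 f), fun f => (ha.2 f).mul_left (hb.2 f)⟩
  -- additivity in the second variable, given centrality
  have add2 : ∀ f g g', Cen θ θ' ⁅θ' f, θ g'⁆ → ⁅θ' f, θ (g + g')⁆ = ⁅θ' f, θ g⁆ * ⁅θ' f, θ g'⁆ := by
    intro f g g' hg'
    rw [h, commutatorElement_def, commutatorElement_def]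
    have := (hg'.1 g).eq
    rw [commutatorElement_def] at this ⊢
    calc θ' f * (θ g * θ g') * (θ' f)⁻¹ * (θ g * θ g')⁻¹
        = θ' f * θ g * (θ' f)⁻¹ * (θ' f * θ g' * (θ' f)⁻¹ * (θ g')⁻¹) * (θ g)⁻¹ := by group
      _ = θ' f * θ g * (θ' f)⁻¹ * (θ g)⁻¹ * (θ g * (θ' f * θ g' * (θ' f)⁻¹ * (θ g')⁻¹)) * (θ g)⁻¹ := by
          group
      _ = θ' f * θ g * (θ' f)⁻¹ * (θ g)⁻¹ * ((θ' f * θ g' * (θ' f)⁻¹ * (θ g')⁻¹) * θ g) * (θ g)⁻¹ := by
          rw [this]
      _ = _ := by group
  have add1 : ∀ f f' g, Cen θ θ' ⁅θ' f', θ g⁆ → ⁅θ' (f + f'), θ g⁆ = ⁅θ' f, θ g⁆ * ⁅θ' f', θ g⁆ := by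
    intro f f' g hf'
    rw [h', commutatorElement_def, commutatorElement_def]
    have := (hf'.2 f).eq
    rw [commutatorElement_def] at this ⊢
    have h3 := (hf'.1 g).eq
    rw [commutatorElement_def] at h3
    calc θ' f * θ' f' * θ g * (θ' f * θ' f')⁻¹ * (θ g)⁻¹
        = θ' f * ((θ' f' * θ g * (θ' f')⁻¹ * (θ g)⁻¹) * θ g) * (θ' f)⁻¹ * (θ g)⁻¹ := by group
      _ = θ' f * (θ g * (θ' f' * θ g * (θ' f')⁻¹ * (θ g)⁻¹)) * (θ' f)⁻¹ * (θ g)⁻¹ := by rw [h3]
      _ = θ' f * θ g * (θ' f)⁻¹ * (θ' f * (θ' f' * θ g * (θ' f')⁻¹ * (θ g)⁻¹)) * (θ' f)⁻¹ * (θ g)⁻¹ := by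
          group
      _ = θ' f * θ g * (θ' f)⁻¹ * ((θ' f' * θ g * (θ' f')⁻¹ * (θ g)⁻¹) * θ' f) * (θ' f)⁻¹ * (θ g)⁻¹ := by
          rw [this]
      _ = θ' f * θ g * (θ' f)⁻¹ * (θ g)⁻¹ * (θ g * (θ' f' * θ g * (θ' f')⁻¹ * (θ g)⁻¹)) * (θ g)⁻¹ := by
          group
      _ = θ' f * θ g * (θ' f)⁻¹ * (θ g)⁻¹ * ((θ' f' * θ g * (θ' f')⁻¹ * (θ g)⁻¹) * θ g) * (θ g)⁻¹ := by
          rw [h3]
      _ = _ := by group
  -- all commutators are central
  have c2 : ∀ x v g, Cen θ θ' ⁅θ' (ind x v), θ g⁆ := by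
    intro x v g
    refine ind_induction (P := fun g => Cen θ θ' ⁅θ' (ind x v), θ g⁆) ?_ ?_ ?_ g
    · rw [theta_zero h, commutatorElement_one_right]; exact cone
    · intro f g hf hg
      rw [add2 _ _ _ hg]; exact cmul _ _ hf hg
    · intro y w
      by_cases hy : y = x
      · subst hy; exact c1 y v w
      · have := hdisj x y v w (Ne.symm hy)
        rw [commutatorElement_eq_one_iff_commute.2 this]; exact cone
  have c3 : ∀ f g, Cen θ θ' ⁅θ' f, θ g⁆ := by
    intro f g
    refine ind_induction (P := fun f => Cen θ θ' ⁅θ' f, θ g⁆) ?_ ?_ ?_ f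
    · rw [theta_zero h', commutatorElement_one_left]; exact cone
    · intro f f' hf hf'
      rw [add1 _ _ _ hf']; exact cmul _ _ hf hf'
    · exact fun y w => c2 y w g
  have A1 : ∀ f f' g, ⁅θ' (f + f'), θ g⁆ = ⁅θ' f, θ g⁆ * ⁅θ' f', θ g⁆ := fun f f' g =>
    add1 f f' g (c3 f' g)
  have A2 : ∀ f g g', ⁅θ' f, θ (g + g')⁆ = ⁅θ' f, θ g⁆ * ⁅θ' f, θ g'⁆ := fun f g g' =>
    add2 f g g' (c3 f g')
  -- scalars move from one side to the other
  have N1 : ∀ (n : ℕ) f g, ⁅θ' (n • f), θ g⁆ = ⁅θ' f, θ g⁆ ^ n := by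
    intro n f g
    induction n with
    | zero => rw [zero_smul, theta_zero h', commutatorElement_one_left, pow_zero]
    | succ n ih => rw [succ_nsmul, A1, ih, pow_succ]
  have N2 : ∀ (n : ℕ) f g, ⁅θ' f, θ (n • g)⁆ = ⁅θ' f, θ g⁆ ^ n := by
    intro n f g
    induction n with
    | zero => rw [zero_smul, theta_zero h, commutatorElement_one_right, pow_zero]
    | succ n ih => rw [succ_nsmul, A2, ih, pow_succ]
  have N3 : ∀ (c : ZMod p) f g, ⁅θ' f, θ (c • g)⁆ = ⁅θ' (c • f), θ g⁆ := by
    intro c f g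
    have e : ∀ f : (I → ZMod 5) → V, c • f = c.val • f := by
      intro f
      conv_lhs => rw [← ZMod.natCast_zmod_val c]
      rw [Nat.cast_smul_eq_nsmul]
    rw [e, e, N1, N2]
  -- the key identity
  have K : ∀ i f g, ⁅θ' (mulc ζ i f), θ (mulc ζ i g)⁆ = ⁅θ' (mulc ζ i (mulc ζ i f)), θ g⁆ := by
    intro i f g
    refine ind_induction (P := fun f => ⁅θ' (mulc ζ i f), θ (mulc ζ i g)⁆
      = ⁅θ' (mulc ζ i (mulc ζ i f)), θ g⁆) ?_ ?_ ?_ f
    · have : mulc ζ i (0 : (I → ZMod 5) → V) = 0 := by funext x; simp [mulc]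
      rw [this, this, theta_zero h', commutatorElement_one_left, commutatorElement_one_left]
    · intro f f' hf hf'
      rw [mulc_add, mulc_add, A1, A1, hf, hf']
    · intro x v
      refine ind_induction (P := fun g => ⁅θ' (mulc ζ i (ind x v)), θ (mulc ζ i g)⁆
        = ⁅θ' (mulc ζ i (mulc ζ i (ind x v))), θ g⁆) ?_ ?_ ?_ g
      · have : mulc ζ i (0 : (I → ZMod 5) → V) = 0 := by funext x; simp [mulc]
        rw [this, theta_zero h, commutatorElement_one_right, commutatorElement_one_right]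
      · intro f f' hf hf'
        rw [mulc_add, A2, A2, hf, hf']
      · intro y w
        rw [mulc_ind, mulc_ind, mulc_ind]
        by_cases hy : y = x
        · subst hy
          rw [ind_smul, ind_smul, N3, ind_smul, ind_smul]
        · rw [commutatorElement_eq_one_iff_commute.2 (hdisj x y _ _ (Ne.symm hy)),
            commutatorElement_eq_one_iff_commute.2 (hdisj x y _ _ (Ne.symm hy))]
  -- conclusion
  let S : AddSubgroup ((I → ZMod 5) → V) :=
    { carrier := {f | ⁅θ' f, θ fun _ => w⁆ = 1}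
      add_mem' := by
        intro a b ha hb
        simp only [Set.mem_ofPred_eq] at *
        rw [A1, ha, hb, one_mul]
      zero_mem' := by
        simp only [Set.mem_ofPred_eq]; rw [theta_zero h', commutatorElement_one_left]
      neg_mem' := by
        intro a ha
        simp only [Set.mem_ofPred_eq] at *
        have := A1 (-a) a (fun _ => w)
        rw [neg_add_cancel, theta_zero h', commutatorElement_one_left, ha, mul_one] at this
        exact this.symm }
  have hS : S = ⊤ := by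
    refine span_top hζ.sq S (fun i f hf => ?_) fun v => ?_
    · have e : mulc (ζ ^ 2) i f = mulc ζ i (mulc ζ i f) := by
        funext x; simp only [mulc, zp_sq, mul_smul]
      change ⁅θ' (mulc (ζ ^ 2) i f), θ fun _ => w⁆ = 1
      rw [e, ← K, ← hc, ← hc', ← map_commutatorElement, show ⁅θ' f, θ fun _ => w⁆ = 1 from hf,
        map_one]
    · exact commutatorElement_eq_one_iff_commute.2 (hconst v w)
  have hf : f ∈ S := hS ▸ AddSubgroup.mem_top f
  exact commutatorElement_eq_one_iff_commute.1 hf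

end Pool.Agent.MP_cdb312_al
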