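import Mathlib
import Pool.Agent.Lib.MP_cdb312_al.Theta

/-!
# From pairs to families
-/

namespace Pool.Agent.MP_cdb312_al

open Finset
open scoped commutatorElement

variable {p : ℕ} [Fact p.Prime] {V : Type*} [AddCommGroup V] [Module (ZMod p) V]
  {Γ : Type*} [Group Γ] {A : Type*} [CommGroup A]
variable {act : A →* MulAut Γ} {ζ : ZMod p} {ι : V → Γ} {I : Type*} {m : I → A}
  {θ : ((I → ZMod 5) → V) → Γ}

/-- `u ^ a` for `a` modulo five. -/
def pw (u : A) (a : ZMod 5) : A := u ^ a.val

lemma pw_add {u : A} (hu : u ^ 5 = 1) (a b : ZMod 5) : pw u (a + b) = pw u a * pw u b := by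
  unfold pw
  rw [← pow_add, ZMod.val_add, ← pow_eq_pow_mod _ hu]

lemma pw_zero (u : A) : pw u 0 = 1 := by simp [pw]

lemma pw_mul {u : A} (hu : u ^ 5 = 1) (a b : ZMod 5) : pw u (a * b) = pw u a ^ b.val := by
  unfold pw
  rw [← pow_mul, ZMod.val_mul, ← pow_eq_pow_mod _ hu]

lemma pw_neg_mul {u : A} (hu : u ^ 5 = 1) (a : ZMod 5) : pw u (-a) * pw u a = 1 := by
  rw [← pw_add hu, neg_add_cancel, pw_zero]

lemma IsTheta.acts_pw [Finite I] (hζ : IsRt ζ) (h : IsTheta act ζ ι m θ) (i : I) (a : ZMod 5)
    (f : (I → ZMod 5) → V) : act (pw (m i) a) (θ f) = θ (mulf ζ (fun x => a * x i) f) := by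
  unfold pw
  rw [acts_pow hζ (h := fun x => x i) (fun f => by rw [h.conj]; rfl)]
  congr 2
  funext x
  rw [ZMod.natCast_zmod_val]

/-- the element attached to a pair acts on points as a power of the second element. -/
lemma pair_point [Finite I] (hζ : IsRt ζ) (hθ : IsTheta act ζ ι m θ) (i : I) {u : A}
    (hp : Pair act ζ ι (m i) u) :
    ∃ g : A, ∀ x v, act g (θ (ind x v)) = act (pw u (x i)) (θ (ind x v)) := by
  classical
  obtain ⟨θ', hθ', g, hg⟩ := hp
  refine ⟨g, fun x v => ?_⟩
  set α := x i with hα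
  have h1 : ∀ f g' : (I → ZMod 5) → V, act g (θ (f + g')) = act g (θ f) * act g (θ g') := by
    intro f g'; rw [hθ.add, map_mul]
  have h2 : ∀ f g' : (I → ZMod 5) → V,
      act (pw u α) (θ (f + g')) = act (pw u α) (θ f) * act (pw u α) (θ g') := by
    intro f g'; rw [hθ.add, map_mul]
  set S := eqSub (θ := fun f => act g (θ f)) (θ' := fun f => act (pw u α) (θ f)) h1 h2 with hS
  have hSc : ∀ j, ∀ f ∈ S, mulc ζ j f ∈ S := by
    intro j f hf
    change act g (θ _) = act (pw u α) (θ _)
    rw [← hθ.conj, act_comm, show act g (θ f) = act (pw u α) (θ f) from hf, act_comm]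
  -- the functions of one variable
  have e1 := hθ.comap (fun _ : Unit => i)
  have e2 := hθ'.comap (fun _ : Unit => (0 : Fin 2))
  have e3 : (m ∘ fun _ : Unit => i) = (![m i, u] ∘ fun _ : Unit => (0 : Fin 2)) := by
    funext; rfl
  rw [e3] at e1
  have huniq := IsTheta.unique hζ e1 e2
  have hf0 : (fun y : I → ZMod 5 => if y i = α then v else 0) ∈ S := by
    change act g (θ _) = act (pw u α) (θ _)
    have := congrFun huniq (fun y : Unit → ZMod 5 => if y () = α then v else 0)
    simp only [Function.comp_apply] at this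
    rw [this, hg]
    have hu : u = ![m i, u] 1 := rfl
    conv_rhs => rw [hu]
    rw [hθ'.acts_pw hζ]
    congr 1
    funext y
    simp only [mulf]
    split_ifs with h
    · rw [h]
    · simp
  have := ind_mem hζ S hSc x hf0
  rw [if_pos rfl] at this
  exact this

/-- One more element. -/
theorem comm_step [Finite I] (hζ : IsRt ζ) (hθ : IsTheta act ζ ι m θ) {u : A} (hu5 : u ^ 5 = 1)
    (hp : ∀ i, Pair act ζ ι (m i) u)
    (hu : ∀ κ v w, Commute (act (pw u κ) (ι v)) (ι w)) (κ : ZMod 5) (f : (I → ZMod 5) → V) (w : V) :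
    Commute (act (pw u κ) (θ f)) (ι w) := by
  have hdisj : ∀ x y v w, x ≠ y → Commute (act (pw u κ) (θ (ind x v))) (θ (ind y w)) := by
    intro x y v w hxy
    obtain ⟨i, hi⟩ := Function.ne_iff.1 hxy
    obtain ⟨g, hg⟩ := pair_point hζ hθ i (hp i)
    -- the corrected element
    set g' : A := pw u (-(y i)) * g with hg'
    have a1 : ∀ w, act g' (θ (ind y w)) = θ (ind y w) := by
      intro w
      rw [hg', act_mul, hg, ← act_mul, ← pw_add hu5, neg_add_cancel, pw_zero, map_one,
        MulAut.one_apply]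
    have a2 : ∀ v, act g' (θ (ind x v)) = act (pw u (x i - y i)) (θ (ind x v)) := by
      intro v
      rw [hg', act_mul, hg, ← act_mul, ← pw_add hu5]
      congr 3; ring
    have a3 : ∀ n : ℕ, act (g' ^ n) (θ (ind y w)) = θ (ind y w) := by
      intro n
      induction n with
      | zero => rw [pow_zero, map_one, MulAut.one_apply]
      | succ n ih => rw [pow_succ, act_mul, a1, ih]
    have a4 : ∀ n : ℕ, act (g' ^ n) (θ (ind x v)) = act (pw u (x i - y i) ^ n) (θ (ind x v)) := by
      intro n
      induction n with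
      | zero => simp only [pow_zero, map_one, MulAut.one_apply]
      | succ n ih => rw [pow_succ, act_mul, a2, act_comm, ih, ← act_mul, pow_succ, mul_comm]
    have hne : x i - y i ≠ 0 := sub_ne_zero.2 hi
    set b : ZMod 5 := (x i - y i)⁻¹ * κ with hb
    have hb' : (x i - y i) * b = κ := by rw [hb, ← mul_assoc, mul_inv_cancel₀ hne, one_mul]
    have h0 : Commute (θ (ind x v)) (θ (ind y w)) := theta_comm hθ.add _ _
    have h1 : Commute (act (g' ^ b.val) (θ (ind x v))) (act (g' ^ b.val) (θ (ind y w))) :=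
      h0.map (act (g' ^ b.val))
    rwa [a3, a4, ← pw_mul hu5, hb'] at h1
  have := gamma (m := m) (θ := θ) (θ' := fun f => act (pw u κ) (θ f)) hζ hθ.add
    (fun f g => by simp only [hθ.add, map_mul]) hθ.conj
    (fun i f => by rw [act_comm, hθ.conj])
    (fun v w => by simp only [hθ.const]; exact hu κ v w) hdisj f w
  simpa only [hθ.const] using this

section ext

variable [Fintype I]

/-- the product element -/
def Mel (m : I → A) (n : I → ZMod 5) : A := ∏ i, pw (m i) (n i)

lemma Mel_add (hm : ∀ i, m i ^ 5 = 1) (n n' : I → ZMod 5) :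
    Mel m (n + n') = Mel m n * Mel m n' := by
  unfold Mel
  rw [← Finset.prod_mul_distrib]
  exact Finset.prod_congr rfl fun i _ => pw_add (hm i) _ _

lemma Mel_zero (m : I → A) : Mel m 0 = 1 := by
  unfold Mel; simp [pw_zero]

variable [Finite V]

/-- Existence of `θ` from commutation. -/
theorem ext_theta [DecidableEq I] (hζ : IsRt ζ) (hm : ∀ i, m i ^ 5 = 1)
    (hι : ∀ v w, ι (v + w) = ι v * ι w)
    (hcomm : ∀ n : I → ZMod 5, ∀ v w, Commute (act (Mel m n) (ι v)) (ι w)) :
    ∃ θ : ((I → ZMod 5) → V) → Γ, IsTheta act ζ ι m θ := by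
  classical
  -- the summands
  let φ : ∀ _ : I → ZMod 5, Multiplicative V →* Γ := fun n =>
    { toFun := fun v => act (Mel m n) (ι v.toAdd)
      map_one' := by
        have : ι (0 : V) = 1 := by
          have := hι 0 0
          rw [add_zero] at this
          exact mul_eq_left.1 this.symm
        rw [toAdd_one, this, map_one]
      map_mul' := by
        intro v w
        rw [toAdd_mul, hι, map_mul] }
  have hφ : ∀ n v, φ n (Multiplicative.ofAdd v) = act (Mel m n) (ι v) := fun n v => rfl
  have hc : ∀ (n n' : I → ZMod 5) (v w : V),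
      Commute (act (Mel m n) (ι v)) (act (Mel m n') (ι w)) := by
    intro n n' v w
    have h1 := (hcomm (n - n') v w).map (act (Mel m n'))
    rw [← act_mul, ← Mel_add hm, add_sub_cancel] at h1
    exact h1
  have hpair : Pairwise fun n n' => ∀ v w, Commute (φ n v) (φ n' w) := by
    intro n n' _ v w
    exact hc n n' _ _
  let Ξ : ((I → ZMod 5) → V) → Γ := fun g =>
    MonoidHom.noncommPiCoprod φ hpair (fun n => Multiplicative.ofAdd (g n))
  have hΞadd : ∀ f g, Ξ (f + g) = Ξ f * Ξ g := by
    intro f g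
    change MonoidHom.noncommPiCoprod φ hpair _ = _
    rw [← map_mul]; rfl
  have hΞind : ∀ n v, Ξ (ind n v) = act (Mel m n) (ι v) := by
    intro n v
    change MonoidHom.noncommPiCoprod φ hpair _ = _
    have : (fun k => Multiplicative.ofAdd (ind n v k)) = Pi.mulSingle n (Multiplicative.ofAdd v) := by
      funext k
      by_cases hk : k = n
      · subst hk; simp [ind_self]
      · simp [ind_ne hk, Pi.mulSingle_eq_of_ne hk]
    rw [this, MonoidHom.noncommPiCoprod_mulSingle, hφ]
  -- the transform
  let D : ((I → ZMod 5) → V) →+ ((I → ZMod 5) → V) :=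
    { toFun := fun g x => ∑ n, zp ζ (∑ i, n i * x i) • g n
      map_zero' := by funext x; simp
      map_add' := by intro f g; funext x; simp [smul_add, Finset.sum_add_distrib] }
  have hDind : ∀ n v x, D (ind n v) x = zp ζ (∑ i, n i * x i) • v := by
    intro n v x
    change ∑ k, zp ζ (∑ i, k i * x i) • ind n v k = _
    rw [Finset.sum_eq_single n]
    · rw [ind_self]
    · intro k _ hk; rw [ind_ne hk, smul_zero]
    · intro h; exact absurd (Finset.mem_univ n) h
  have hΞzero : Ξ 0 = 1 := theta_zero hΞadd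
  have hshift : ∀ i g, ∃ g', mulc ζ i (D g) = D g' ∧ act (m i) (Ξ g) = Ξ g' := by
    intro i g
    refine ind_induction (P := fun g => ∃ g', mulc ζ i (D g) = D g' ∧ act (m i) (Ξ g) = Ξ g')
      ?_ ?_ ?_ g
    · refine ⟨0, ?_, ?_⟩
      · rw [map_zero]; funext x; simp [mulc]
      · rw [hΞzero, map_one]
    · rintro f g ⟨f', hf1, hf2⟩ ⟨g', hg1, hg2⟩
      refine ⟨f' + g', ?_, ?_⟩
      · rw [map_add, mulc_add, hf1, hg1, map_add]
      · rw [hΞadd, map_mul, hf2, hg2, hΞadd]
    · intro n v
      refine ⟨ind (n + Pi.single i 1) v, ?_, ?_⟩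
      · funext x
        rw [mulc, hDind, hDind, smul_smul, ← hζ.zp_add]
        congr 2
        simp only [Pi.add_apply, add_mul, Finset.sum_add_distrib]
        rw [add_comm]
        congr 1
        rw [Finset.sum_eq_single i]
        · simp
        · intro j _ hj; simp [hj]
        · intro h; exact absurd (Finset.mem_univ i) h
      · rw [hΞind, hΞind, Mel_add hm, mul_comm, act_mul]
        congr 2
        unfold Mel
        rw [Finset.prod_eq_single i]
        · rw [Pi.single_eq_same]; simp [pw, ZMod.val_one]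
        · intro j _ hj; rw [Pi.single_eq_of_ne hj, pw_zero]
        · intro h; exact absurd (Finset.mem_univ i) h
  have hconst : ∀ v, D (ind 0 v) = fun _ => v := by
    intro v; funext x; rw [hDind]; simp
  have hsurj : Function.Surjective D := by
    have : D.range = ⊤ := by
      refine span_top hζ _ (fun i f hf => ?_) fun v => ?_
      · obtain ⟨g, rfl⟩ := hf
        obtain ⟨g', hg', -⟩ := hshift i g
        exact ⟨g', hg'.symm⟩
      · exact ⟨ind 0 v, hconst v⟩
    intro f
    have hf : f ∈ D.range := this ▸ AddSubgroup.mem_top f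
    exact hf
  have hinj : Function.Injective D := Finite.injective_iff_surjective.2 hsurj
  let R := Function.surjInv hsurj
  have hR : ∀ f, D (R f) = f := Function.surjInv_eq hsurj
  have hR' : ∀ g, R (D g) = g := fun g => hinj (hR _)
  refine ⟨fun f => Ξ (R f), ⟨fun f g => ?_, fun v => ?_, fun i f => ?_⟩⟩
  · have : R (f + g) = R f + R g := hinj (by rw [map_add, hR, hR, hR])
    rw [this, hΞadd]
  · rw [← hconst v, hR', hΞind, Mel_zero, map_one, MulAut.one_apply]
  · obtain ⟨g', h1, h2⟩ := hshift i (R f)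
    rw [hR] at h1
    rw [h2, h1, hR']

end ext

lemma IsTheta.acts_prod [Finite I] (hθ : IsTheta act ζ ι m θ) {n : ℕ} (i : I)
    (f : (I → ZMod 5) → V) : ∃ f', act (m i ^ n) (θ f) = θ f' := by
  induction n with
  | zero => exact ⟨f, by rw [pow_zero, map_one, MulAut.one_apply]⟩
  | succ n ih =>
    obtain ⟨f', hf'⟩ := ih
    exact ⟨mulc ζ i f', by rw [pow_succ', act_mul, hf', hθ.conj]⟩

/-- If all the pairs are good then the family is good. -/
theorem family [Finite V] (hζ : IsRt ζ) (hι : ∀ v w, ι (v + w) = ι v * ι w) (I : Type) [Finite I] :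
    ∀ m : I → A, (∀ i, m i ^ 5 = 1) → (∀ i j, Pair act ζ ι (m i) (m j)) →
      ∃ θ : ((I → ZMod 5) → V) → Γ, IsTheta act ζ ι m θ := by
  classical
  induction I using Finite.induction_empty_option with
  | of_equiv e ih =>
    intro m hm hp
    obtain ⟨θ, hθ⟩ := ih (m ∘ e) (fun i => hm _) (fun i j => hp _ _)
    have := hθ.comap e.symm
    have e1 : (m ∘ e) ∘ e.symm = m := by funext x; simp
    rw [e1] at this
    exact ⟨_, this⟩
  | h_empty =>
    intro m hm hp
    refine ⟨fun f => ι (f PEmpty.elim), ⟨fun f g => hι _ _, fun v => rfl, fun i => i.elim⟩⟩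
  | @h_option J _ ih =>
    intro m hm hp
    obtain ⟨θ, hθ⟩ := ih (m ∘ some) (fun i => hm _) (fun i j => hp _ _)
    refine ext_theta hζ hm hι fun n v w => ?_
    have hu : ∀ κ v w, Commute (act (pw (m none) κ) (ι v)) (ι w) := by
      intro κ v w
      obtain ⟨θ', hθ', -⟩ := hp none none
      rw [← hθ'.const, ← hθ'.const, show m none = ![m none, m none] 0 from rfl, hθ'.acts_pw hζ]
      exact theta_comm hθ'.add _ _
    have h1 := comm_step hζ hθ (hm none) (fun i => hp _ _) hu
    -- decompose
    have h2 : Mel m n = pw (m none) (n none) * Mel (m ∘ some) (n ∘ some) := by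
      unfold Mel
      rw [Fintype.prod_option]; rfl
    have h3 : ∀ s : Finset J, ∃ f, act (∏ i ∈ s, pw ((m ∘ some) i) ((n ∘ some) i)) (ι v) = θ f := by
      intro s
      induction s using Finset.induction_on with
      | empty => exact ⟨fun _ => v, by simp [hθ.const]⟩
      | insert i s hi ih2 =>
        obtain ⟨f, hf⟩ := ih2
        obtain ⟨f', hf'⟩ := hθ.acts_prod (n := ((n ∘ some) i).val) i f
        exact ⟨f', by rw [Finset.prod_insert hi, act_mul, hf]; exact hf'⟩
    obtain ⟨f, hf⟩ := h3 univ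
    rw [h2, act_mul]
    unfold Mel
    rw [hf]
    exact h1 _ _ _

end Pool.Agent.MP_cdb312_al
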