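import Mathlib

/-!
# A descent on integer vectors with five coordinates
-/

namespace Pool.Agent.MP_cdb312_al

open Finset

/-- Sum of the positive parts. -/
def pos (w : Fin 5 → ℤ) : ℤ := ∑ a, max (w a) 0

/-- number of zero coordinates -/
def nz (w : Fin 5 → ℤ) : ℕ := (univ.filter fun a => w a = 0).card

lemma pos_nonneg (w : Fin 5 → ℤ) : 0 ≤ pos w := Finset.sum_nonneg fun _ _ => le_max_right _ _

lemma pos_neg {w : Fin 5 → ℤ} (h : ∑ a, w a = 0) : pos (-w) = pos w := by
  unfold pos
  have : ∑ a, max ((-w) a) 0 = ∑ a, (max (w a) 0 - w a) := by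
    refine Finset.sum_congr rfl fun a _ => ?_
    simp only [Pi.neg_apply]
    rcases le_total (w a) 0 with h | h
    · rw [max_eq_right h, max_eq_left (by omega)]; ring
    · rw [max_eq_left h, max_eq_right (by omega)]; ring
  rw [this, Finset.sum_sub_distrib, h, sub_zero]

lemma nz_neg (w : Fin 5 → ℤ) : nz (-w) = nz w := by
  unfold nz; congr 1; ext a; simp

lemma nz_le (w : Fin 5 → ℤ) : nz w ≤ 5 := by
  unfold nz; exact (Finset.card_filter_le _ _).trans (by simp)

/-- The move: subtract one at `a0`, add one at `a`. -/
def mv (w : Fin 5 → ℤ) (a0 a : Fin 5) : Fin 5 → ℤ := w - Pi.single a0 1 + Pi.single a 1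

lemma sum_mv {w : Fin 5 → ℤ} (h : ∑ a, w a = 0) (a0 a : Fin 5) : ∑ b, mv w a0 a b = 0 := by
  simp [mv, Finset.sum_add_distrib, Finset.sum_sub_distrib, h]

lemma mv_a0 {w : Fin 5 → ℤ} {a0 a : Fin 5} (h : a0 ≠ a) : mv w a0 a a0 = w a0 - 1 := by
  simp [mv, h]

lemma mv_a {w : Fin 5 → ℤ} {a0 a : Fin 5} (h : a0 ≠ a) : mv w a0 a a = w a + 1 := by
  simp [mv, h.symm]

lemma mv_other {w : Fin 5 → ℤ} {a0 a b : Fin 5} (h0 : b ≠ a0) (h : b ≠ a) :
    mv w a0 a b = w b := by
  simp [mv, h0, h]

/-- `pos` after a move. -/
lemma pos_mv {w : Fin 5 → ℤ} {a0 a : Fin 5} (h : a0 ≠ a) :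
    pos (mv w a0 a) = pos w + (max (w a0 - 1) 0 - max (w a0) 0) + (max (w a + 1) 0 - max (w a) 0) := by
  unfold pos
  have e : ∀ f : Fin 5 → ℤ, ∑ b, f b = f a0 + (f a + ∑ b ∈ (univ.erase a0).erase a, f b) := by
    intro f
    rw [← Finset.add_sum_erase univ f (Finset.mem_univ a0),
      ← Finset.add_sum_erase (univ.erase a0) f (a := a)
        (Finset.mem_erase.2 ⟨h.symm, Finset.mem_univ a⟩)]
  rw [e, e (fun b => max (w b) 0)]
  have : ∑ b ∈ (univ.erase a0).erase a, max (mv w a0 a b) 0
      = ∑ b ∈ (univ.erase a0).erase a, max (w b) 0 := by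
    refine Finset.sum_congr rfl fun b hb => ?_
    simp only [Finset.mem_erase, Finset.mem_univ, and_true] at hb
    rw [mv_other hb.2 hb.1]
  rw [this, mv_a0 h, mv_a h]
  ring

lemma exists_subset_card (s : Finset (Fin 5)) (n : ℕ) (h : n ≤ s.card) :
    ∃ A ⊆ s, A.card = n := Finset.exists_subset_card_eq h

theorem red (k : ℕ) (hk : k ≤ 2) (C : (Fin 5 → ℤ) → Prop) (hneg : ∀ w, C w → C (-w))
    (hrule : ∀ w a0, ∀ A : Finset (Fin 5), A.card = k + 1 → a0 ∉ A → (∀ a ∈ A, C (mv w a0 a)) → C w)
    (hbase : ∀ w, ∑ a, w a = 0 → pos w ≤ k → C w) : ∀ w, ∑ a, w a = 0 → C w := by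
  suffices H : ∀ n : ℕ, ∀ w, ∑ a, w a = 0 → 6 * (pos w).toNat + nz w ≤ n → C w from
    fun w hw => H _ w hw le_rfl
  intro n
  induction n using Nat.strong_induction_on with
  | _ n ih =>
    intro w hw hn
    by_cases hb : pos w ≤ k
    · exact hbase w hw hb
    push Not at hb
    by_cases hP : k + 1 ≤ (univ.filter fun a => 0 < w a).card
    · -- use `-w`
      obtain ⟨A, hA, hAc⟩ := exists_subset_card _ _ hP
      have hex : ∃ a0, w a0 < 0 := by
        by_contra hcon
        push Not at hcon
        have h0 : ∀ a, w a = 0 := by
          intro a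
          exact (Finset.sum_eq_zero_iff_of_nonneg (fun b _ => hcon b)).1 hw a (Finset.mem_univ a)
        have : pos w = 0 := by unfold pos; simp [h0]
        omega
      obtain ⟨a0, ha0⟩ := hex
      have ha0A : a0 ∉ A := by
        intro h
        have := hA h
        simp only [Finset.mem_filter, Finset.mem_univ, true_and] at this
        omega
      have hw' : ∑ a, (-w) a = 0 := by simp [hw]
      have key : C (-w) := by
        refine hrule (-w) a0 A hAc ha0A fun a ha => ?_
        have haw : 0 < w a := by
          have := hA ha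
          simpa only [Finset.mem_filter, Finset.mem_univ, true_and] using this
        have hne : a0 ≠ a := fun h => ha0A (h ▸ ha)
        have hp : pos (mv (-w) a0 a) = pos w - 1 := by
          rw [pos_mv hne, pos_neg hw]
          simp only [Pi.neg_apply]
          have e1 : max (-w a0 - 1) 0 = -w a0 - 1 := max_eq_left (by omega)
          have e2 : max (-w a0) 0 = - w a0 := max_eq_left (by omega)
          have e3 : max (-w a + 1) 0 = 0 := max_eq_right (by omega)
          have e4 : max (-w a) 0 = 0 := max_eq_right (by omega)
          rw [e1, e2, e3, e4]; ring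
        have hz := nz_le (mv (-w) a0 a)
        refine ih (6 * (pos (mv (-w) a0 a)).toNat + nz (mv (-w) a0 a)) ?_ _ (sum_mv hw' a0 a) le_rfl
        have := pos_nonneg (mv (-w) a0 a)
        omega
      have := hneg _ key
      rwa [neg_neg] at this
    · push Not at hP
      -- some coordinate is at least two
      have hex : ∃ a0, 2 ≤ w a0 := by
        by_contra hcon
        push Not at hcon
        have : pos w ≤ k := by
          have h1 : pos w ≤ ∑ a, (if 0 < w a then (1 : ℤ) else 0) := by
            unfold pos
            refine Finset.sum_le_sum fun a _ => ?_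
            have := hcon a
            split_ifs with h
            · exact max_le (by omega) (by omega)
            · exact max_le (by omega) (by omega)
          rw [← Finset.sum_filter, Finset.sum_const, nsmul_eq_mul, mul_one] at h1
          have : ((univ.filter fun a => 0 < w a).card : ℤ) ≤ k := by exact_mod_cast Nat.lt_succ_iff.1 hP
          omega
        omega
      obtain ⟨a0, ha0⟩ := hex
      have hcard : k + 1 ≤ (univ.filter fun a => ¬ 0 < w a).card := by
        have := Finset.card_filter_add_card_filter_not (s := (univ : Finset (Fin 5))) (fun a => 0 < w a)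
        rw [Finset.card_univ, Fintype.card_fin] at this
        omega
      obtain ⟨A, hA, hAc⟩ := exists_subset_card _ _ hcard
      have ha0A : a0 ∉ A := by
        intro h
        have := hA h
        simp only [Finset.mem_filter, Finset.mem_univ, true_and] at this
        omega
      refine hrule w a0 A hAc ha0A fun a ha => ?_
      have haw : w a ≤ 0 := by
        have := hA ha
        simpa only [Finset.mem_filter, Finset.mem_univ, true_and, not_lt] using this
      have hne : a0 ≠ a := fun h => ha0A (h ▸ ha)
      refine ih (6 * (pos (mv w a0 a)).toNat + nz (mv w a0 a)) ?_ _ (sum_mv hw a0 a) le_rfl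
      have hpn := pos_nonneg (mv w a0 a)
      rcases haw.lt_or_eq with haw' | haw'
      · have hp : pos (mv w a0 a) = pos w - 1 := by
          rw [pos_mv hne]
          have e1 : max (w a0 - 1) 0 = w a0 - 1 := max_eq_left (by omega)
          have e2 : max (w a0) 0 = w a0 := max_eq_left (by omega)
          have e3 : max (w a + 1) 0 = 0 := max_eq_right (by omega)
          have e4 : max (w a) 0 = 0 := max_eq_right (by omega)
          rw [e1, e2, e3, e4]; ring
        have hz := nz_le (mv w a0 a)
        omega
      · have hp : pos (mv w a0 a) = pos w := by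
          rw [pos_mv hne]
          have e1 : max (w a0 - 1) 0 = w a0 - 1 := max_eq_left (by omega)
          have e2 : max (w a0) 0 = w a0 := max_eq_left (by omega)
          have e3 : max (w a + 1) 0 = 1 := by rw [haw']; rfl
          have e4 : max (w a) 0 = 0 := max_eq_right (by omega)
          rw [e1, e2, e3, e4]; ring
        have hz : nz (mv w a0 a) < nz w := by
          unfold nz
          refine Finset.card_lt_card ⟨?_, ?_⟩
          · intro b hb
            simp only [Finset.mem_filter, Finset.mem_univ, true_and] at hb ⊢
            rcases eq_or_ne b a0 with rfl | h0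
            · rw [mv_a0 hne] at hb; omega
            rcases eq_or_ne b a with rfl | h1
            · exact haw'
            rwa [mv_other h0 h1] at hb
          · intro hsub
            have := hsub (show a ∈ univ.filter (fun b => w b = 0) by simp [haw'])
            simp only [Finset.mem_filter, Finset.mem_univ, true_and] at this
            rw [mv_a hne] at this
            omega
        omega

end Pool.Agent.MP_cdb312_al
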