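import Mathlib
import Pool.Agent.Lib.MP_cdb312_al.Red
import Pool.Agent.Lib.MP_cdb312_al.Family

/-!
# The single layer theorem
-/

namespace Pool.Agent.MP_cdb312_al

open Finset
open scoped commutatorElement

section quad

variable {p : ℕ} [Fact p.Prime] {V : Type*} [AddCommGroup V] [Module (ZMod p) V]
  {Γ : Type*} [Group Γ] {A : Type*} [CommGroup A]
variable {act : A →* MulAut Γ} {ζ : ZMod p} {ι : V → Γ} {I : Type*} {m : I → A}
  {θ : ((I → ZMod 5) → V) → Γ}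

lemma quad [Finite I] (hζ : IsRt ζ) (hθ : IsTheta act ζ ι m θ) (i j : I)
    (hp : Pair act ζ ι (m i) (m j)) :
    ∃ g : A, ∀ f, act g (θ f) = θ (mulf ζ (fun x => x i * x j) f) := by
  obtain ⟨θ', hθ', g, hg⟩ := hp
  refine ⟨g, acts_of_const hζ hθ g _ fun v => ?_⟩
  have e1 := hθ.comap ![i, j]
  have e2 : m ∘ ![i, j] = ![m i, m j] := by
    funext k; fin_cases k <;> rfl
  rw [e2] at e1
  have e3 := IsTheta.unique hζ hθ' e1
  rw [← hθ'.const v, hg, e3]
  rfl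

lemma lincomb (hζ : IsRt ζ) {m : Fin 3 → A} {θ : ((Fin 3 → ZMod 5) → V) → Γ}
    (hθ : IsTheta act ζ ι m θ) (h1 : Pair act ζ ι (m 0) (m 1)) (h2 : Pair act ζ ι (m 0) (m 2))
    (i j : ℕ) : Pair act ζ ι (m 0) (m 1 ^ i * m 2 ^ j) := by
  obtain ⟨g1, hg1⟩ := quad hζ hθ 0 1 h1
  obtain ⟨g2, hg2⟩ := quad hζ hθ 0 2 h2
  refine ⟨fun f => θ (fun x => f ![x 0, i * x 1 + j * x 2]),
    ⟨fun f g => hθ.add _ _, fun v => hθ.const v, fun k f => ?_⟩, g1 ^ i * g2 ^ j, fun f => ?_⟩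
  · fin_cases k
    · exact hθ.conj 0 _
    · change act (m 1 ^ i * m 2 ^ j) _ = _
      rw [acts_mul hζ (acts_pow hζ (h := fun x => x 1) (fun f => by rw [hθ.conj]; rfl) i)
        (acts_pow hζ (h := fun x => x 2) (fun f => by rw [hθ.conj]; rfl) j)]
      rfl
  · rw [acts_mul hζ (acts_pow hζ hg1 i) (acts_pow hζ hg2 j)]
    congr 1
    funext x
    simp only [mulf, Pi.add_apply, Matrix.cons_val_zero, Matrix.cons_val_one]
    congr 2
    ring

end quad

variable {p : ℕ} [Fact p.Prime] {V : Type} [AddCommGroup V] [Module (ZMod p) V]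
  {Γ : Type*} [Group Γ]

/-- The pair condition, concretely. -/
def PairG (N : Subgroup Γ) (ζ : ZMod p) (ι : V → Γ) (x y : Γ) : Prop :=
  ∃ θ : ((Fin 2 → ZMod 5) → V) → Γ, (∀ f g, θ (f + g) = θ f * θ g) ∧ (∀ v, θ (fun _ => v) = ι v) ∧
    (∀ f, x * θ f * x⁻¹ = θ (mulc ζ 0 f)) ∧ (∀ f, y * θ f * y⁻¹ = θ (mulc ζ 1 f)) ∧
    ∃ g ∈ N, ∀ f, g * θ f * g⁻¹ = θ (mulf ζ (fun x => x 0 * x 1) f)

lemma PairG.swap {N : Subgroup Γ} {ζ : ZMod p} {ι : V → Γ} {x y : Γ} (h : PairG N ζ ι x y) :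
    PairG N ζ ι y x := by
  obtain ⟨θ, h1, h2, h3, h4, g, hg, h5⟩ := h
  refine ⟨fun f => θ (fun z => f ![z 1, z 0]), fun f g => h1 _ _, fun v => h2 v, fun f => ?_,
    fun f => ?_, g, hg, fun f => ?_⟩
  · rw [h4]; rfl
  · rw [h3]; rfl
  · rw [h5]
    congr 1
    funext z
    simp only [mulf, Matrix.cons_val_zero, Matrix.cons_val_one]
    rw [mul_comm]

lemma PairG.conj {N : Subgroup Γ} {ζ : ZMod p} {ι : V → Γ} {x y : Γ} (h : PairG N ζ ι x y)
    {t : Γ} (ht : ∀ g ∈ N, t * g * t⁻¹ ∈ N) (hι : ∀ v, Commute t (ι v)) :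
    PairG N ζ ι (t * x * t⁻¹) (t * y * t⁻¹) := by
  obtain ⟨θ, h1, h2, h3, h4, g, hg, h5⟩ := h
  refine ⟨fun f => t * θ f * t⁻¹, fun f g => ?_, fun v => ?_, fun f => ?_,
    fun f => ?_, t * g * t⁻¹, ht g hg, fun f => ?_⟩
  · beta_reduce; rw [h1]; group
  · beta_reduce; rw [h2, (hι v).eq]; group
  · beta_reduce; rw [← h3]; group
  · beta_reduce; rw [← h4]; group
  · beta_reduce; rw [← h5]; group

/-- conjugates of `b` by `τ`. -/
def bw (τ : (Fin 5 → ℤ) → Γ) (b : Γ) (w : Fin 5 → ℤ) : Γ := τ w * b * (τ w)⁻¹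

section tau

variable {τ : (Fin 5 → ℤ) → Γ} (hτ : ∀ w w', τ (w + w') = τ w * τ w')
include hτ

lemma tau_zero : τ 0 = 1 := by
  have := hτ 0 0
  rw [add_zero] at this
  exact mul_eq_left.1 this.symm

lemma tau_neg (w : Fin 5 → ℤ) : τ (-w) = (τ w)⁻¹ := by
  have := hτ (-w) w
  rw [neg_add_cancel, tau_zero hτ] at this
  exact eq_inv_of_mul_eq_one_left this.symm

lemma bw_add (b : Γ) (w w' : Fin 5 → ℤ) : bw τ b (w + w') = τ w * bw τ b w' * (τ w)⁻¹ := by
  unfold bw; rw [hτ]; group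

lemma bw_zero (b : Γ) : bw τ b 0 = b := by
  unfold bw; rw [tau_zero hτ]; group

lemma tau_reduce (h4 : τ (Pi.single 4 1) = 1) (w : Fin 5 → ℤ) :
    τ w = τ (w - (∑ a, w a) • Pi.single 4 1) := by
  have hz : ∀ n : ℤ, τ (n • Pi.single 4 1) = 1 := by
    intro n
    have hnat : ∀ n : ℕ, τ (n • Pi.single 4 1) = 1 := by
      intro n
      induction n with
      | zero => rw [zero_smul, tau_zero hτ]
      | succ n ih => rw [succ_nsmul, hτ, ih, h4, one_mul]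
    obtain ⟨k, rfl | rfl⟩ := n.eq_nat_or_neg
    · rw [natCast_zsmul, hnat]
    · rw [neg_smul, natCast_zsmul, tau_neg hτ, hnat, inv_one]
  conv_lhs => rw [← sub_add_cancel w ((∑ a, w a) • Pi.single 4 1)]
  rw [hτ, hz, mul_one]

end tau

lemma sum_reduce (w : Fin 5 → ℤ) :
    ∑ a, (w - (∑ a, w a) • (Pi.single 4 1 : Fin 5 → ℤ)) a = 0 := by
  simp only [Pi.sub_apply, Finset.sum_sub_distrib, Pi.smul_apply, smul_eq_mul, ← Finset.mul_sum]
  simp

/-- **Single layer theorem.** -/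
theorem layer [Finite V] {ζ : ZMod p} (hζ : IsRt ζ) (N : Subgroup Γ)
    (hN : ∀ x ∈ N, ∀ y ∈ N, x * y = y * x)
    {τ : (Fin 5 → ℤ) → Γ} (hτ : ∀ w w', τ (w + w') = τ w * τ w') (h4 : τ (Pi.single 4 1) = 1)
    (hNτ : ∀ w, ∀ x ∈ N, τ w * x * (τ w)⁻¹ ∈ N) {b : Γ} (hb : b ∈ N) (hb5 : b ^ 5 = 1)
    {ι : V → Γ} (hι : ∀ v w, ι (v + w) = ι v * ι w) (hιτ : ∀ w v, Commute (τ w) (ι v))
    (h1 : ∀ a0 a1 a2 : Fin 5, a0 ≠ a1 → a0 ≠ a2 → a1 ≠ a2 → ∃ i j : ℕ,
      bw τ b (Pi.single a0 1) = bw τ b (Pi.single a1 1) ^ i * bw τ b (Pi.single a2 1) ^ j)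
    (h2 : ∀ w, ∑ a, w a = 0 → pos w ≤ 1 → PairG N ζ ι b (bw τ b w)) :
    ∀ x ∈ Subgroup.closure (Set.range (bw τ b)), ∀ v w,
      Commute (x * ι v * x⁻¹) (ι w) := by
  classical
  let _ : CommGroup N := { (inferInstance : Group N) with
    mul_comm := fun x y => Subtype.ext (hN x x.2 y y.2) }
  let act : N →* MulAut Γ := MulAut.conj.comp N.subtype
  have hact : ∀ (n : N) (g : Γ), act n g = n * g * (n : Γ)⁻¹ := fun n g => rfl
  have hbw : ∀ w, bw τ b w ∈ N := fun w => hNτ w b hb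
  let β : (Fin 5 → ℤ) → N := fun w => ⟨bw τ b w, hbw w⟩
  have hβ5 : ∀ w, β w ^ 5 = 1 := by
    intro w
    apply Subtype.ext
    change (τ w * b * (τ w)⁻¹) ^ 5 = 1
    rw [conj_pow, hb5]; group
  -- conversion between the two pair conditions
  have conv : ∀ x y : N, Pair act ζ ι x y ↔ PairG N ζ ι (x : Γ) (y : Γ) := by
    intro x y
    constructor
    · rintro ⟨θ, hθ, g, hg⟩
      exact ⟨θ, hθ.add, hθ.const, hθ.conj 0, hθ.conj 1, g, g.2, hg⟩
    · rintro ⟨θ, a1, a2, a3, a4, g, hg, a5⟩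
      refine ⟨θ, ⟨a1, a2, fun i f => ?_⟩, ⟨g, hg⟩, a5⟩
      fin_cases i
      · exact a3 f
      · exact a4 f
  -- pairs and translations
  have htrans : ∀ x y, PairG N ζ ι b (bw τ b (y - x)) → PairG N ζ ι (bw τ b x) (bw τ b y) := by
    intro x y h
    have := h.conj (t := τ x) (hNτ x) (hιτ x)
    rw [← bw_add hτ, add_sub_cancel] at this
    exact this
  have hsymm : ∀ w, PairG N ζ ι b (bw τ b w) → PairG N ζ ι b (bw τ b (-w)) := by
    intro w h
    have := htrans (-w) 0 (by rwa [zero_sub, neg_neg])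
    rw [bw_zero hτ] at this
    exact this.swap
  -- all pairs
  have hall0 : ∀ w, ∑ a, w a = 0 → PairG N ζ ι b (bw τ b w) := by
    refine red 1 (by norm_num) _ hsymm (fun w a0 A hA ha0 hr => ?_) fun w hw hp =>
      h2 w hw (by exact_mod_cast hp)
    obtain ⟨a1, a2, h12, rfl⟩ := Finset.card_eq_two.1 hA
    have n01 : a0 ≠ a1 := fun h => ha0 (by simp [h])
    have n02 : a0 ≠ a2 := fun h => ha0 (by simp [h])
    have r1 := hr a1 (by simp)
    have r2 := hr a2 (by simp)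
    obtain ⟨i, j, hij⟩ := h1 a0 a1 a2 n01 n02 h12
    set u1 := mv w a0 a1 with hu1
    set u2 := mv w a0 a2 with hu2
    have r0 : PairG N ζ ι b (bw τ b 0) := h2 0 (by simp) (by simp [pos])
    have r12 : PairG N ζ ι b (bw τ b (u2 - u1)) := by
      have e : u2 - u1 = Pi.single a2 1 - Pi.single a1 1 := by
        rw [hu1, hu2, mv, mv]; abel
      rw [e]
      refine h2 _ ?_ ?_
      · simp [Finset.sum_sub_distrib]
      · unfold pos
        have : ∀ a : Fin 5, max ((Pi.single a2 1 - Pi.single a1 1 : Fin 5 → ℤ) a) 0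
            ≤ if a = a2 then 1 else 0 := by
          intro a
          simp only [Pi.sub_apply, Pi.single_apply]
          split_ifs <;> simp
        refine (Finset.sum_le_sum fun a _ => this a).trans ?_
        simp
    -- the family of three
    let m : Fin 3 → N := ![β 0, β u1, β u2]
    have hw3 : ∀ k : Fin 3, ∃ x, m k = β x ∧ (x = 0 ∨ x = u1 ∨ x = u2) := by
      intro k
      fin_cases k
      · exact ⟨0, rfl, Or.inl rfl⟩
      · exact ⟨u1, rfl, Or.inr (Or.inl rfl)⟩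
      · exact ⟨u2, rfl, Or.inr (Or.inr rfl)⟩
    have hpairs : ∀ k l, Pair act ζ ι (m k) (m l) := by
      intro k l
      obtain ⟨x, hx, hx'⟩ := hw3 k
      obtain ⟨y, hy, hy'⟩ := hw3 l
      rw [hx, hy, conv]
      refine htrans x y ?_
      have n1 := hsymm _ r1
      have n2 := hsymm _ r2
      have n12 := hsymm _ r12
      rw [neg_sub] at n12
      rcases hx' with h | h | h <;> rcases hy' with h' | h' | h' <;> rw [h, h'] <;>
        first
        | (rw [sub_self]; assumption)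
        | (rw [sub_zero]; assumption)
        | (rw [zero_sub]; assumption)
        | assumption
    obtain ⟨θ, hθ⟩ := family hζ hι (Fin 3) m (fun k => by
      obtain ⟨x, hx, -⟩ := hw3 k; rw [hx]; exact hβ5 x) hpairs
    have := lincomb hζ hθ (hpairs 0 1) (hpairs 0 2) i j
    rw [conv] at this
    change PairG N ζ ι (bw τ b 0) (bw τ b u1 ^ i * bw τ b u2 ^ j) at this
    rw [bw_zero hτ] at this
    have e : bw τ b w = bw τ b u1 ^ i * bw τ b u2 ^ j := by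
      have e0 : w = (w - Pi.single a0 1) + Pi.single a0 1 := by abel
      have e1 : u1 = (w - Pi.single a0 1) + Pi.single a1 1 := rfl
      have e2 : u2 = (w - Pi.single a0 1) + Pi.single a2 1 := rfl
      rw [e1, e2]
      conv_lhs => rw [e0]
      rw [bw_add hτ, bw_add hτ, bw_add hτ, hij, conj_pow, conj_pow]
      group
    rw [e]
    exact this
  have hbred : ∀ w, bw τ b w = bw τ b (w - (∑ a, w a) • Pi.single 4 1) := by
    intro w; unfold bw; rw [tau_reduce hτ h4 w]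
  have hall : ∀ w, PairG N ζ ι b (bw τ b w) := by
    intro w
    rw [hbred]
    exact hall0 _ (sum_reduce w)
  have hallp : ∀ x y, Pair act ζ ι (β x) (β y) := by
    intro x y
    rw [conv]
    exact htrans x y (hall _)
  -- conclusion
  intro x hx v w
  have hfin : ∃ s : Finset (Fin 5 → ℤ), x ∈ Subgroup.closure (bw τ b '' (s : Set (Fin 5 → ℤ))) := by
    refine Subgroup.closure_induction (p := fun x _ => ∃ s : Finset (Fin 5 → ℤ),
      x ∈ Subgroup.closure (bw τ b '' (s : Set (Fin 5 → ℤ)))) ?_ ?_ ?_ ?_ hx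
    · rintro _ ⟨w, rfl⟩
      exact ⟨{w}, Subgroup.subset_closure ⟨w, by simp, rfl⟩⟩
    · exact ⟨∅, Subgroup.one_mem _⟩
    · rintro x y _ _ ⟨s, hs⟩ ⟨t, ht⟩
      refine ⟨s ∪ t, Subgroup.mul_mem _ ?_ ?_⟩
      · exact Subgroup.closure_mono (Set.image_mono (by simp)) hs
      · exact Subgroup.closure_mono (Set.image_mono (by simp)) ht
    · rintro x _ ⟨s, hs⟩
      exact ⟨s, Subgroup.inv_mem _ hs⟩
  obtain ⟨s, hs⟩ := hfin
  obtain ⟨θ, hθ⟩ := family hζ hι s (fun i : s => β i) (fun i => hβ5 _) (fun i j => hallp _ _)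
  have hconj : ∀ (i : s) f, bw τ b i * θ f * (bw τ b i)⁻¹ = θ (mulc ζ i f) := fun i f =>
    hθ.conj i f
  have hR : (∀ f, ∃ f', x * θ f * x⁻¹ = θ f') ∧ (∀ f, ∃ f', x⁻¹ * θ f * x = θ f') := by
    refine Subgroup.closure_induction (p := fun x _ => (∀ f, ∃ f', x * θ f * x⁻¹ = θ f') ∧
      (∀ f, ∃ f', x⁻¹ * θ f * x = θ f')) ?_ ?_ ?_ ?_ hs
    · rintro _ ⟨u, hu, rfl⟩
      refine ⟨fun f => ⟨_, hconj ⟨u, hu⟩ f⟩, fun f => ?_⟩
      refine ⟨mulf ζ (fun x => - x ⟨u, hu⟩) f, ?_⟩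
      have := hconj ⟨u, hu⟩ (mulf ζ (fun x => - x ⟨u, hu⟩) f)
      rw [mulc_eq_mulf, mulf_mulf hζ] at this
      have e : mulf ζ ((fun x : s → ZMod 5 => x ⟨u, hu⟩) + fun x => - x ⟨u, hu⟩) f = f := by
        funext x; simp [mulf]
      rw [e] at this
      rw [← this]; group
    · exact ⟨fun f => ⟨f, by group⟩, fun f => ⟨f, by group⟩⟩
    · rintro x y _ _ ⟨hx1, hx2⟩ ⟨hy1, hy2⟩
      constructor
      · intro f
        obtain ⟨f', hf'⟩ := hy1 f
        obtain ⟨f'', hf''⟩ := hx1 f'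
        exact ⟨f'', by rw [← hf'', ← hf']; group⟩
      · intro f
        obtain ⟨f', hf'⟩ := hx2 f
        obtain ⟨f'', hf''⟩ := hy2 f'
        exact ⟨f'', by rw [← hf'', ← hf']; group⟩
    · rintro x _ ⟨hx1, hx2⟩
      exact ⟨fun f => by rw [inv_inv]; exact hx2 f, fun f => by rw [inv_inv]; exact hx1 f⟩
  obtain ⟨f', hf'⟩ := hR.1 (fun _ => v)
  rw [hθ.const] at hf'
  rw [hf', ← hθ.const w]
  exact theta_comm hθ.add _ _

end Pool.Agent.MP_cdb312_al
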