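import Mathlib
import Pool.Agent.Lib.MP_cdb312_al.Layer

/-!
# The finitely presented groups
-/

namespace Pool.Agent.MP_cdb312_al

open Finset
open scoped commutatorElement

/-! ### Commutation of all translates -/

theorem allcomm {Γ : Type*} [Group Γ] {τ : (Fin 5 → ℤ) → Γ}
    (hτ : ∀ w w', τ (w + w') = τ w * τ w') (h4 : τ (Pi.single 4 1) = 1) (Y : Set Γ)
    (hrule : ∀ y ∈ Y, ∀ a0, ∀ A : Finset (Fin 5), A.card = 3 → a0 ∉ A →
      bw τ y (Pi.single a0 1) ∈ Subgroup.closure {z | ∃ a ∈ A, z = bw τ y (Pi.single a 1)})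
    (hbase : ∀ y ∈ Y, ∀ y' ∈ Y, ∀ w, ∑ a, w a = 0 → pos w ≤ 2 → Commute y (bw τ y' w)) :
    ∀ y ∈ Y, ∀ y' ∈ Y, ∀ w, Commute y (bw τ y' w) := by
  have key : ∀ w, ∑ a, w a = 0 → ∀ y ∈ Y, ∀ y' ∈ Y, Commute y (bw τ y' w) := by
    refine red 2 le_rfl _ (fun w hw y hy y' hy' => ?_) (fun w a0 A hA ha0 hr y hy y' hy' => ?_)
      fun w hw hp y hy y' hy' => hbase y hy y' hy' w hw (by exact_mod_cast hp)
    · have h1 := (hw y' hy' y hy).map (MulAut.conj (τ (-w)))
      simp only [MulAut.conj_apply] at h1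
      rw [← bw_add hτ, neg_add_cancel, bw_zero hτ] at h1
      exact h1.symm
    · have e0 : w = (w - Pi.single a0 1) + Pi.single a0 1 := by abel
      rw [e0, bw_add hτ]
      have h1 := hrule y' hy' a0 A hA ha0
      have h2 : τ (w - Pi.single a0 1) * bw τ y' (Pi.single a0 1) * (τ (w - Pi.single a0 1))⁻¹ ∈
          Subgroup.centralizer {y} := by
        refine Subgroup.closure_induction (p := fun z _ =>
          τ (w - Pi.single a0 1) * z * (τ (w - Pi.single a0 1))⁻¹ ∈ Subgroup.centralizer {y})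
          ?_ ?_ ?_ ?_ h1
        · rintro _ ⟨a, ha, rfl⟩
          rw [← bw_add hτ, Subgroup.mem_centralizer_singleton_iff]
          exact (hr a ha y hy y' hy').eq.symm
        · simp
        · intro x z _ _ hx hz
          have := Subgroup.mul_mem _ hx hz
          convert this using 1; group
        · intro x _ hx
          have := Subgroup.inv_mem _ hx
          convert this using 1; group
      rw [Subgroup.mem_centralizer_singleton_iff] at h2
      exact h2.symm
  intro y hy y' hy' w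
  have : bw τ y' w = bw τ y' (w - (∑ a, w a) • Pi.single 4 1) := by
    unfold bw; rw [tau_reduce hτ h4 w]
  rw [this]
  exact key _ (sum_reduce w) y hy y' hy'

/-! ### The functions -/

section defs

variable {T : Type} [CommGroup T] (ℓ : Fin 5 → T) (lam : T → ZMod 5)

/-- the products `∏ ℓ_a ^ w_a`. -/
def P (w : Fin 5 → ℤ) : T := ∏ a, ℓ a ^ w a

lemma P_add (w w' : Fin 5 → ℤ) : P ℓ (w + w') = P ℓ w * P ℓ w' := by
  simp [P, zpow_add, Finset.prod_mul_distrib]

lemma P_zero : P ℓ 0 = 1 := by simp [P]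

lemma P_single (a : Fin 5) : P ℓ (Pi.single a 1) = ℓ a := by
  unfold P
  rw [Finset.prod_eq_single a]
  · simp
  · intro b _ hb; simp [hb]
  · intro h; exact absurd (Finset.mem_univ a) h

/-- the index set of small vectors -/
abbrev Q : Type := Fin 5 → Fin 5

/-- the small vector of an index -/
def vec (r : Q) : Fin 5 → ℤ := fun a => (r a : ℤ) - 2

/-- small vectors -/
def InBox (w : Fin 5 → ℤ) : Prop := ∀ a, -2 ≤ w a ∧ w a ≤ 2

lemma inBox_vec (r : Q) : InBox (vec r) := by
  intro a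
  have := (r a).isLt
  simp only [vec]
  omega

lemma InBox.exists_vec {w : Fin 5 → ℤ} (h : InBox w) : ∃ r, vec r = w := by
  refine ⟨fun a => ⟨(w a + 2).toNat, ?_⟩, ?_⟩
  · have := h a; omega
  · funext a
    have := h a
    simp only [vec]
    omega

/-- The basic functions `lam` and `lam(g) lam(P g)`. -/
def uf : Option Q → T → ZMod 5
  | none, g => lam g
  | some r, g => lam g * lam (P ℓ (vec r) * g)

variable {E : Type} [Group E]

/-- The function `g ↦ c ^ (u_k (P_w g))`. -/
def yf (c : E) (k : Option Q) (w : Fin 5 → ℤ) : T → E :=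
  fun g => c ^ (uf ℓ lam k (P ℓ w * g)).val

lemma yf_shift (c : E) (k : Option Q) (w : Fin 5 → ℤ) (a : Fin 5) (g : T) :
    yf ℓ lam c k w (ℓ a * g) = yf ℓ lam c k (w + Pi.single a 1) g := by
  unfold yf
  rw [P_add, P_single, mul_assoc]

/-- the finite group of functions -/
def S (C : Subgroup E) : Subgroup (T → E) :=
  Subgroup.closure ({f | ∃ e, f = fun _ => e} ∪
    {f | ∃ c ∈ C, ∃ k, ∃ r : Q, f = yf ℓ lam c k (vec r)})

variable {ℓ lam}

lemma const_mem (C : Subgroup E) (e : E) : (fun _ => e) ∈ S ℓ lam C :=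
  Subgroup.subset_closure (Or.inl ⟨e, rfl⟩)

lemma yf_mem {C : Subgroup E} {c : E} (hc : c ∈ C) (k : Option Q) {w : Fin 5 → ℤ}
    (hw : InBox w) : yf ℓ lam c k w ∈ S ℓ lam C := by
  obtain ⟨r, rfl⟩ := hw.exists_vec
  exact Subgroup.subset_closure (Or.inr ⟨c, hc, k, r, rfl⟩)

variable (ℓ lam)

/-- evaluation of finitely many coordinates -/
def ev (g : T) : (Q × Option Q) → ZMod 5
  | (w, none) => lam (P ℓ (vec w) * g)
  | (w, some r) => lam (P ℓ (vec r) * (P ℓ (vec w) * g))

/-- functions of finitely many coordinates -/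
def evHom (E : Type) [Group E] : (((Q × Option Q) → ZMod 5) → E) →* (T → E) where
  toFun F := fun g => F (ev ℓ lam g)
  map_one' := rfl
  map_mul' _ _ := rfl

lemma S_le (C : Subgroup E) : S ℓ lam C ≤ (evHom ℓ lam E).range := by
  unfold S
  rw [Subgroup.closure_le]
  rintro f (⟨e, rfl⟩ | ⟨c, -, k, r, rfl⟩)
  · exact ⟨fun _ => e, rfl⟩
  · cases k with
    | none => exact ⟨fun z => c ^ (z (r, none)).val, rfl⟩
    | some s => exact ⟨fun z => c ^ (z (r, none) * z (r, some s)).val, rfl⟩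

instance finite_S [Finite E] (C : Subgroup E) : Finite (S ℓ lam C) := by
  have : Finite (evHom ℓ lam E).range := by
    have := Set.finite_range (evHom ℓ lam E)
    exact this
  exact Finite.of_injective _ (Subgroup.inclusion_injective (S_le ℓ lam C))

/-- generators -/
abbrev Gen (C : Subgroup E) : Type := S ℓ lam C ⊕ Fin 5

/-- multiplication table relators -/
def relMul (C : Subgroup E) : Set (FreeGroup (Gen ℓ lam C)) :=
  Set.range fun fg : S ℓ lam C × S ℓ lam C =>
    FreeGroup.of (Sum.inl fg.1) * FreeGroup.of (Sum.inl fg.2) *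
      (FreeGroup.of (Sum.inl (fg.1 * fg.2)))⁻¹

/-- commutation of the `t_a` -/
def relT (C : Subgroup E) : Set (FreeGroup (Gen ℓ lam C)) :=
  Set.range fun ab : Fin 5 × Fin 5 =>
    FreeGroup.of (Sum.inr ab.1) * FreeGroup.of (Sum.inr ab.2) *
      (FreeGroup.of (Sum.inr ab.2) * FreeGroup.of (Sum.inr ab.1))⁻¹

/-- conjugation relators -/
def relC (C : Subgroup E) : Set (FreeGroup (Gen ℓ lam C)) :=
  (fun x : Fin 5 × S ℓ lam C × S ℓ lam C =>
    FreeGroup.of (Sum.inr x.1) * FreeGroup.of (Sum.inl x.2.1) * (FreeGroup.of (Sum.inr x.1))⁻¹ *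
      (FreeGroup.of (Sum.inl x.2.2))⁻¹) '' {x | ∀ g, x.2.2.1 g = x.2.1.1 (ℓ x.1 * g)}

/-- all relators -/
def rels (C : Subgroup E) : Set (FreeGroup (Gen ℓ lam C)) :=
  relMul ℓ lam C ∪ relT ℓ lam C ∪ {FreeGroup.of (Sum.inr 4)} ∪ relC ℓ lam C

/-- The group. -/
abbrev Gr (C : Subgroup E) : Type := PresentedGroup (rels ℓ lam C)

instance finite_rels [Finite E] (C : Subgroup E) : Finite (rels ℓ lam C) := by
  have h1 : (relMul ℓ lam C).Finite := Set.finite_range _
  have h2 : (relT ℓ lam C).Finite := Set.finite_range _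
  have h3 : (relC ℓ lam C).Finite := (Set.toFinite _).image _
  exact (((h1.union h2).union (Set.finite_singleton _)).union h3)

instance fp_Gr [Finite E] (C : Subgroup E) : Group.IsFinitelyPresented (Gr ℓ lam C) :=
  inferInstance

variable {ℓ lam} {C : Subgroup E}

/-- the stable letters -/
def tt (C : Subgroup E) (a : Fin 5) : Gr ℓ lam C := PresentedGroup.of (Sum.inr a)

/-- the hom from the finite group -/
def rho (C : Subgroup E) : S ℓ lam C →* Gr ℓ lam C :=
  MonoidHom.mk' (fun f => PresentedGroup.of (Sum.inl f)) (by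
    intro f g
    have : FreeGroup.of (Sum.inl f) * FreeGroup.of (Sum.inl g) *
        (FreeGroup.of (Sum.inl (f * g)))⁻¹ ∈ rels ℓ lam C :=
      Or.inl (Or.inl (Or.inl ⟨(f, g), rfl⟩))
    exact (PresentedGroup.mk_eq_mk_of_mul_inv_mem this).symm)

lemma tt_comm (a b : Fin 5) : Commute (tt (ℓ := ℓ) (lam := lam) C a) (tt C b) := by
  have : FreeGroup.of (Sum.inr a) * FreeGroup.of (Sum.inr b) *
      (FreeGroup.of (Sum.inr b) * FreeGroup.of (Sum.inr a))⁻¹ ∈ rels ℓ lam C :=
    Or.inl (Or.inl (Or.inr ⟨(a, b), rfl⟩))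
  exact PresentedGroup.mk_eq_mk_of_mul_inv_mem this

lemma tt_four : tt (ℓ := ℓ) (lam := lam) C 4 = 1 := by
  have : FreeGroup.of (Sum.inr 4) ∈ rels ℓ lam C := Or.inl (Or.inr rfl)
  exact PresentedGroup.one_of_mem this

lemma tt_conj (a : Fin 5) (f f' : S ℓ lam C) (h : ∀ g, f'.1 g = f.1 (ℓ a * g)) :
    tt C a * rho C f * (tt C a)⁻¹ = rho C f' := by
  have : FreeGroup.of (Sum.inr a) * FreeGroup.of (Sum.inl f) * (FreeGroup.of (Sum.inr a))⁻¹ *
      (FreeGroup.of (Sum.inl f'))⁻¹ ∈ rels ℓ lam C := Or.inr ⟨(a, f, f'), h, rfl⟩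
  exact PresentedGroup.mk_eq_mk_of_mul_inv_mem this

/-- The universal property. -/
def liftGr {H : Type*} [Group H] (r : S ℓ lam C →* H) (s : Fin 5 → H)
    (hs : ∀ a b, Commute (s a) (s b)) (h4 : s 4 = 1)
    (hc : ∀ a, ∀ f f' : S ℓ lam C, (∀ g, f'.1 g = f.1 (ℓ a * g)) → s a * r f * (s a)⁻¹ = r f') :
    Gr ℓ lam C →* H :=
  PresentedGroup.toGroup (f := Sum.elim r s) (by
    rintro x (((⟨⟨f, g⟩, rfl⟩ | ⟨⟨a, b⟩, rfl⟩) | rfl) | ⟨⟨a, f, f'⟩, h, rfl⟩)
    · simp
    · have := (hs a b).eq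
      simp only [map_mul, map_inv, FreeGroup.lift_apply_of, Sum.elim_inr]
      rw [this]; group
    · simp [h4]
    · have := hc a f f' h
      simp only [map_mul, map_inv, FreeGroup.lift_apply_of, Sum.elim_inr, Sum.elim_inl]
      rw [this]; group)

section lift

variable {H : Type*} [Group H] {r : S ℓ lam C →* H} {s : Fin 5 → H}
    {hs : ∀ a b, Commute (s a) (s b)} {h4 : s 4 = 1}
    {hc : ∀ a, ∀ f f' : S ℓ lam C, (∀ g, f'.1 g = f.1 (ℓ a * g)) → s a * r f * (s a)⁻¹ = r f'}

@[simp] lemma liftGr_rho (f : S ℓ lam C) : liftGr r s hs h4 hc (rho C f) = r f :=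
  PresentedGroup.toGroup.of _

@[simp] lemma liftGr_tt (a : Fin 5) : liftGr r s hs h4 hc (tt C a) = s a :=
  PresentedGroup.toGroup.of _

end lift

/-- the translations -/
def tau (C : Subgroup E) (w : Fin 5 → ℤ) : Gr ℓ lam C :=
  MonoidHom.noncommPiCoprod (fun a => zpowersHom (Gr ℓ lam C) (tt C a))
    (fun a b _ x y => by
      simp only [zpowersHom_apply]
      exact ((tt_comm a b).zpow_left _).zpow_right _) (fun a => Multiplicative.ofAdd (w a))

lemma tau_add (w w' : Fin 5 → ℤ) : tau (ℓ := ℓ) (lam := lam) C (w + w') = tau C w * tau C w' := by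
  unfold tau
  rw [← map_mul]; rfl

lemma tau_single (a : Fin 5) : tau (ℓ := ℓ) (lam := lam) C (Pi.single a 1) = tt C a := by
  unfold tau
  have : (fun b => Multiplicative.ofAdd ((Pi.single a 1 : Fin 5 → ℤ) b))
      = Pi.mulSingle a (Multiplicative.ofAdd 1) := by
    funext b
    by_cases h : b = a
    · subst h; simp
    · simp [h]
  rw [this, MonoidHom.noncommPiCoprod_mulSingle]
  simp [zpowersHom_apply]

lemma tau_four : tau (ℓ := ℓ) (lam := lam) C (Pi.single 4 1) = 1 := by
  rw [tau_single, tt_four]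

/-- generation -/
lemma generated {K : Subgroup (Gr ℓ lam C)} (h1 : ∀ a, tt C a ∈ K) (h2 : ∀ e, rho C ⟨_, const_mem C e⟩ ∈ K)
    (h3 : ∀ c, ∀ hc : c ∈ C, ∀ k, ∀ r : Q, rho C ⟨_, yf_mem hc k (inBox_vec r)⟩ ∈ K) : K = ⊤ := by
  rw [eq_top_iff]
  intro x _
  refine PresentedGroup.generated_by _ K (fun j => ?_) x
  rcases j with f | a
  · change rho C f ∈ K
    obtain ⟨f, hf⟩ := f
    have : f ∈ (K.comap (rho C)).map (S ℓ lam C).subtype := by
      refine Subgroup.closure_le (K := (K.comap (rho C)).map (S ℓ lam C).subtype) |>.2 ?_ hf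
      rintro f (⟨e, rfl⟩ | ⟨c, hc, k, r, rfl⟩)
      · exact ⟨⟨_, const_mem C e⟩, h2 e, rfl⟩
      · exact ⟨⟨_, yf_mem hc k (inBox_vec r)⟩, h3 c hc k r, rfl⟩
    obtain ⟨f', hf', hff⟩ := this
    have : f' = ⟨f, hf⟩ := Subtype.ext hff
    rw [← this]; exact hf'
  · exact h1 a

lemma inBox_zero : InBox 0 := fun _ => by simp

/-- constants commute with translations -/
lemma tt_const (a : Fin 5) (e : E) :
    Commute (tt C a) (rho (ℓ := ℓ) (lam := lam) C ⟨_, const_mem C e⟩) := by
  have := tt_conj (ℓ := ℓ) (lam := lam) (C := C) a ⟨_, const_mem C e⟩ ⟨_, const_mem C e⟩ (fun g => rfl)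
  exact (mul_inv_eq_iff_eq_mul.1 this)

lemma tau_mem {K : Subgroup (Gr ℓ lam C)} (h : ∀ a, tt C a ∈ K) (w : Fin 5 → ℤ) : tau C w ∈ K := by
  unfold tau
  have := MonoidHom.noncommPiCoprod_range (G := Gr ℓ lam C) (ϕ := fun a => zpowersHom (Gr ℓ lam C) (tt C a))
    (hcomm := fun a b _ x y => by
      simp only [zpowersHom_apply]
      exact ((tt_comm a b).zpow_left _).zpow_right _)
  have h2 : (MonoidHom.noncommPiCoprod (fun a => zpowersHom (Gr ℓ lam C) (tt C a))
    (fun a b _ x y => by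
      simp only [zpowersHom_apply]
      exact ((tt_comm a b).zpow_left _).zpow_right _)).range ≤ K := by
    rw [this, iSup_le_iff]
    rintro a _ ⟨n, rfl⟩
    simp only [zpowersHom_apply]
    exact K.zpow_mem (h a) _
  exact h2 ⟨_, rfl⟩

lemma tau_const (w : Fin 5 → ℤ) (e : E) :
    Commute (tau C w) (rho (ℓ := ℓ) (lam := lam) C ⟨_, const_mem C e⟩) := by
  have : tau C w ∈ Subgroup.centralizer {rho (ℓ := ℓ) (lam := lam) C ⟨_, const_mem C e⟩} := by
    refine tau_mem (fun a => ?_) w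
    rw [Subgroup.mem_centralizer_singleton_iff]
    exact (tt_const a e).eq
  rw [Subgroup.mem_centralizer_singleton_iff] at this
  exact this

/-- translates of the basic functions -/
lemma tr {c : E} (hc : c ∈ C) (k : Option Q) {w : Fin 5 → ℤ} (hw : InBox w) :
    bw (tau C) (rho (ℓ := ℓ) (lam := lam) C ⟨_, yf_mem hc k inBox_zero⟩) w
      = rho C ⟨_, yf_mem hc k hw⟩ := by
  suffices H : ∀ n : ℕ, ∀ w (hw : InBox w), ∑ a, (w a).natAbs = n →
      bw (tau C) (rho (ℓ := ℓ) (lam := lam) C ⟨_, yf_mem hc k inBox_zero⟩) w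
        = rho C ⟨_, yf_mem hc k hw⟩ from H _ w hw rfl
  intro n
  induction n with
  | zero =>
    intro w hw h
    have : w = 0 := by
      funext a
      have := (Finset.sum_eq_zero_iff.1 h) a (Finset.mem_univ a)
      simpa using this
    subst this
    rw [bw_zero tau_add]
  | succ n ih =>
    intro w hw h
    have : ∃ a, w a ≠ 0 := by
      by_contra hcon
      push Not at hcon
      simp [hcon] at h
    obtain ⟨a, ha⟩ := this
    rcases lt_or_gt_of_ne ha with hneg | hpos
    · have hw' : InBox (w + Pi.single a 1) := by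
        intro b
        by_cases hb : b = a
        · subst hb; have := hw b; simp; omega
        · simpa [hb] using hw b
      have hsum : ∑ b, ((w + Pi.single a 1 : Fin 5 → ℤ) b).natAbs = n := by
        rw [← Finset.add_sum_erase _ _ (Finset.mem_univ a)] at h ⊢
        have : ∑ b ∈ univ.erase a, ((w + Pi.single a 1 : Fin 5 → ℤ) b).natAbs
            = ∑ b ∈ univ.erase a, (w b).natAbs := by
          refine Finset.sum_congr rfl fun b hb => ?_
          simp [Finset.ne_of_mem_erase hb]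
        rw [this]
        simp only [Pi.add_apply, Pi.single_eq_same]
        omega
      have h1 := ih _ hw' hsum
      have h2 := tt_conj (ℓ := ℓ) (lam := lam) (C := C) a ⟨_, yf_mem hc k hw⟩ ⟨_, yf_mem hc k hw'⟩
        (fun g => (yf_shift ℓ lam c k w a g).symm)
      rw [← h2, add_comm w, bw_add tau_add, tau_single] at h1
      exact mul_left_cancel (mul_right_cancel h1)
    · have hw' : InBox (w - Pi.single a 1) := by
        intro b
        by_cases hb : b = a
        · subst hb; have := hw b; simp; omega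
        · simpa [hb] using hw b
      have hsum : ∑ b, ((w - Pi.single a 1 : Fin 5 → ℤ) b).natAbs = n := by
        rw [← Finset.add_sum_erase _ _ (Finset.mem_univ a)] at h ⊢
        have : ∑ b ∈ univ.erase a, ((w - Pi.single a 1 : Fin 5 → ℤ) b).natAbs
            = ∑ b ∈ univ.erase a, (w b).natAbs := by
          refine Finset.sum_congr rfl fun b hb => ?_
          simp [Finset.ne_of_mem_erase hb]
        rw [this]
        simp only [Pi.sub_apply, Pi.single_eq_same]
        omega
      have h1 := ih _ hw' hsum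
      have h2 := tt_conj (ℓ := ℓ) (lam := lam) (C := C) a ⟨_, yf_mem hc k hw'⟩ ⟨_, yf_mem hc k hw⟩
        (fun g => by
          change yf ℓ lam c k w g = yf ℓ lam c k (w - Pi.single a 1) (ℓ a * g)
          rw [yf_shift, sub_add_cancel])
      rw [← h1, ← tau_single, ← bw_add tau_add, add_sub_cancel] at h2
      exact h2

end defs

end Pool.Agent.MP_cdb312_al
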