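import Mathlib
import Pool.Agent.Lib.MP_cdb312_al.Pres

/-!
# Linear relations and commutation in the finitely presented groups
-/

namespace Pool.Agent.MP_cdb312_al

open Finset
open scoped commutatorElement

/-- coefficients of the five forms `x`, `x - 1`, `x - 2`, `x - 3`, `1`. -/
def al : Fin 5 → ZMod 5 := ![1, 1, 1, 1, 0]

/-- constant terms of the five forms -/
def be : Fin 5 → ZMod 5 := ![0, -1, -2, -3, 1]

lemma det_ne : ∀ i j : Fin 5, i ≠ j → al i * be j - al j * be i ≠ 0 := by decide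

section field

variable {F : Type*} [Field F]

lemma lin2 (x0 y0 x1 y1 x2 y2 : F) (h : x1 * y2 - x2 * y1 ≠ 0) (a b : F) :
    x0 * a + y0 * b = ((x0 * y2 - x2 * y0) / (x1 * y2 - x2 * y1)) * (x1 * a + y1 * b) +
      ((x1 * y0 - x0 * y1) / (x1 * y2 - x2 * y1)) * (x2 * a + y2 * b) := by
  rw [div_mul_eq_mul_div, div_mul_eq_mul_div, ← add_div, eq_div_iff h]
  ring

lemma quad3 (x0 y0 x1 y1 x2 y2 x3 y3 : F) (h12 : x1 * y2 - x2 * y1 ≠ 0)
    (h13 : x1 * y3 - x3 * y1 ≠ 0) (h23 : x2 * y3 - x3 * y2 ≠ 0) (a b a' b' : F) :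
    (x0 * a + y0 * b) * (x0 * a' + y0 * b') =
      ((x0 * y2 - x2 * y0) * (x0 * y3 - x3 * y0) * (x2 * y3 - x3 * y2) /
        ((x1 * y2 - x2 * y1) * (x1 * y3 - x3 * y1) * (x2 * y3 - x3 * y2))) *
        ((x1 * a + y1 * b) * (x1 * a' + y1 * b')) +
      (- (x0 * y1 - x1 * y0) * (x0 * y3 - x3 * y0) * (x1 * y3 - x3 * y1) /
        ((x1 * y2 - x2 * y1) * (x1 * y3 - x3 * y1) * (x2 * y3 - x3 * y2))) *
        ((x2 * a + y2 * b) * (x2 * a' + y2 * b')) +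
      ((x0 * y1 - x1 * y0) * (x0 * y2 - x2 * y0) * (x1 * y2 - x2 * y1) /
        ((x1 * y2 - x2 * y1) * (x1 * y3 - x3 * y1) * (x2 * y3 - x3 * y2))) *
        ((x3 * a + y3 * b) * (x3 * a' + y3 * b')) := by
  have h := mul_ne_zero (mul_ne_zero h12 h13) h23
  rw [div_mul_eq_mul_div, div_mul_eq_mul_div, div_mul_eq_mul_div, ← add_div, ← add_div,
    eq_div_iff h]
  ring

end field

section dat

variable {T : Type} [CommGroup T] {ℓ : Fin 5 → T} {lam : T → ZMod 5}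

/-- The requirements on the data. -/
structure GoodDat (ℓ : Fin 5 → T) (lam : T → ZMod 5) : Prop where
  l4 : ℓ 4 = 1
  lin : ∃ A B : T → ZMod 5, ∀ a g, lam (ℓ a * g) = al a * A g + be a * B g
  nonper : ∀ N : ℕ, 0 < N → lam (ℓ 0 ^ N) ≠ lam 1

lemma GoodDat.rel2 (hD : GoodDat ℓ lam) {a0 a1 a2 : Fin 5} (h12 : a1 ≠ a2) :
    ∃ μ ν : ZMod 5, ∀ g, lam (ℓ a0 * g) = μ * lam (ℓ a1 * g) + ν * lam (ℓ a2 * g) := by
  obtain ⟨A, B, h⟩ := hD.lin
  exact ⟨_, _, fun g => by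
    rw [h, h, h]
    exact lin2 _ _ _ _ _ _ (det_ne a1 a2 h12) _ _⟩

lemma GoodDat.rel3 (hD : GoodDat ℓ lam) (k : Option Q) {a0 a1 a2 a3 : Fin 5} (h12 : a1 ≠ a2)
    (h13 : a1 ≠ a3) (h23 : a2 ≠ a3) :
    ∃ μ ν κ : ZMod 5, ∀ g, uf ℓ lam k (ℓ a0 * g) =
      μ * uf ℓ lam k (ℓ a1 * g) + ν * uf ℓ lam k (ℓ a2 * g) + κ * uf ℓ lam k (ℓ a3 * g) := by
  cases k with
  | none =>
    obtain ⟨μ, ν, h⟩ := hD.rel2 (a0 := a0) h12
    exact ⟨μ, ν, 0, fun g => by simp only [uf]; rw [h]; ring⟩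
  | some r =>
    obtain ⟨A, B, h⟩ := hD.lin
    have e : ∀ g a, lam (P ℓ (vec r) * (ℓ a * g)) = al a * A (P ℓ (vec r) * g) + be a * B (P ℓ (vec r) * g) := by
      intro g a
      rw [← h, mul_left_comm]
    simp only [uf, e, h]
    exact ⟨_, _, _, fun g => quad3 _ _ _ _ _ _ _ _ (det_ne a1 a2 h12) (det_ne a1 a3 h13)
      (det_ne a2 a3 h23) _ _ _ _⟩

variable {E : Type} [Group E]

/-- `c ^ a` for `a` modulo 5 -/
def cp (c : E) (a : ZMod 5) : E := c ^ a.val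

lemma cp_add {c : E} (hc : c ^ 5 = 1) (a b : ZMod 5) : cp c (a + b) = cp c a * cp c b := by
  unfold cp
  rw [← pow_add, ZMod.val_add, ← pow_eq_pow_mod _ hc]

lemma cp_mul {c : E} (hc : c ^ 5 = 1) (a b : ZMod 5) : cp c (a * b) = cp c b ^ a.val := by
  unfold cp
  rw [← pow_mul, ZMod.val_mul, ← pow_eq_pow_mod _ hc, mul_comm]

lemma yf_eq (c : E) (k : Option Q) (w : Fin 5 → ℤ) (g : T) :
    yf ℓ lam c k w g = cp c (uf ℓ lam k (P ℓ w * g)) := rfl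

variable {C : Subgroup E}

/-- the element of the presented group -/
def Y (ℓ : Fin 5 → T) (lam : T → ZMod 5) {c : E} (hc : c ∈ C) (k : Option Q) : Gr ℓ lam C :=
  rho C ⟨_, yf_mem hc k inBox_zero⟩

lemma inBox_single (a : Fin 5) : InBox (Pi.single a 1) := by
  intro b
  by_cases h : b = a
  · subst h; simp
  · simp [h]

lemma bw_Y {c : E} (hc : c ∈ C) (k : Option Q) {w : Fin 5 → ℤ} (hw : InBox w) :
    bw (tau C) (Y ℓ lam hc k) w = rho C ⟨_, yf_mem hc k hw⟩ := tr hc k hw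

lemma Y_rel2 (hD : GoodDat ℓ lam) {c : E} (hc : c ∈ C) (h5 : c ^ 5 = 1) (a0 a1 a2 : Fin 5)
    (h12 : a1 ≠ a2) : ∃ i j : ℕ,
      bw (tau C) (Y ℓ lam hc none) (Pi.single a0 1) =
        bw (tau C) (Y ℓ lam hc none) (Pi.single a1 1) ^ i *
        bw (tau C) (Y ℓ lam hc none) (Pi.single a2 1) ^ j := by
  obtain ⟨μ, ν, h⟩ := hD.rel2 (a0 := a0) h12
  refine ⟨μ.val, ν.val, ?_⟩
  rw [bw_Y hc none (inBox_single a0), bw_Y hc none (inBox_single a1),
    bw_Y hc none (inBox_single a2), ← map_pow, ← map_pow, ← map_mul]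
  congr 1
  apply Subtype.ext
  funext g
  change yf ℓ lam c none _ g = yf ℓ lam c none _ g ^ _ * yf ℓ lam c none _ g ^ _
  rw [yf_eq, yf_eq, yf_eq, P_single, P_single, P_single, ← cp_mul h5, ← cp_mul h5, ← cp_add h5]
  exact congrArg _ (h g)

lemma Y_rel3 (hD : GoodDat ℓ lam) {c : E} (hc : c ∈ C) (h5 : c ^ 5 = 1) (k : Option Q)
    (a0 a1 a2 a3 : Fin 5)
    (h12 : a1 ≠ a2) (h13 : a1 ≠ a3) (h23 : a2 ≠ a3) : ∃ i j l : ℕ,
      bw (tau C) (Y ℓ lam hc k) (Pi.single a0 1) =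
        bw (tau C) (Y ℓ lam hc k) (Pi.single a1 1) ^ i *
        bw (tau C) (Y ℓ lam hc k) (Pi.single a2 1) ^ j *
        bw (tau C) (Y ℓ lam hc k) (Pi.single a3 1) ^ l := by
  obtain ⟨μ, ν, κ, h⟩ := hD.rel3 k (a0 := a0) h12 h13 h23
  refine ⟨μ.val, ν.val, κ.val, ?_⟩
  rw [bw_Y hc k (inBox_single a0), bw_Y hc k (inBox_single a1),
    bw_Y hc k (inBox_single a2), bw_Y hc k (inBox_single a3), ← map_pow, ← map_pow, ← map_pow,
    ← map_mul, ← map_mul]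
  congr 1
  apply Subtype.ext
  funext g
  change yf ℓ lam c k _ g = yf ℓ lam c k _ g ^ _ * yf ℓ lam c k _ g ^ _ * yf ℓ lam c k _ g ^ _
  rw [yf_eq, yf_eq, yf_eq, yf_eq, P_single, P_single, P_single, P_single, ← cp_mul h5,
    ← cp_mul h5, ← cp_mul h5, ← cp_add h5, ← cp_add h5]
  exact congrArg _ (h g)

/-- Requirements on the subgroup `C`. -/
structure GoodC (C : Subgroup E) : Prop where
  pow5 : ∀ c ∈ C, c ^ 5 = 1
  comm : ∀ c ∈ C, ∀ c' ∈ C, c * c' = c' * c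

lemma inBox_of_pos {w : Fin 5 → ℤ} (h : ∑ a, w a = 0) (hp : pos w ≤ 2) : InBox w := by
  have h1 : ∀ v : Fin 5 → ℤ, pos v ≤ 2 → ∀ a, v a ≤ 2 := by
    intro v hv a
    have : max (v a) 0 ≤ pos v :=
      Finset.single_le_sum (f := fun a => max (v a) 0) (fun b _ => le_max_right _ _)
        (Finset.mem_univ a)
    exact (le_max_left _ _).trans (this.trans hv)
  intro a
  refine ⟨?_, h1 w hp a⟩
  have := h1 (-w) (by rw [pos_neg h]; exact hp) a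
  simp only [Pi.neg_apply] at this
  omega

theorem Y_comm (hD : GoodDat ℓ lam) (hC : GoodC C) {c c' : E} (hc : c ∈ C) (hc' : c' ∈ C)
    (k k' : Option Q) (w : Fin 5 → ℤ) :
    Commute (Y ℓ lam hc k) (bw (tau C) (Y ℓ lam hc' k') w) := by
  refine allcomm (Γ := Gr ℓ lam C) (τ := tau C) tau_add tau_four
    {y | ∃ c, ∃ hc : c ∈ C, ∃ k, y = Y ℓ lam hc k} ?_ ?_ _ ⟨c, hc, k, rfl⟩ _ ⟨c', hc', k', rfl⟩ w
  · rintro _ ⟨c, hc, k, rfl⟩ a0 A hA _
    have hmem : ∀ a ∈ A, bw (tau C) (Y ℓ lam hc k) (Pi.single a 1) ∈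
        Subgroup.closure {z | ∃ a ∈ A, z = bw (tau C) (Y ℓ lam hc k) (Pi.single a 1)} :=
      fun a ha => Subgroup.subset_closure ⟨a, ha, rfl⟩
    obtain ⟨a1, a2, a3, h12, h13, h23, rfl⟩ := Finset.card_eq_three.1 hA
    obtain ⟨i, j, l, h⟩ := Y_rel3 hD hc (hC.pow5 c hc) k a0 a1 a2 a3 h12 h13 h23
    rw [h]
    refine Subgroup.mul_mem _ (Subgroup.mul_mem _ ?_ ?_) ?_
    · exact Subgroup.pow_mem _ (hmem a1 (by simp)) _
    · exact Subgroup.pow_mem _ (hmem a2 (by simp)) _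
    · exact Subgroup.pow_mem _ (hmem a3 (by simp)) _
  · rintro _ ⟨c, hc, k, rfl⟩ _ ⟨c', hc', k', rfl⟩ w hw hp
    rw [bw_Y hc' k' (inBox_of_pos hw hp)]
    have h0 : Commute (⟨_, yf_mem hc k inBox_zero⟩ : S ℓ lam C)
        ⟨_, yf_mem hc' k' (inBox_of_pos hw hp)⟩ := by
      apply Subtype.ext
      funext g
      have : Commute c c' := hC.comm c hc c' hc'
      exact this.pow_pow _ _
    exact h0.map (rho C)

/-- the abelian subgroup -/
def Nab (ℓ : Fin 5 → T) (lam : T → ZMod 5) (C : Subgroup E) : Subgroup (Gr ℓ lam C) :=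
  Subgroup.closure {z | ∃ c, ∃ hc : c ∈ C, ∃ k w, z = bw (tau C) (Y ℓ lam hc k) w}

lemma comm_of_closure {G : Type*} [Group G] {s : Set G} (h : ∀ x ∈ s, ∀ y ∈ s, x * y = y * x) :
    ∀ x ∈ Subgroup.closure s, ∀ y ∈ Subgroup.closure s, x * y = y * x := by
  have h1 : ∀ x ∈ s, ∀ y ∈ Subgroup.closure s, x * y = y * x := by
    intro x hx y hy
    have : y ∈ Subgroup.centralizer {x} := by
      refine (Subgroup.closure_le _).2 ?_ hy
      intro z hz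
      rw [SetLike.mem_coe, Subgroup.mem_centralizer_singleton_iff]
      exact (h x hx z hz).symm
    rw [Subgroup.mem_centralizer_singleton_iff] at this
    exact this.symm
  intro x hx y hy
  have : x ∈ Subgroup.centralizer {y} := by
    refine (Subgroup.closure_le _).2 ?_ hx
    intro z hz
    rw [SetLike.mem_coe, Subgroup.mem_centralizer_singleton_iff]
    exact h1 z hz y hy
  rw [Subgroup.mem_centralizer_singleton_iff] at this
  exact this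

theorem Nab_comm (hD : GoodDat ℓ lam) (hC : GoodC C) :
    ∀ x ∈ Nab ℓ lam C, ∀ y ∈ Nab ℓ lam C, x * y = y * x := by
  refine comm_of_closure ?_
  rintro _ ⟨c, hc, k, w, rfl⟩ _ ⟨c', hc', k', w', rfl⟩
  have h := (Y_comm hD hC hc hc' k k' (w' - w)).map (MulAut.conj (tau C w))
  simp only [MulAut.conj_apply] at h
  rw [← bw_add tau_add, add_sub_cancel] at h
  exact h.eq

lemma Nab_conj (w : Fin 5 → ℤ) {x : Gr ℓ lam C} (hx : x ∈ Nab ℓ lam C) :
    tau C w * x * (tau C w)⁻¹ ∈ Nab ℓ lam C := by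
  have : Nab ℓ lam C ≤ (Nab ℓ lam C).comap (MulAut.conj (tau C w)).toMonoidHom := by
    conv_lhs => unfold Nab
    rw [Subgroup.closure_le]
    rintro _ ⟨c, hc, k, w', rfl⟩
    change tau C w * bw (tau C) (Y ℓ lam hc k) w' * (tau C w)⁻¹ ∈ Nab ℓ lam C
    rw [← bw_add tau_add]
    exact Subgroup.subset_closure ⟨c, hc, k, _, rfl⟩
  exact this hx

lemma bw_mem_Nab {c : E} (hc : c ∈ C) (k : Option Q) (w : Fin 5 → ℤ) :
    bw (tau C) (Y ℓ lam hc k) w ∈ Nab ℓ lam C :=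
  Subgroup.subset_closure ⟨c, hc, k, w, rfl⟩

lemma Y_mem_Nab {c : E} (hc : c ∈ C) (k : Option Q) : Y ℓ lam hc k ∈ Nab ℓ lam C := by
  have := bw_mem_Nab (ℓ := ℓ) (lam := lam) hc k 0
  rwa [bw_zero (tau_add (ℓ := ℓ) (lam := lam) (C := C))] at this

end dat

end Pool.Agent.MP_cdb312_al
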