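import Mathlib
import Pool.Agent.Lib.MP_cdb312_al.Alg

/-!
# One more layer
-/

namespace Pool.Agent.MP_cdb312_al

open Finset
open scoped commutatorElement

section EP

variable {E : Type} [Group E] {p : ℕ} [Fact p.Prime] {ζ : ZMod p}

/-- the linear action of `(s, e)` on functions on `E` -/
def actV (ζ : ZMod p) (s : ZMod 5) (e : E) (v : E → ZMod p) : E → ZMod p :=
  fun x => zp ζ s * v (e⁻¹ * x)

lemma actV_add (ζ : ZMod p) (s : ZMod 5) (e : E) (v w : E → ZMod p) :
    actV ζ s e (v + w) = actV ζ s e v + actV ζ s e w := by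
  funext x; simp [actV, mul_add]

lemma actV_actV (hζ : IsRt ζ) (s s' : ZMod 5) (e e' : E) (v : E → ZMod p) :
    actV ζ s e (actV ζ s' e' v) = actV ζ (s + s') (e * e') v := by
  funext x; simp [actV, hζ.zp_add, mul_assoc]

lemma actV_zero_one (ζ : ZMod p) (v : E → ZMod p) : actV ζ 0 (1 : E) v = v := by
  funext x; simp [actV]

/-- the action as automorphisms -/
def phiAux (hζ : IsRt ζ) (se : Multiplicative (ZMod 5) × E) :
    MulAut (Multiplicative (E → ZMod p)) where
  toFun v := Multiplicative.ofAdd (actV ζ se.1.toAdd se.2 v.toAdd)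
  invFun v := Multiplicative.ofAdd (actV ζ (-se.1.toAdd) se.2⁻¹ v.toAdd)
  left_inv v := by
    simp only [toAdd_ofAdd]
    rw [actV_actV hζ, neg_add_cancel, inv_mul_cancel, actV_zero_one]; rfl
  right_inv v := by
    simp only [toAdd_ofAdd]
    rw [actV_actV hζ, add_neg_cancel, mul_inv_cancel, actV_zero_one]; rfl
  map_mul' v w := by
    rw [toAdd_mul, actV_add]; rfl

/-- the action as a homomorphism -/
def phi (hζ : IsRt ζ) : (Multiplicative (ZMod 5) × E) →* MulAut (Multiplicative (E → ZMod p)) :=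
  MonoidHom.mk' (phiAux hζ) (by
    intro a b
    ext v
    change actV ζ (a.1.toAdd + b.1.toAdd) (a.2 * b.2) v.toAdd _ =
      actV ζ a.1.toAdd a.2 (actV ζ b.1.toAdd b.2 v.toAdd) _
    rw [actV_actV hζ])

variable (E) in
/-- `(E → F_p) ⋊ (C_5 × E)` -/
abbrev EP (hζ : IsRt ζ) : Type :=
  Multiplicative (E → ZMod p) ⋊[phi (E := E) hζ] (Multiplicative (ZMod 5) × E)

instance finite_EP [Finite E] (hζ : IsRt ζ) : Finite (EP E hζ) :=
  Finite.of_equiv _ (SemidirectProduct.equivProd (φ := phi (E := E) hζ)).symm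

variable (hζ : IsRt ζ)

/-- the vectors -/
def inV (v : E → ZMod p) : EP E hζ := SemidirectProduct.inl (Multiplicative.ofAdd v)

/-- the complement -/
def inR (s : ZMod 5) (e : E) : EP E hζ := SemidirectProduct.inr (Multiplicative.ofAdd s, e)

lemma inV_add (v w : E → ZMod p) : inV hζ (v + w) = inV hζ v * inV hζ w := by
  unfold inV; rw [ofAdd_add, map_mul]

lemma inV_zero : inV hζ (0 : E → ZMod p) = 1 := by
  unfold inV; rw [ofAdd_zero, map_one]

lemma inV_neg (v : E → ZMod p) : inV hζ (-v) = (inV hζ v)⁻¹ := by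
  unfold inV; rw [ofAdd_neg, map_inv]

lemma inV_injective : Function.Injective (inV (E := E) hζ) := by
  intro v w h
  unfold inV at h
  have := SemidirectProduct.inl_injective h
  exact Multiplicative.ofAdd.injective this

lemma inR_mul (s s' : ZMod 5) (e e' : E) :
    inR hζ s e * inR hζ s' e' = inR hζ (s + s') (e * e') := by
  unfold inR; rw [← map_mul]; rfl

lemma inR_zero_one : inR hζ 0 (1 : E) = 1 := by
  unfold inR; rw [ofAdd_zero]; exact map_one _

lemma inR_inv (s : ZMod 5) (e : E) : (inR hζ s e)⁻¹ = inR hζ (-s) e⁻¹ := by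
  rw [inv_eq_iff_mul_eq_one, inR_mul, add_neg_cancel, mul_inv_cancel, inR_zero_one]

lemma inR_pow (s : ZMod 5) (e : E) (n : ℕ) : inR hζ s e ^ n = inR hζ (n • s) (e ^ n) := by
  unfold inR; rw [← map_pow]; rfl

lemma conj_inV (s : ZMod 5) (e : E) (v : E → ZMod p) :
    inR hζ s e * inV hζ v * (inR hζ s e)⁻¹ = inV hζ (actV ζ s e v) := by
  unfold inR inV
  rw [← map_inv, ← SemidirectProduct.inl_aut]; rfl

lemma decomp (x : EP E hζ) : ∃ v s e, x = inV hζ v * inR hζ s e :=
  ⟨x.left.toAdd, x.right.1.toAdd, x.right.2, (SemidirectProduct.inl_left_mul_inr_right x).symm⟩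

/-- the new `C` -/
def CP (C : Subgroup E) : Subgroup (EP E hζ) :=
  ((⊤ : Subgroup (Multiplicative (ZMod 5))).prod C).map SemidirectProduct.inr

variable {hζ} {C : Subgroup E}

lemma inR_mem (s : ZMod 5) {c : E} (hc : c ∈ C) : inR hζ s c ∈ CP hζ C :=
  ⟨(Multiplicative.ofAdd s, c), ⟨Subgroup.mem_top _, hc⟩, rfl⟩

lemma mem_CP {x : EP E hζ} (hx : x ∈ CP hζ C) : ∃ s, ∃ c ∈ C, x = inR hζ s c := by
  obtain ⟨⟨s, c⟩, ⟨-, hc⟩, rfl⟩ := hx
  exact ⟨s.toAdd, c, hc, rfl⟩

lemma goodC_CP (hC : GoodC C) : GoodC (CP hζ C) where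
  pow5 x hx := by
    obtain ⟨s, c, hc, rfl⟩ := mem_CP hx
    rw [inR_pow, hC.pow5 c hc]
    have : (5 : ℕ) • s = 0 := by
      rw [nsmul_eq_mul]; 
      have : ((5 : ℕ) : ZMod 5) = 0 := by decide
      rw [this, zero_mul]
    rw [this, inR_zero_one]
  comm x hx y hy := by
    obtain ⟨s, c, hc, rfl⟩ := mem_CP hx
    obtain ⟨s', c', hc', rfl⟩ := mem_CP hy
    rw [inR_mul, inR_mul, hC.comm c hc c' hc', add_comm]

lemma cp_inR (s : ZMod 5) {c : E} (a : ZMod 5) :
    cp (inR hζ s c) a = inR hζ (a * s) (cp c a) := by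
  unfold cp
  rw [inR_pow, nsmul_eq_mul, ZMod.natCast_zmod_val]

end EP

lemma solv_of_normal {G : Type*} [Group G] (N : Subgroup G) [N.Normal]
    (h1 : ∀ x ∈ N, ∀ y ∈ N, x * y = y * x) (h2 : Group.IsSolvable (G ⧸ N)) :
    Group.IsSolvable G := by
  have : Group.IsSolvable N := by
    have hc : ∀ x y : N, x * y = y * x := fun x y => Subtype.ext (h1 x x.2 y y.2)
    exact Group.isSolvable_of_comm hc
  refine Group.isSolvable_of_ker_le_range N.subtype (QuotientGroup.mk' N) ?_
  rw [QuotientGroup.ker_mk', Subgroup.range_subtype]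

lemma mem_normalizer_closure {G : Type*} [Group G] {s : Set G} {x : G}
    (h1 : ∀ z ∈ s, x * z * x⁻¹ ∈ Subgroup.closure s) (h2 : ∀ z ∈ s, x⁻¹ * z * x ∈ Subgroup.closure s) :
    x ∈ Subgroup.normalizer (Subgroup.closure s : Set G) := by
  have e1 : ∀ z ∈ Subgroup.closure s, x * z * x⁻¹ ∈ Subgroup.closure s := by
    have : Subgroup.closure s ≤ (Subgroup.closure s).comap (MulAut.conj x).toMonoidHom :=
      (Subgroup.closure_le _).2 h1
    exact fun z hz => this hz
  have e2 : ∀ z ∈ Subgroup.closure s, x⁻¹ * z * x ∈ Subgroup.closure s := by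
    have : Subgroup.closure s ≤ (Subgroup.closure s).comap (MulAut.conj x⁻¹).toMonoidHom := by
      refine (Subgroup.closure_le _).2 ?_
      intro z hz
      have := h2 z hz
      rwa [SetLike.mem_coe, Subgroup.mem_comap, MulEquiv.coe_toMonoidHom, MulAut.conj_apply, inv_inv]
    intro z hz
    have := this hz
    rwa [Subgroup.mem_comap, MulEquiv.coe_toMonoidHom, MulAut.conj_apply, inv_inv] at this
  rw [Subgroup.mem_normalizer_iff]
  intro z
  refine ⟨e1 z, fun h => ?_⟩
  have := e2 _ h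
  convert this using 1; group

end Pool.Agent.MP_cdb312_al
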