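import Mathlib
import Pool.Agent.Lib.MP_cdb312_al.Ext

/-!
# Solvability of the next group
-/

namespace Pool.Agent.MP_cdb312_al

open Finset
open scoped commutatorElement

section solv

variable {T : Type} [CommGroup T] {ℓ : Fin 5 → T} {lam : T → ZMod 5}
variable {E : Type} [Group E] {p : ℕ} [Fact p.Prime] {ζ : ZMod p} {hζ : IsRt ζ} {C : Subgroup E}

lemma span_ind {V : Type*} [AddCommGroup V] [Module (ZMod p) V] {I : Type*} [Finite I]
    (hζ : IsRt ζ) {Pr : ((I → ZMod 5) → V) → Prop} (h0 : Pr 0)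
    (ha : ∀ f f', Pr f → Pr f' → Pr (f + f')) (hn : ∀ f, Pr f → Pr (-f))
    (hm : ∀ i f, Pr f → Pr (mulc ζ i f)) (hc : ∀ v, Pr (fun _ => v)) : ∀ f, Pr f := by
  let S0 : AddSubgroup ((I → ZMod 5) → V) :=
    { carrier := {f | Pr f}
      add_mem' := fun {f f'} hf hf' => ha f f' hf hf'
      zero_mem' := h0
      neg_mem' := fun {f} hf => hn f hf }
  have : S0 = ⊤ := span_top hζ S0 (fun i f hf => hm i f hf) fun v => hc v
  intro f
  have hf : f ∈ S0 := this ▸ AddSubgroup.mem_top f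
  exact hf

lemma actV_one (s : ZMod 5) (v : E → ZMod p) : actV ζ s 1 v = zp ζ s • v := by
  funext x; simp [actV]

/-- the scalar element -/
def c0 (hζ : IsRt ζ) : EP E hζ := inR hζ 1 1

lemma c0_mem : c0 hζ ∈ CP hζ C := inR_mem 1 C.one_mem

lemma cp_c0 (a : ZMod 5) : cp (c0 (E := E) hζ) a = inR hζ a 1 := by
  unfold c0
  rw [cp_inR, mul_one]
  congr 1
  simp [cp]

/-- constants -/
def io (ℓ : Fin 5 → T) (lam : T → ZMod 5) (hζ : IsRt ζ) (C : Subgroup E) (v : E → ZMod p) :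
    Gr ℓ lam (CP hζ C) := rho _ ⟨_, const_mem (CP hζ C) (inV hζ v)⟩

/-- the two coordinates -/
def zz (ℓ : Fin 5 → T) (lam : T → ZMod 5) (w : Fin 5 → ℤ) (g : T) : Fin 2 → ZMod 5 :=
  ![lam g, lam (P ℓ w * g)]

lemma f2_mem (f : (Fin 2 → ZMod 5) → (E → ZMod p)) {w : Fin 5 → ℤ} (hw : InBox w) :
    (fun g => inV hζ (f (zz ℓ lam w g))) ∈ S ℓ lam (CP hζ C) := by
  revert f
  refine span_ind hζ ?_ (fun f f' hf hf' => ?_) (fun f hf => ?_) (fun i f hf => ?_) fun v => ?_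
  · have := Subgroup.one_mem (S ℓ lam (CP hζ C))
    convert this using 1
    funext g
    exact inV_zero hζ
  · have := Subgroup.mul_mem _ hf hf'
    convert this using 1
    funext g
    exact inV_add hζ _ _
  · have := Subgroup.inv_mem _ hf
    convert this using 1
    funext g
    exact inV_neg hζ _
  · have key : ∀ w' : Fin 5 → ℤ, InBox w' → (∀ g, lam (P ℓ w' * g) = zz ℓ lam w g i) →
        (fun g => inV hζ (mulc ζ i f (zz ℓ lam w g))) ∈ S ℓ lam (CP hζ C) := by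
      intro w' hw' h
      have h1 := yf_mem (ℓ := ℓ) (lam := lam) (c0_mem (hζ := hζ) (C := C)) none hw'
      have := Subgroup.mul_mem _ (Subgroup.mul_mem _ h1 hf) (Subgroup.inv_mem _ h1)
      convert this using 1
      funext g
      simp only [Pi.mul_apply, Pi.inv_apply]
      rw [yf_eq, cp_c0, conj_inV, actV_one]
      simp only [uf, h]
      rfl
    fin_cases i
    · refine key 0 inBox_zero fun g => ?_
      rw [P_zero, one_mul]; rfl
    · exact key w hw fun g => rfl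
  · exact const_mem _ _

/-- vector valued functions of two coordinates -/
def F2 (ℓ : Fin 5 → T) (lam : T → ZMod 5) (hζ : IsRt ζ) (C : Subgroup E) {w : Fin 5 → ℤ}
    (hw : InBox w) (f : (Fin 2 → ZMod 5) → (E → ZMod p)) :
    Gr ℓ lam (CP hζ C) := rho _ ⟨_, f2_mem f hw⟩

lemma F2_add {w : Fin 5 → ℤ} (hw : InBox w) (f f' : (Fin 2 → ZMod 5) → (E → ZMod p)) :
    F2 ℓ lam hζ C hw (f + f') = F2 ℓ lam hζ C hw f * F2 ℓ lam hζ C hw f' := by
  unfold F2
  rw [← map_mul]
  congr 1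
  apply Subtype.ext
  funext g
  exact inV_add hζ _ _

lemma F2_const {w : Fin 5 → ℤ} (hw : InBox w) (v : E → ZMod p) :
    F2 ℓ lam hζ C hw (fun _ => v) = io ℓ lam hζ C v := rfl

/-- conjugation formula -/
lemma F2_conj {w : Fin 5 → ℤ} (hw : InBox w) (f : (Fin 2 → ZMod 5) → (E → ZMod p))
    (s : S ℓ lam (CP hζ C)) (a : (Fin 2 → ZMod 5) → ZMod 5) (e : (Fin 2 → ZMod 5) → E)
    (hs : ∀ g, s.1 g = inR hζ (a (zz ℓ lam w g)) (e (zz ℓ lam w g))) :
    rho _ s * F2 ℓ lam hζ C hw f * (rho _ s)⁻¹ =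
      F2 ℓ lam hζ C hw (fun z => actV ζ (a z) (e z) (f z)) := by
  unfold F2
  rw [← map_inv, ← map_mul, ← map_mul]
  congr 1
  apply Subtype.ext
  funext g
  change s.1 g * inV hζ (f (zz ℓ lam w g)) * (s.1 g)⁻¹ = _
  rw [hs, conj_inV]

lemma F2_conj_mulf {w : Fin 5 → ℤ} (hw : InBox w) (f : (Fin 2 → ZMod 5) → (E → ZMod p))
    (s : S ℓ lam (CP hζ C)) (h : (Fin 2 → ZMod 5) → ZMod 5)
    (hs : ∀ g, s.1 g = cp (c0 hζ) (h (zz ℓ lam w g))) :
    rho _ s * F2 ℓ lam hζ C hw f * (rho _ s)⁻¹ = F2 ℓ lam hζ C hw (mulf ζ h f) := by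
  rw [F2_conj hw f s h (fun _ => 1) (fun g => by rw [hs, cp_c0])]
  congr 1
  funext z
  rw [actV_one]; rfl

variable (hD : GoodDat ℓ lam) (hC : GoodC C)

/-- the element `b`. -/
def bb (ℓ : Fin 5 → T) (lam : T → ZMod 5) (hζ : IsRt ζ) (C : Subgroup E) :
    Gr ℓ lam (CP hζ C) := Y ℓ lam (c0_mem (hζ := hζ) (C := C)) none

lemma io_add (v w : E → ZMod p) :
    io ℓ lam hζ C (v + w) = io ℓ lam hζ C v * io ℓ lam hζ C w := by
  rw [← F2_const inBox_zero, ← F2_const inBox_zero, ← F2_const inBox_zero, ← F2_add]; rfl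

lemma tau_io (w : Fin 5 → ℤ) (v : E → ZMod p) :
    Commute (tau (CP hζ C) w) (io ℓ lam hζ C v) := tau_const w _

include hD hC in
theorem layer_apply [Finite E] :
    ∀ x ∈ Subgroup.closure (Set.range (bw (tau (CP hζ C)) (bb ℓ lam hζ C))), ∀ v w,
      Commute (x * io ℓ lam hζ C v * x⁻¹) (io ℓ lam hζ C w) := by
  have hCP := goodC_CP (hζ := hζ) hC
  have hc0 := c0_mem (hζ := hζ) (C := C)
  refine layer hζ (Nab ℓ lam (CP hζ C)) (Nab_comm hD hCP) tau_add tau_four
    (fun w x hx => Nab_conj w hx) (Y_mem_Nab _ _) ?_ io_add tau_io ?_ ?_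
  · unfold Y
    rw [← map_pow]
    have : (⟨_, yf_mem hc0 none inBox_zero⟩ : S ℓ lam (CP hζ C)) ^ 5 = 1 := by
      apply Subtype.ext
      funext g
      change (c0 hζ ^ _) ^ 5 = 1
      rw [← pow_mul, mul_comm, pow_mul, hCP.pow5 _ hc0, one_pow]
    rw [this, map_one]
  · intro a0 a1 a2 _ _ h12
    exact Y_rel2 hD hc0 (hCP.pow5 _ hc0) a0 a1 a2 h12
  · intro w hw hp
    have hb := inBox_of_pos hw (by omega : pos w ≤ 2)
    obtain ⟨r, hr⟩ := hb.exists_vec
    refine ⟨F2 ℓ lam hζ C hb, F2_add hb, F2_const hb, fun f => ?_, fun f => ?_,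
      Y ℓ lam hc0 (some r), Y_mem_Nab _ _, fun f => ?_⟩
    · refine F2_conj_mulf hb f _ (fun x => x 0) fun g => ?_
      change yf ℓ lam _ _ _ g = _
      rw [yf_eq, P_zero, one_mul]; rfl
    · rw [bw_Y hc0 none hb]
      exact F2_conj_mulf hb f _ (fun x => x 1) fun g => rfl
    · refine F2_conj_mulf hb f _ (fun x => x 0 * x 1) fun g => ?_
      change yf ℓ lam _ _ _ g = _
      subst hr
      rw [yf_eq, P_zero, one_mul]; rfl

/-- generators of the abelian normal subgroup -/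
def Agen (ℓ : Fin 5 → T) (lam : T → ZMod 5) (hζ : IsRt ζ) (C : Subgroup E) :
    Set (Gr ℓ lam (CP hζ C)) :=
  {z | ∃ x ∈ Subgroup.closure (Set.range (bw (tau (CP hζ C)) (bb ℓ lam hζ C))), ∃ v,
    z = x * io ℓ lam hζ C v * x⁻¹}

include hD hC in
theorem Agen_comm [Finite E] : ∀ x ∈ Subgroup.closure (Agen ℓ lam hζ C),
    ∀ y ∈ Subgroup.closure (Agen ℓ lam hζ C), x * y = y * x := by
  refine comm_of_closure ?_
  rintro _ ⟨x, hx, v, rfl⟩ _ ⟨y, hy, w, rfl⟩
  have h := (layer_apply hD hC (y⁻¹ * x) (Subgroup.mul_mem _ (Subgroup.inv_mem _ hy) hx) v w).map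
    (MulAut.conj y)
  simp only [MulAut.conj_apply] at h
  have e : y * (y⁻¹ * x * io ℓ lam hζ C v * (y⁻¹ * x)⁻¹) * y⁻¹ = x * io ℓ lam hζ C v * x⁻¹ := by
    group
  rw [e] at h
  exact h.eq

lemma io_mem_A (v : E → ZMod p) : io ℓ lam hζ C v ∈ Subgroup.closure (Agen ℓ lam hζ C) :=
  Subgroup.subset_closure ⟨1, Subgroup.one_mem _, v, by group⟩

lemma bb_mem : bb ℓ lam hζ C ∈
    Subgroup.closure (Set.range (bw (tau (CP hζ C)) (bb ℓ lam hζ C))) :=
  Subgroup.subset_closure ⟨0, bw_zero tau_add _⟩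

lemma A_conj_B {y z : Gr ℓ lam (CP hζ C)}
    (hy : y ∈ Subgroup.closure (Set.range (bw (tau (CP hζ C)) (bb ℓ lam hζ C))))
    (hz : z ∈ Subgroup.closure (Agen ℓ lam hζ C)) :
    y * z * y⁻¹ ∈ Subgroup.closure (Agen ℓ lam hζ C) := by
  have : Subgroup.closure (Agen ℓ lam hζ C) ≤
      (Subgroup.closure (Agen ℓ lam hζ C)).comap (MulAut.conj y).toMonoidHom := by
    refine (Subgroup.closure_le _).2 ?_
    rintro _ ⟨x, hx, v, rfl⟩
    refine Subgroup.subset_closure ⟨y * x, Subgroup.mul_mem _ hy hx, v, ?_⟩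
    rw [MulEquiv.coe_toMonoidHom, MulAut.conj_apply]; group
  exact this hz

lemma F2_mem_A {w : Fin 5 → ℤ} (hw : InBox w) (f : (Fin 2 → ZMod 5) → (E → ZMod p)) :
    F2 ℓ lam hζ C hw f ∈ Subgroup.closure (Agen ℓ lam hζ C) := by
  revert f
  refine span_ind hζ ?_ (fun f f' hf hf' => ?_) (fun f hf => ?_) (fun i f hf => ?_) fun v => ?_
  · have : F2 ℓ lam hζ C hw 0 = 1 := theta_zero (F2_add hw)
    rw [this]; exact Subgroup.one_mem _
  · rw [F2_add]; exact Subgroup.mul_mem _ hf hf'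
  · have := theta_neg (θ := F2 ℓ lam hζ C hw) (F2_add hw) f
    rw [this]
    exact Subgroup.inv_mem _ hf
  · have key : ∀ w' : Fin 5 → ℤ, InBox w' → (∀ g, lam (P ℓ w' * g) = zz ℓ lam w g i) →
        F2 ℓ lam hζ C hw (mulc ζ i f) ∈ Subgroup.closure (Agen ℓ lam hζ C) := by
      intro w' hw' h
      have h1 := A_conj_B (ℓ := ℓ) (lam := lam) (hζ := hζ) (C := C)
        (y := bw (tau (CP hζ C)) (bb ℓ lam hζ C) w') (Subgroup.subset_closure ⟨w', rfl⟩) hf
      unfold bb at h1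
      rw [bw_Y c0_mem none hw'] at h1
      rw [F2_conj_mulf hw f _ (fun x => x i) (fun g => by
        change yf ℓ lam _ _ _ g = _
        rw [yf_eq, ← h]; rfl)] at h1
      exact h1
    fin_cases i
    · refine key 0 inBox_zero fun g => ?_
      rw [P_zero, one_mul]; rfl
    · exact key w hw fun g => rfl
  · exact io_mem_A v

/-- an element commuting with `bb`'s translates and normalizing the constants normalizes -/
lemma mem_normalizer_A {x : Gr ℓ lam (CP hζ C)}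
    (h1 : ∀ y ∈ Subgroup.closure (Set.range (bw (tau (CP hζ C)) (bb ℓ lam hζ C))),
      x * y * x⁻¹ ∈ Subgroup.closure (Set.range (bw (tau (CP hζ C)) (bb ℓ lam hζ C))) ∧
      x⁻¹ * y * x ∈ Subgroup.closure (Set.range (bw (tau (CP hζ C)) (bb ℓ lam hζ C))))
    (h2 : ∀ v, x * io ℓ lam hζ C v * x⁻¹ ∈ Subgroup.closure (Agen ℓ lam hζ C) ∧
      x⁻¹ * io ℓ lam hζ C v * x ∈ Subgroup.closure (Agen ℓ lam hζ C)) :
    x ∈ Subgroup.normalizer (Subgroup.closure (Agen ℓ lam hζ C) : Set (Gr ℓ lam (CP hζ C))) := by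
  refine mem_normalizer_closure ?_ ?_
  · rintro _ ⟨y, hy, v, rfl⟩
    have := A_conj_B (h1 y hy).1 (h2 v).1
    convert this using 1; group
  · rintro _ ⟨y, hy, v, rfl⟩
    have := A_conj_B (h1 y hy).2 (h2 v).2
    convert this using 1; group

lemma B_conj_tau (w : Fin 5 → ℤ) {y : Gr ℓ lam (CP hζ C)}
    (hy : y ∈ Subgroup.closure (Set.range (bw (tau (CP hζ C)) (bb ℓ lam hζ C)))) :
    tau (CP hζ C) w * y * (tau (CP hζ C) w)⁻¹ ∈
      Subgroup.closure (Set.range (bw (tau (CP hζ C)) (bb ℓ lam hζ C))) := by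
  have : Subgroup.closure (Set.range (bw (tau (CP hζ C)) (bb ℓ lam hζ C))) ≤
      (Subgroup.closure (Set.range (bw (tau (CP hζ C)) (bb ℓ lam hζ C)))).comap
        (MulAut.conj (tau (CP hζ C) w)).toMonoidHom := by
    refine (Subgroup.closure_le _).2 ?_
    rintro _ ⟨w', rfl⟩
    refine Subgroup.subset_closure ⟨w + w', ?_⟩
    rw [MulEquiv.coe_toMonoidHom, MulAut.conj_apply, bw_add tau_add]
  exact this hy

/-- an element commuting with `b` and the translations centralizes `B` -/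
lemma B_central {x : Gr ℓ lam (CP hζ C)} (h : ∀ w, Commute x (bw (tau (CP hζ C)) (bb ℓ lam hζ C) w))
    {y : Gr ℓ lam (CP hζ C)}
    (hy : y ∈ Subgroup.closure (Set.range (bw (tau (CP hζ C)) (bb ℓ lam hζ C)))) :
    x * y * x⁻¹ = y ∧ x⁻¹ * y * x = y := by
  have : y ∈ Subgroup.centralizer {x} := by
    refine (Subgroup.closure_le _).2 ?_ hy
    rintro _ ⟨w, rfl⟩
    rw [SetLike.mem_coe, Subgroup.mem_centralizer_singleton_iff]
    exact (h w).eq.symm
  rw [Subgroup.mem_centralizer_singleton_iff] at this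
  constructor
  · rw [← this]; group
  · rw [mul_assoc, this]; group

lemma const_R_comm (s s' : ZMod 5) (e : E) (k : Option Q) (w : Fin 5 → ℤ) :
    Commute (rho (ℓ := ℓ) (lam := lam) (CP hζ C) ⟨_, const_mem (CP hζ C) (inR hζ s e)⟩)
      (bw (tau (CP hζ C)) (Y ℓ lam (inR_mem (hζ := hζ) s' C.one_mem) k) w) := by
  have h0 : Commute (rho (ℓ := ℓ) (lam := lam) (CP hζ C) ⟨_, const_mem (CP hζ C) (inR hζ s e)⟩)
      (Y ℓ lam (inR_mem (hζ := hζ) s' C.one_mem) k) := by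
    have : Commute (⟨_, const_mem (CP hζ C) (inR hζ s e)⟩ : S ℓ lam (CP hζ C))
        ⟨_, yf_mem (inR_mem (hζ := hζ) s' C.one_mem) k inBox_zero⟩ := by
      apply Subtype.ext
      funext g
      change inR hζ s e * inR hζ s' 1 ^ _ = inR hζ s' 1 ^ _ * inR hζ s e
      refine Commute.pow_right ?_ _
      rw [Commute, SemiconjBy, inR_mul, inR_mul, add_comm, mul_one, one_mul]
    exact this.map (rho _)
  have h1 := tau_const (ℓ := ℓ) (lam := lam) (C := CP hζ C) w (inR hζ s e)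
  unfold bw
  exact (h1.symm.mul_right h0).mul_right h1.symm.inv_right

include hD hC in
theorem normal_A : (Subgroup.closure (Agen ℓ lam hζ C)).Normal := by
  have hCP := goodC_CP (hζ := hζ) hC
  rw [← Subgroup.normalizer_eq_top_iff]
  have ht : ∀ w, tau (CP hζ C) w ∈ Subgroup.normalizer
      (Subgroup.closure (Agen ℓ lam hζ C) : Set (Gr ℓ lam (CP hζ C))) := by
    intro w
    refine mem_normalizer_A (fun y hy => ⟨B_conj_tau w hy, ?_⟩) fun v => ⟨?_, ?_⟩
    · have := B_conj_tau (-w) hy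
      rwa [tau_neg tau_add, inv_inv] at this
    · rw [(tau_io w v).eq, mul_inv_cancel_right]; exact io_mem_A v
    · rw [mul_assoc, ← (tau_io w v).eq, inv_mul_cancel_left]; exact io_mem_A v
  refine generated (fun a => ?_) (fun x => ?_) (fun c hc k r => ?_)
  · rw [← tau_single]; exact ht _
  · obtain ⟨v, s, e, rfl⟩ := decomp hζ x
    have e1 : rho (ℓ := ℓ) (lam := lam) (CP hζ C) ⟨_, const_mem _ (inV hζ v * inR hζ s e)⟩ =
        io ℓ lam hζ C v * rho _ ⟨_, const_mem _ (inR hζ s e)⟩ := by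
      unfold io; rw [← map_mul]; rfl
    rw [e1]
    refine Subgroup.mul_mem _ (Subgroup.le_normalizer (io_mem_A v)) ?_
    have hconj : ∀ s e v, rho (ℓ := ℓ) (lam := lam) (CP hζ C) ⟨_, const_mem _ (inR hζ s e)⟩ *
        io ℓ lam hζ C v * (rho _ ⟨_, const_mem _ (inR hζ s e)⟩)⁻¹ =
        io ℓ lam hζ C (actV ζ s e v) := by
      intro s e v
      rw [← F2_const inBox_zero, F2_conj inBox_zero _ _ (fun _ => s) (fun _ => e) (fun g => rfl)]
      rfl
    have hinv : (rho (ℓ := ℓ) (lam := lam) (CP hζ C) ⟨_, const_mem _ (inR hζ s e)⟩)⁻¹ =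
        rho _ ⟨_, const_mem _ (inR hζ (-s) e⁻¹)⟩ := by
      rw [← map_inv]; congr 1
      apply Subtype.ext; funext g; exact inR_inv hζ s e
    have hcom : ∀ w, Commute (rho (ℓ := ℓ) (lam := lam) (CP hζ C) ⟨_, const_mem _ (inR hζ s e)⟩)
        (bw (tau (CP hζ C)) (bb ℓ lam hζ C) w) := fun w => const_R_comm s 1 e none w
    refine mem_normalizer_A (fun y hy => ?_) fun v => ⟨?_, ?_⟩
    · rw [(B_central hcom hy).1, (B_central hcom hy).2]; exact ⟨hy, hy⟩
    · rw [hconj]; exact io_mem_A _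
    · have := hconj (-s) e⁻¹ v
      rw [← hinv, inv_inv] at this
      rw [this]; exact io_mem_A _
  · rw [← bw_Y hc k (inBox_vec r)]
    unfold bw
    refine Subgroup.mul_mem _ (Subgroup.mul_mem _ (ht _) ?_) (Subgroup.inv_mem _ (ht _))
    -- the conjugation of constants by `Y`
    have hY : ∀ c, ∀ hc : c ∈ CP hζ C, ∀ v, Y ℓ lam hc k * io ℓ lam hζ C v * (Y ℓ lam hc k)⁻¹ ∈
        Subgroup.closure (Agen ℓ lam hζ C) := by
      intro c hc v
      obtain ⟨s, c', hc', rfl⟩ := mem_CP hc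
      cases k with
      | none =>
        rw [← F2_const inBox_zero]
        unfold Y
        rw [F2_conj inBox_zero _ _ (fun z => z 0 * s) (fun z => cp c' (z 0)) (fun g => by
          change yf ℓ lam _ _ _ g = _
          rw [yf_eq, cp_inR, P_zero, one_mul]; rfl)]
        exact F2_mem_A _ _
      | some r' =>
        rw [← F2_const (inBox_vec r')]
        unfold Y
        rw [F2_conj (inBox_vec r') _ _ (fun z => z 0 * z 1 * s) (fun z => cp c' (z 0 * z 1))
          (fun g => by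
            change yf ℓ lam _ _ _ g = _
            rw [yf_eq, cp_inR, P_zero, one_mul]; rfl)]
        exact F2_mem_A _ _
    have hinv : (Y ℓ lam hc k)⁻¹ = Y ℓ lam ((CP hζ C).inv_mem hc) k := by
      unfold Y
      rw [← map_inv]; congr 1
      apply Subtype.ext; funext g
      change (c ^ _)⁻¹ = c⁻¹ ^ _
      rw [inv_pow]
    have hcom : ∀ w, Commute (Y ℓ lam hc k) (bw (tau (CP hζ C)) (bb ℓ lam hζ C) w) := fun w =>
      Y_comm hD hCP hc c0_mem k none w
    refine mem_normalizer_A (fun y hy => ?_) fun v => ⟨hY c hc v, ?_⟩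
    · rw [(B_central hcom hy).1, (B_central hcom hy).2]; exact ⟨hy, hy⟩
    · have := hY _ ((CP hζ C).inv_mem hc) v
      rw [← hinv, inv_inv] at this
      exact this

end solv

end Pool.Agent.MP_cdb312_al
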