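import Mathlib
import Pool.Agent.Lib.MP_cdb312_al.Solv

/-!
# Solvability, inductive step and base case
-/

namespace Pool.Agent.MP_cdb312_al

open Finset
open scoped commutatorElement

section solv

variable {T : Type} [CommGroup T] {ℓ : Fin 5 → T} {lam : T → ZMod 5}
variable {E : Type} [Group E] {p : ℕ} [Fact p.Prime] {ζ : ZMod p} {hζ : IsRt ζ} {C : Subgroup E}

/-- generators of the second abelian section -/
def Mgen (ℓ : Fin 5 → T) (lam : T → ZMod 5) (hζ : IsRt ζ) (C : Subgroup E) :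
    Set (Gr ℓ lam (CP hζ C)) :=
  {z | ∃ s k w, z = bw (tau (CP hζ C)) (Y ℓ lam (inR_mem (hζ := hζ) s C.one_mem) k) w} ∪
  {z | ∃ s, z = rho (CP hζ C) ⟨_, const_mem (CP hζ C) (inR hζ s 1)⟩}

lemma const_const_comm (s s' : ZMod 5) (e : E) :
    Commute (rho (ℓ := ℓ) (lam := lam) (CP hζ C) ⟨_, const_mem (CP hζ C) (inR hζ s e)⟩)
      (rho (CP hζ C) ⟨_, const_mem (CP hζ C) (inR hζ s' 1)⟩) := by
  have : Commute (⟨_, const_mem (CP hζ C) (inR hζ s e)⟩ : S ℓ lam (CP hζ C))
      ⟨_, const_mem (CP hζ C) (inR hζ s' 1)⟩ := by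
    apply Subtype.ext
    funext g
    change inR hζ s e * inR hζ s' 1 = inR hζ s' 1 * inR hζ s e
    rw [inR_mul, inR_mul, add_comm, mul_one, one_mul]
  exact this.map (rho _)

lemma Y_const_comm {c : EP E hζ} (hc : c ∈ CP hζ C) (k : Option Q) (s' : ZMod 5) :
    Commute (Y ℓ lam hc k) (rho (CP hζ C) ⟨_, const_mem (CP hζ C) (inR hζ s' 1)⟩) := by
  have : Commute (⟨_, yf_mem hc k inBox_zero⟩ : S ℓ lam (CP hζ C))
      ⟨_, const_mem (CP hζ C) (inR hζ s' 1)⟩ := by
    apply Subtype.ext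
    funext g
    change c ^ _ * inR hζ s' 1 = inR hζ s' 1 * c ^ _
    obtain ⟨s, e, he, rfl⟩ := mem_CP hc
    refine Commute.pow_left ?_ _
    rw [Commute, SemiconjBy, inR_mul, inR_mul, add_comm, mul_one, one_mul]
  exact this.map (rho _)

lemma bw_comm_of {y z : Gr ℓ lam (CP hζ C)} (h : Commute y z) (hz : ∀ w, Commute (tau (CP hζ C) w) z)
    (w : Fin 5 → ℤ) : Commute (bw (tau (CP hζ C)) y w) z := by
  unfold bw
  exact ((hz w).mul_left h).mul_left (hz w).inv_left

lemma Mgen_comm (hD : GoodDat ℓ lam) (hC : GoodC C) : ∀ x ∈ Mgen ℓ lam hζ C,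
    ∀ y ∈ Mgen ℓ lam hζ C, x * y = y * x := by
  have hCP := goodC_CP (hζ := hζ) hC
  rintro _ (⟨s, k, w, rfl⟩ | ⟨s, rfl⟩) _ (⟨s', k', w', rfl⟩ | ⟨s', rfl⟩)
  · exact Nab_comm hD hCP _ (bw_mem_Nab _ _ _) _ (bw_mem_Nab _ _ _)
  · exact (const_R_comm s' s 1 k w).symm.eq
  · exact (const_R_comm s s' 1 k' w').eq
  · exact (const_const_comm s s' 1).eq

/-- elements normalizing `M` -/
lemma tau_norm_M (w : Fin 5 → ℤ) :
    ∀ z ∈ Mgen ℓ lam hζ C, tau (CP hζ C) w * z * (tau (CP hζ C) w)⁻¹ ∈ Mgen ℓ lam hζ C := by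
  rintro _ (⟨s, k, w', rfl⟩ | ⟨s, rfl⟩)
  · rw [← bw_add tau_add]
    exact Or.inl ⟨s, k, _, rfl⟩
  · rw [(tau_const w _).eq, mul_inv_cancel_right]
    exact Or.inr ⟨s, rfl⟩

/-- the hom on functions -/
def upHom (ℓ : Fin 5 → T) (lam : T → ZMod 5) (hζ : IsRt ζ) (C : Subgroup E) :
    S ℓ lam C →* S ℓ lam (CP hζ C) where
  toFun f := ⟨fun g => inR hζ 0 (f.1 g), by
    have h : S ℓ lam C ≤ (S ℓ lam (CP hζ C)).comap
        (MonoidHom.mk' (fun (f : T → E) => fun g => inR hζ 0 (f g)) (fun f f' => by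
          funext g
          change inR hζ 0 (f g * f' g) = inR hζ 0 (f g) * inR hζ 0 (f' g)
          rw [inR_mul, add_zero])) := by
      conv_lhs => unfold S
      refine (Subgroup.closure_le _).2 ?_
      rintro f (⟨e, rfl⟩ | ⟨c, hc, k, r, rfl⟩)
      · exact const_mem _ _
      · have := yf_mem (ℓ := ℓ) (lam := lam) (inR_mem (hζ := hζ) 0 hc) k (inBox_vec r)
        change (fun g => inR hζ 0 (yf ℓ lam c k (vec r) g)) ∈ S ℓ lam (CP hζ C)
        convert this using 1
        funext g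
        rw [yf_eq, yf_eq, cp_inR, mul_zero]
    exact h f.2⟩
  map_one' := by
    apply Subtype.ext; funext g
    exact inR_zero_one hζ
  map_mul' f f' := by
    apply Subtype.ext; funext g
    change inR hζ 0 (f.1 g * f'.1 g) = inR hζ 0 (f.1 g) * inR hζ 0 (f'.1 g)
    rw [inR_mul, add_zero]

theorem solv_step [Finite E] (hD : GoodDat ℓ lam) (hC : GoodC C)
    (hS : Group.IsSolvable (Gr ℓ lam C)) : Group.IsSolvable (Gr ℓ lam (CP hζ C)) := by
  have hCP := goodC_CP (hζ := hζ) hC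
  have := normal_A (hζ := hζ) hD hC
  set A := Subgroup.closure (Agen ℓ lam hζ C) with hA
  refine solv_of_normal A (Agen_comm hD hC) ?_
  set q := QuotientGroup.mk' A with hq
  set M : Subgroup (Gr ℓ lam (CP hζ C) ⧸ A) := (Subgroup.closure (Mgen ℓ lam hζ C)).map q with hM
  have hio : ∀ v, q (io ℓ lam hζ C v) = 1 := fun v =>
    (QuotientGroup.eq_one_iff _).2 (io_mem_A v)
  have hMc : M = Subgroup.closure (q '' Mgen ℓ lam hζ C) := by
    rw [hM, MonoidHom.map_closure]
  -- centralizing elements normalize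
  have hcen : ∀ x, (∀ z ∈ Mgen ℓ lam hζ C, Commute x z) →
      q x ∈ Subgroup.normalizer (M : Set (Gr ℓ lam (CP hζ C) ⧸ A)) := by
    intro x hx
    rw [hMc]
    refine mem_normalizer_closure ?_ ?_
    · rintro _ ⟨z, hz, rfl⟩
      rw [← map_inv, ← map_mul, ← map_mul, (hx z hz).eq, mul_inv_cancel_right]
      exact Subgroup.subset_closure ⟨z, hz, rfl⟩
    · rintro _ ⟨z, hz, rfl⟩
      rw [← map_inv, ← map_mul, ← map_mul, mul_assoc, ← (hx z hz).eq, inv_mul_cancel_left]
      exact Subgroup.subset_closure ⟨z, hz, rfl⟩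
  have htau : ∀ w, q (tau (CP hζ C) w) ∈ Subgroup.normalizer (M : Set (Gr ℓ lam (CP hζ C) ⧸ A)) := by
    intro w
    rw [hMc]
    refine mem_normalizer_closure ?_ ?_
    · rintro _ ⟨z, hz, rfl⟩
      rw [← map_inv, ← map_mul, ← map_mul]
      exact Subgroup.subset_closure ⟨_, tau_norm_M w z hz, rfl⟩
    · rintro _ ⟨z, hz, rfl⟩
      rw [← map_inv, ← map_mul, ← map_mul]
      have := tau_norm_M (-w) z hz
      rw [tau_neg tau_add, inv_inv] at this
      exact Subgroup.subset_closure ⟨_, this, rfl⟩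
  have hMn : M.Normal := by
    rw [← Subgroup.normalizer_eq_top_iff, eq_top_iff]
    have : (Subgroup.normalizer (M : Set (Gr ℓ lam (CP hζ C) ⧸ A))).comap q = ⊤ := by
      refine generated (fun a => ?_) (fun x => ?_) (fun c hc k r => ?_)
      · rw [← tau_single]; exact htau _
      · obtain ⟨v, s, e, rfl⟩ := decomp hζ x
        have e1 : rho (ℓ := ℓ) (lam := lam) (CP hζ C) ⟨_, const_mem _ (inV hζ v * inR hζ s e)⟩ =
            io ℓ lam hζ C v * rho _ ⟨_, const_mem _ (inR hζ s e)⟩ := by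
          unfold io; rw [← map_mul]; rfl
        rw [e1, Subgroup.mem_comap, map_mul, hio, one_mul]
        refine hcen _ ?_
        rintro _ (⟨s', k, w, rfl⟩ | ⟨s', rfl⟩)
        · exact const_R_comm s s' e k w
        · exact const_const_comm s s' e
      · rw [← bw_Y hc k (inBox_vec r)]
        refine hcen _ ?_
        rintro _ (⟨s', k', w, rfl⟩ | ⟨s', rfl⟩)
        · exact Nab_comm hD hCP _ (bw_mem_Nab _ _ _) _ (bw_mem_Nab _ _ _)
        · exact bw_comm_of (Y_const_comm hc k s') (fun w => tau_const w _) _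
    intro x _
    obtain ⟨y, rfl⟩ := QuotientGroup.mk'_surjective A x
    have : y ∈ (Subgroup.normalizer (M : Set (Gr ℓ lam (CP hζ C) ⧸ A))).comap q :=
      this ▸ Subgroup.mem_top y
    exact this
  have hMcomm : ∀ x ∈ M, ∀ y ∈ M, x * y = y * x := by
    rw [hMc]
    refine comm_of_closure ?_
    rintro _ ⟨x, hx, rfl⟩ _ ⟨y, hy, rfl⟩
    rw [← map_mul, ← map_mul, Mgen_comm hD hC x hx y hy]
  refine solv_of_normal M hMcomm ?_
  set q2 : Gr ℓ lam (CP hζ C) →* (Gr ℓ lam (CP hζ C) ⧸ A) ⧸ M := (QuotientGroup.mk' M).comp q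
    with hq2
  have hq2A : ∀ v, q2 (io ℓ lam hζ C v) = 1 := fun v => by
    rw [hq2, MonoidHom.comp_apply, hio, map_one]
  have hq2M : ∀ z ∈ Mgen ℓ lam hζ C, q2 z = 1 := fun z hz => by
    rw [hq2, MonoidHom.comp_apply]
    refine (QuotientGroup.eq_one_iff _).2 ?_
    exact ⟨z, Subgroup.subset_closure hz, rfl⟩
  let F : Gr ℓ lam C →* (Gr ℓ lam (CP hζ C) ⧸ A) ⧸ M :=
    liftGr (q2.comp ((rho _).comp (upHom ℓ lam hζ C))) (fun a => q2 (tt _ a))
      (fun a b => (tt_comm a b).map q2) (by rw [tt_four, map_one]) (fun a f f' h => by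
        change q2 (tt _ a) * q2 (rho _ (upHom ℓ lam hζ C f)) * (q2 (tt _ a))⁻¹ =
          q2 (rho _ (upHom ℓ lam hζ C f'))
        rw [← map_inv, ← map_mul, ← map_mul, tt_conj a _ (upHom ℓ lam hζ C f') (fun g => by
          change inR hζ 0 _ = inR hζ 0 _
          rw [h g])])
  have hF1 : ∀ a, F (tt C a) = q2 (tt _ a) := fun a => by simp [F]
  have hF2 : ∀ f, F (rho C f) = q2 (rho _ (upHom ℓ lam hζ C f)) := fun f => by simp [F]
  have hFs : Function.Surjective F := by
    have : F.range.comap q2 = ⊤ := by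
      refine generated (fun a => ⟨tt C a, hF1 a⟩) (fun x => ?_) (fun c hc k r => ?_)
      · obtain ⟨v, s, e, rfl⟩ := decomp hζ x
        have e1 : rho (ℓ := ℓ) (lam := lam) (CP hζ C) ⟨_, const_mem _ (inV hζ v * inR hζ s e)⟩ =
            io ℓ lam hζ C v * rho _ ⟨_, const_mem _ (inR hζ s 1)⟩ *
              rho _ (upHom ℓ lam hζ C ⟨_, const_mem _ e⟩) := by
          unfold io; rw [← map_mul, ← map_mul]
          congr 1
          apply Subtype.ext; funext g
          change inV hζ v * inR hζ s e = inV hζ v * inR hζ s 1 * inR hζ 0 e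
          rw [mul_assoc, inR_mul, add_zero, one_mul]
        rw [e1, Subgroup.mem_comap, map_mul, map_mul, hq2A, hq2M _ (Or.inr ⟨s, rfl⟩), one_mul,
          one_mul]
        exact ⟨_, hF2 _⟩
      · obtain ⟨s, c', hc', rfl⟩ := mem_CP hc
        have e1 : rho (ℓ := ℓ) (lam := lam) (CP hζ C) ⟨_, yf_mem hc k (inBox_vec r)⟩ =
            bw (tau (CP hζ C)) (Y ℓ lam (inR_mem (hζ := hζ) s C.one_mem) k) (vec r) *
              rho _ (upHom ℓ lam hζ C ⟨_, yf_mem hc' k (inBox_vec r)⟩) := by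
          rw [bw_Y _ _ (inBox_vec r), ← map_mul]
          congr 1
          apply Subtype.ext; funext g
          change yf ℓ lam (inR hζ s c') k _ g = yf ℓ lam (inR hζ s 1) k _ g *
            inR hζ 0 (yf ℓ lam c' k _ g)
          rw [yf_eq, yf_eq, yf_eq, cp_inR, cp_inR, inR_mul, add_zero]
          congr 1
          simp [cp]
        rw [e1, Subgroup.mem_comap, map_mul, hq2M _ (Or.inl ⟨s, k, _, rfl⟩), one_mul]
        exact ⟨_, hF2 _⟩
    intro x
    obtain ⟨y, rfl⟩ := QuotientGroup.mk'_surjective M x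
    obtain ⟨z, rfl⟩ := QuotientGroup.mk'_surjective A y
    have : z ∈ F.range.comap q2 := this ▸ Subgroup.mem_top z
    exact this
  exact Group.isSolvable_of_surjective hFs

theorem solv_base [Subsingleton E] : Group.IsSolvable (Gr ℓ lam C) := by
  have h1 : ∀ f, rho (ℓ := ℓ) (lam := lam) C f = 1 := by
    intro f
    have : f = 1 := by
      apply Subtype.ext; funext g; exact Subsingleton.elim _ _
    rw [this, map_one]
  have h2 : Subgroup.closure (Set.range (tt (ℓ := ℓ) (lam := lam) C)) = ⊤ := by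
    refine generated (fun a => Subgroup.subset_closure ⟨a, rfl⟩) (fun e => ?_) (fun c hc k r => ?_)
    · rw [h1]; exact Subgroup.one_mem _
    · rw [h1]; exact Subgroup.one_mem _
  have h3 : ∀ x y : Gr ℓ lam C, x * y = y * x := by
    intro x y
    refine comm_of_closure (s := Set.range (tt (ℓ := ℓ) (lam := lam) C)) ?_ x
      (h2 ▸ Subgroup.mem_top x) y (h2 ▸ Subgroup.mem_top y)
    rintro _ ⟨a, rfl⟩ _ ⟨b, rfl⟩
    exact (tt_comm a b).eq
  exact Group.isSolvable_of_comm h3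

end solv

end Pool.Agent.MP_cdb312_al
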