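import Mathlib
import Pool.Agent.Lib.MP_cdb312_al.Step

/-!
# The concrete representation
-/

namespace Pool.Agent.MP_cdb312_al

open Finset
open scoped commutatorElement

section rep

variable {T : Type} [CommGroup T] {ℓ : Fin 5 → T} {lam : T → ZMod 5}

/-- the shift action -/
def shift (T E : Type) [CommGroup T] [Group E] : T →* MulAut (T → E) :=
  MonoidHom.mk' (fun t =>
    { toFun := fun f g => f (t * g)
      invFun := fun f g => f (t⁻¹ * g)
      left_inv := fun f => by funext g; simp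
      right_inv := fun f => by funext g; simp
      map_mul' := fun f f' => rfl }) (by
    intro t t'
    ext f g
    change f (t * t' * g) = f (t' * (t * g))
    congr 1
    rw [mul_comm t t', mul_assoc])

/-- the big group -/
abbrev W (T E : Type) [CommGroup T] [Group E] : Type := (T → E) ⋊[shift T E] T

variable {E : Type} [Group E] {C : Subgroup E}

/-- the representation -/
def pi (hD : GoodDat ℓ lam) (C : Subgroup E) : Gr ℓ lam C →* W T E :=
  liftGr (SemidirectProduct.inl.comp (S ℓ lam C).subtype) (fun a => SemidirectProduct.inr (ℓ a))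
    (fun a b => by
      rw [Commute, SemiconjBy, ← map_mul, ← map_mul, mul_comm]) (by rw [hD.l4, map_one])
    (fun a f f' h => by
      change SemidirectProduct.inr (ℓ a) * SemidirectProduct.inl f.1 *
        (SemidirectProduct.inr (ℓ a))⁻¹ = SemidirectProduct.inl f'.1
      rw [← map_inv, ← SemidirectProduct.inl_aut]
      congr 1
      funext g
      exact (h g).symm)

lemma pi_rho (hD : GoodDat ℓ lam) (f : S ℓ lam C) :
    pi hD C (rho C f) = SemidirectProduct.inl f.1 := by simp [pi]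

lemma pi_tt (hD : GoodDat ℓ lam) (a : Fin 5) :
    pi hD C (tt C a) = SemidirectProduct.inr (ℓ a) := by simp [pi]

/-- evaluation at `1` of an element with trivial translation part -/
def Ev (hD : GoodDat ℓ lam) (C : Subgroup E) (x : Gr ℓ lam C) (e : E) : Prop :=
  (pi hD C x).right = 1 ∧ (pi hD C x).left 1 = e

variable {hD : GoodDat ℓ lam}

lemma Ev.mul {x y : Gr ℓ lam C} {e e' : E} (h : Ev hD C x e) (h' : Ev hD C y e') :
    Ev hD C (x * y) (e * e') := by
  refine ⟨?_, ?_⟩
  · rw [map_mul, SemidirectProduct.mul_right, h.1, h'.1, mul_one]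
  · rw [map_mul, SemidirectProduct.mul_left, h.1, map_one, MulAut.one_apply, Pi.mul_apply, h.2, h'.2]

lemma Ev.inv {x : Gr ℓ lam C} {e : E} (h : Ev hD C x e) : Ev hD C x⁻¹ e⁻¹ := by
  refine ⟨?_, ?_⟩
  · rw [map_inv, SemidirectProduct.inv_right, h.1, inv_one]
  · rw [map_inv, SemidirectProduct.inv_left, h.1, inv_one, map_one, MulAut.one_apply, Pi.inv_apply,
      h.2]

lemma Ev.comm {x y : Gr ℓ lam C} {e e' : E} (h : Ev hD C x e) (h' : Ev hD C y e') :
    Ev hD C ⁅x, y⁆ ⁅e, e'⁆ := by
  rw [commutatorElement_def, commutatorElement_def]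
  exact ((h.mul h').mul h.inv).mul h'.inv

lemma Ev_one : Ev hD C 1 1 := by
  refine ⟨by rw [map_one]; rfl, by rw [map_one]; rfl⟩

lemma Ev.unique {x : Gr ℓ lam C} {e e' : E} (h : Ev hD C x e) (h' : Ev hD C x e') : e = e' :=
  h.2.symm.trans h'.2

variable {p : ℕ} [Fact p.Prime] {ζ : ZMod p} {hζ : IsRt ζ}

/-- the hom on the finite groups -/
def dn (hζ : IsRt ζ) : EP E hζ →* E :=
  (MonoidHom.snd (Multiplicative (ZMod 5)) E).comp SemidirectProduct.rightHom

lemma dn_inV (v : E → ZMod p) : dn hζ (inV hζ v) = 1 := rfl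

lemma dn_inR (s : ZMod 5) (e : E) : dn hζ (inR hζ s e) = e := rfl

/-- the hom on functions -/
def downHom (ℓ : Fin 5 → T) (lam : T → ZMod 5) (hζ : IsRt ζ) (C : Subgroup E) :
    S ℓ lam (CP hζ C) →* S ℓ lam C where
  toFun f := ⟨fun g => dn hζ (f.1 g), by
    have h : S ℓ lam (CP hζ C) ≤ (S ℓ lam C).comap
        (MonoidHom.mk' (fun (f : T → EP E hζ) => fun g => dn hζ (f g)) (fun f f' => by
          funext g
          exact map_mul _ _ _)) := by
      conv_lhs => unfold S
      refine (Subgroup.closure_le _).2 ?_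
      rintro f (⟨e, rfl⟩ | ⟨c, hc, k, r, rfl⟩)
      · exact const_mem _ _
      · obtain ⟨s, c', hc', rfl⟩ := mem_CP hc
        have := yf_mem (ℓ := ℓ) (lam := lam) hc' k (inBox_vec r)
        change (fun g => dn hζ (yf ℓ lam (inR hζ s c') k (vec r) g)) ∈ S ℓ lam C
        convert this using 1
        funext g
        rw [yf_eq, yf_eq, cp_inR, dn_inR]
    exact h f.2⟩
  map_one' := by
    apply Subtype.ext; funext g
    exact map_one _
  map_mul' f f' := by
    apply Subtype.ext; funext g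
    exact map_mul _ _ _

/-- the projection to the lower group -/
def psi (ℓ : Fin 5 → T) (lam : T → ZMod 5) (hζ : IsRt ζ) (C : Subgroup E) :
    Gr ℓ lam (CP hζ C) →* Gr ℓ lam C :=
  liftGr ((rho C).comp (downHom ℓ lam hζ C)) (fun a => tt C a) tt_comm tt_four
    (fun a f f' h => tt_conj a _ _ fun g => by
      change dn hζ (f'.1 g) = dn hζ (f.1 (ℓ a * g))
      rw [h g])

lemma psi_rho (f : S ℓ lam (CP hζ C)) :
    psi ℓ lam hζ C (rho _ f) = rho C (downHom ℓ lam hζ C f) := by simp [psi]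

lemma psi_tt (a : Fin 5) :
    psi ℓ lam hζ C (tt _ a) = tt C a := by simp [psi]

lemma psi_surj : Function.Surjective (psi ℓ lam hζ C) := by
  rw [← MonoidHom.range_eq_top]
  refine generated (fun a => ⟨tt _ a, psi_tt a⟩) (fun e => ?_) (fun c hc k r => ?_)
  · refine ⟨rho _ ⟨_, const_mem _ (inR hζ 0 e)⟩, ?_⟩
    rw [psi_rho]; rfl
  · refine ⟨rho _ ⟨_, yf_mem (inR_mem 0 hc) k (inBox_vec r)⟩, ?_⟩
    rw [psi_rho]
    congr 1
    apply Subtype.ext; funext g
    change dn hζ (yf ℓ lam (inR hζ 0 c) k (vec r) g) = yf ℓ lam c k (vec r) g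
    rw [yf_eq, yf_eq, cp_inR, dn_inR]

lemma gr_hom_ext {H : Type*} [Group H] {f g : Gr ℓ lam C →* H} (h1 : ∀ s, f (rho C s) = g (rho C s))
    (h2 : ∀ a, f (tt C a) = g (tt C a)) : f = g := by
  refine PresentedGroup.ext ?_
  rintro (s | a)
  · exact h1 s
  · exact h2 a

/-- the projection of big groups -/
def WW (T : Type) [CommGroup T] (hζ : IsRt ζ) : W T (EP E hζ) →* W T E :=
  SemidirectProduct.map
    (MonoidHom.mk' (fun (f : T → EP E hζ) => fun g => dn hζ (f g)) (fun f f' => by
          funext g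
          exact map_mul _ _ _)) (MonoidHom.id T) (fun t => rfl)

lemma pi_psi (x : Gr ℓ lam (CP hζ C)) : WW T hζ (pi hD _ x) = pi hD C (psi ℓ lam hζ C x) := by
  have : (WW T hζ).comp (pi hD (CP hζ C)) = (pi hD C).comp (psi ℓ lam hζ C) := by
    refine gr_hom_ext (fun s => ?_) (fun a => ?_)
    · rw [MonoidHom.comp_apply, MonoidHom.comp_apply, psi_rho, pi_rho, pi_rho]
      rfl
    · rw [MonoidHom.comp_apply, MonoidHom.comp_apply, psi_tt, pi_tt, pi_tt]
      rfl
  exact DFunLike.congr_fun this x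

lemma Ev_lift {x : Gr ℓ lam (CP hζ C)} {e : E} (h : Ev hD C (psi ℓ lam hζ C x) e) :
    ∃ u s, Ev hD _ x (inV hζ u * inR hζ s e) := by
  have h1 := h.1
  have h2 := h.2
  rw [← pi_psi] at h1 h2
  obtain ⟨v, s, e', he⟩ := decomp hζ ((pi hD _ x).left 1)
  have h3 : dn hζ ((pi hD _ x).left 1) = e := h2
  rw [he, map_mul, dn_inV, dn_inR, one_mul] at h3
  subst h3
  exact ⟨v, s, h1, he⟩

end rep

end Pool.Agent.MP_cdb312_al
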