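import Mathlib
import Pool.Agent.Lib.MP_cdb312_al.Rep

/-!
# Descending chains
-/

namespace Pool.Agent.MP_cdb312_al

open Finset Polynomial
open scoped commutatorElement

section lin

variable {E : Type} [Group E] {p : ℕ} [Fact p.Prime] {ζ : ZMod p} {hζ : IsRt ζ}

/-- the linear operator -/
def Aop (ζ : ZMod p) (s : ZMod 5) (e : E) : Module.End (ZMod p) (E → ZMod p) where
  toFun := actV ζ s e
  map_add' := actV_add ζ s e
  map_smul' c v := by
    funext x; simp only [actV, Pi.smul_apply, smul_eq_mul, RingHom.id_apply]; ring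

lemma Aop_pow (hζ : IsRt ζ) (s : ZMod 5) (e : E) (n : ℕ) :
    Aop ζ s e ^ n = Aop ζ (n • s) (e ^ n) := by
  induction n with
  | zero =>
    rw [pow_zero, pow_zero, zero_smul]
    apply LinearMap.ext
    intro v
    exact (actV_zero_one ζ v).symm
  | succ n ih =>
    rw [pow_succ, ih]
    apply LinearMap.ext
    intro v
    change actV ζ _ _ (actV ζ _ _ v) = actV ζ _ _ v
    rw [actV_actV hζ, pow_succ, succ_nsmul]

lemma Aop_ne_one (s : ZMod 5) {e : E} (he : e ≠ 1) : Aop ζ s e ≠ 1 := by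
  classical
  intro h
  have h1 := congrFun (LinearMap.congr_fun h (Pi.single 1 1)) 1
  change zp ζ s * (Pi.single 1 1 : E → ZMod p) (e⁻¹ * 1) = (Pi.single 1 1 : E → ZMod p) 1 at h1
  rw [Pi.single_eq_same, mul_one, Pi.single_eq_of_ne (by simpa using he), mul_zero] at h1
  exact zero_ne_one h1

lemma one_sub_pow_ne (hζ : IsRt ζ) (s : ZMod 5) {e : E} (he : e ≠ 1) {q : ℕ} (hq : e ^ q = 1)
    (hcop : Nat.Coprime p (5 * q)) (m : ℕ) : (1 - Aop ζ s e) ^ m ≠ 0 := by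
  intro h
  have h1 : (1 - Aop ζ s e) ^ p ^ m = 0 := by
    have hle : m ≤ p ^ m := (Nat.lt_pow_self (Fact.out : p.Prime).one_lt).le
    exact pow_eq_zero_of_le hle h
  have h2 : (1 - Aop ζ s e) ^ p ^ m = 1 - Aop ζ s e ^ p ^ m := by
    have : ((1 : (ZMod p)[X]) - X) ^ p ^ m = 1 ^ p ^ m - X ^ p ^ m := sub_pow_char_pow _ _ m
    have := congrArg (aeval (Aop ζ s e)) this
    simpa using this
  have h3 : Aop ζ s e ^ p ^ m = 1 := by
    rw [h2] at h1
    exact (sub_eq_zero.1 h1).symm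
  have h4 : Aop ζ s e ^ (5 * q) = 1 := by
    rw [Aop_pow hζ]
    have e1 : (5 * q) • s = 0 := by
      rw [nsmul_eq_mul]
      push_cast
      have : (5 : ZMod 5) = 0 := by decide
      rw [this, zero_mul, zero_mul]
    have e2 : e ^ (5 * q) = 1 := by rw [mul_comm, pow_mul, hq, one_pow]
    rw [e1, e2]
    apply LinearMap.ext
    intro v
    exact actV_zero_one ζ v
  have h5 : orderOf (Aop ζ s e) ∣ 1 := by
    have := Nat.dvd_gcd (orderOf_dvd_of_pow_eq_one h3) (orderOf_dvd_of_pow_eq_one h4)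
    rwa [(Nat.Coprime.pow_left m hcop : Nat.gcd _ _ = 1)] at this
  exact Aop_ne_one s he (orderOf_eq_one_iff.1 (Nat.dvd_one.1 h5))

lemma comm_inV (hζ : IsRt ζ) (w u : E → ZMod p) (s : ZMod 5) (e : E) :
    ⁅inV hζ w, inV hζ u * inR hζ s e⁆ = inV hζ ((1 - Aop ζ s e) w) := by
  have h1 : (1 - Aop ζ s e) w = w + (u + (-(actV ζ s e w) + -u)) := by
    change w - actV ζ s e w = _
    abel
  rw [h1, inV_add, inV_add, inV_add, inV_neg, inV_neg, commutatorElement_def]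
  have h2 : (inV hζ (actV ζ s e w))⁻¹ = inR hζ s e * (inV hζ w)⁻¹ * (inR hζ s e)⁻¹ := by
    rw [← conj_inV]; group
  rw [h2]
  group

end lin

section desc

variable {T : Type} [CommGroup T] {ℓ : Fin 5 → T} {lam : T → ZMod 5}
variable {E : Type} [Group E] {C : Subgroup E} {hD : GoodDat ℓ lam}
variable {p : ℕ} [Fact p.Prime] {ζ : ZMod p} {hζ : IsRt ζ}

lemma pi_pow_tt (n : ℕ) :
    pi hD C (tt C 0 ^ n) = SemidirectProduct.inr (ℓ 0 ^ n) := by
  rw [map_pow, pi_tt, map_pow]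

/-- elements in finite index subgroups -/
lemma exists_mem (hζ : IsRt ζ) (hD : GoodDat ℓ lam) (N : Subgroup (Gr ℓ lam (CP hζ C))) [N.Normal]
    (hN : N.index ≠ 0) (v0 : E → ZMod p) : ∃ κ : ZMod p, κ ≠ 0 ∧ ∃ x ∈ N,
      Ev hD _ x (inV hζ (κ • v0)) := by
  have hc := c0_mem (hζ := hζ) (C := C)
  set b : S ℓ lam (CP hζ C) := ⟨_, yf_mem hc none inBox_zero⟩ with hb
  set io : S ℓ lam (CP hζ C) := ⟨_, const_mem _ (inV hζ v0)⟩ with hio
  set β : S ℓ lam (CP hζ C) := b * io * b⁻¹ with hβ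
  have hβg : ∀ g, β.1 g = inV hζ (zp ζ (lam g) • v0) := by
    intro g
    change yf ℓ lam (c0 hζ) none 0 g * inV hζ v0 * (yf ℓ lam (c0 hζ) none 0 g)⁻¹ = _
    rw [yf_eq, cp_c0, conj_inV, actV_one, P_zero, one_mul]
    rfl
  set t := tt (ℓ := ℓ) (lam := lam) (CP hζ C) 0 with ht
  set n := N.index with hn
  have htN : t ^ n ∈ N := N.pow_index_mem t
  refine ⟨zp ζ (lam 1) - zp ζ (lam (ℓ 0 ^ n)), ?_, ⁅rho _ β, t ^ n⁆, ?_, ?_⟩
  · rw [sub_ne_zero]
    intro h
    exact hD.nonper n (Nat.pos_of_ne_zero hN) (hζ.zp_injective h).symm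
  · have : ⁅rho _ β, t ^ n⁆ = (rho _ β * t ^ n * (rho _ β)⁻¹) * (t ^ n)⁻¹ := by
      rw [commutatorElement_def]
    rw [this]
    exact N.mul_mem (Subgroup.Normal.conj_mem inferInstance _ htN _) (N.inv_mem htN)
  · have e1 : pi hD _ ⁅rho _ β, t ^ n⁆ = SemidirectProduct.inl β.1 *
        SemidirectProduct.inl ((shift T (EP E hζ) (ℓ 0 ^ n)) β.1⁻¹) := by
      rw [commutatorElement_def, map_mul, map_mul, map_mul, map_inv, map_inv, pi_pow_tt, pi_rho,
        SemidirectProduct.inl_aut, map_inv]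
      rw [map_inv]
      group
    refine ⟨?_, ?_⟩
    · rw [e1, ← map_mul, SemidirectProduct.right_inl]
    · rw [e1, ← map_mul, SemidirectProduct.left_inl, Pi.mul_apply]
      change β.1 1 * (β.1 (ℓ 0 ^ n * 1))⁻¹ = _
      rw [hβg, hβg, mul_one, ← inV_neg, ← inV_add, sub_smul, sub_eq_add_neg]

/-- The descent property. -/
def DD (hD : GoodDat ℓ lam) (C : Subgroup E) (p n : ℕ) : Prop :=
  ∀ H : Subgroup (Gr ℓ lam C), H.index ≠ 0 → ∀ M : ℕ → Subgroup (Gr ℓ lam C), M 0 = H →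
    (∀ i, i ≤ n → ∀ h ∈ H, ∀ k ∈ M i, h * k * h⁻¹ ∈ M i) →
    (∀ i, i < n → ∃ c : ℕ, ∃ L : ℕ → Subgroup (Gr ℓ lam C), L 0 = M i ∧
      (∀ j, L (j + 1) = ⁅L j, M i⁆) ∧ L c ≤ M (i + 1)) →
    ∃ y ∈ M n, ∃ e, Ev hD C y e ∧ e ≠ 1 ∧ e ^ p = 1

lemma inV_pow (v : E → ZMod p) : inV hζ v ^ p = 1 := by
  have : ∀ n : ℕ, inV hζ v ^ n = inV hζ (n • v) := by
    intro n
    induction n with
    | zero => rw [pow_zero, zero_smul, inV_zero]
    | succ n ih => rw [pow_succ, ih, succ_nsmul, inV_add]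
  rw [this]
  have : p • v = 0 := by
    funext x; simp
  rw [this, inV_zero]

theorem DD_base (hζ : IsRt ζ) (hD : GoodDat ℓ lam) : DD hD (CP hζ C) p 0 := by
  intro H hH M h0 _ _
  have : H.FiniteIndex := ⟨hH⟩
  obtain ⟨κ, hκ, x, hx, hEv⟩ := exists_mem hζ hD H.normalCore Subgroup.FiniteIndex.index_ne_zero
    (fun _ => 1)
  refine ⟨x, ?_, _, hEv, ?_, inV_pow _⟩
  · rw [h0]; exact H.normalCore_le hx
  · rw [← inV_zero hζ]
    intro h
    have := congrFun (inV_injective hζ h) 1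
    simp at this
    exact hκ this

theorem DD_step (hζ : IsRt ζ) (hD : GoodDat ℓ lam) {q n : ℕ} (hcop : Nat.Coprime p (5 * q))
    (hDD : DD hD C q n) : DD hD (CP hζ C) p (n + 1) := by
  intro H hH M h0 hnorm hnil
  set f := psi ℓ lam hζ C with hf
  obtain ⟨yb, hyb, e, hEv, he, heq⟩ := hDD (H.map f) (fun h => hH (by
      have := H.index_map_dvd (f := f) psi_surj
      rw [h] at this
      exact Nat.eq_zero_of_zero_dvd this)) (fun i => (M i).map f) (by rw [h0]) (by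
      rintro i hi _ ⟨h, hh, rfl⟩ _ ⟨k, hk, rfl⟩
      exact ⟨h * k * h⁻¹, hnorm i (by omega) h hh k hk, by simp⟩) (by
      intro i hi
      obtain ⟨c, L, hL0, hL, hLc⟩ := hnil i (by omega)
      refine ⟨c, fun j => (L j).map f, by simp only [hL0], fun j => ?_, Subgroup.map_mono hLc⟩
      simp only [hL, Subgroup.map_commutator])
  obtain ⟨y, hy, rfl⟩ := hyb
  obtain ⟨u, s, hEy⟩ := Ev_lift hEv
  obtain ⟨c, L, hL0, hL, hLc⟩ := hnil n (by omega)
  have hne := one_sub_pow_ne hζ s he heq hcop (c + 1)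
  have : ∃ v0, ((1 - Aop ζ s e) ^ (c + 1)) v0 ≠ 0 := by
    by_contra hcon
    push Not at hcon
    exact hne (LinearMap.ext hcon)
  obtain ⟨v0, hv0⟩ := this
  have : H.FiniteIndex := ⟨hH⟩
  obtain ⟨κ, hκ, x, hx, hEx⟩ := exists_mem hζ hD H.normalCore Subgroup.FiniteIndex.index_ne_zero v0
  have key : ∀ j, ∃ z ∈ L j, Ev hD _ z (inV hζ (((1 - Aop ζ s e) ^ (j + 1)) (κ • v0))) := by
    intro j
    induction j with
    | zero =>
      refine ⟨⁅x, y⁆, ?_, ?_⟩
      · rw [hL0, commutatorElement_def]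
        exact (M n).mul_mem (hnorm n (by omega) x (H.normalCore_le hx) y hy) ((M n).inv_mem hy)
      · rw [zero_add, pow_one, ← comm_inV hζ _ u]
        exact hEx.comm hEy
    | succ j ih =>
      obtain ⟨z, hz, hEz⟩ := ih
      refine ⟨⁅z, y⁆, ?_, ?_⟩
      · rw [hL]
        exact Subgroup.commutator_mem_commutator hz hy
      · rw [pow_succ']
        change Ev hD _ _ (inV hζ ((1 - Aop ζ s e) (((1 - Aop ζ s e) ^ (j + 1)) (κ • v0))))
        rw [← comm_inV hζ _ u]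
        exact hEz.comm hEy
  obtain ⟨z, hz, hEz⟩ := key c
  refine ⟨z, hLc hz, _, hEz, ?_, inV_pow _⟩
  rw [← inV_zero hζ]
  intro h
  have := inV_injective hζ h
  rw [map_smul] at this
  exact (smul_ne_zero hκ hv0) this

end desc

end Pool.Agent.MP_cdb312_al
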