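import Mathlib
import Pool.Agent.Lib.MP_cdb312_al.Desc

/-!
# The model and the levels

Overview of the whole argument (files `Red`, `Span`, `Theta`, `Family`, `Layer`, `Pres`, `Alg`,
`Ext`, `Solv`, `Step`, `Rep`, `Desc`, `Final`), which shows that the finitely presented soluble
groups have unbounded virtual nilpotent length.

* Let `T` be the group of units of `F_5((x))`, `lam : T → F_5` the constant coefficient, and
  `ℓ_0, …, ℓ_4` the elements `x, x - 1, x - 2, x - 3, 1` of `T`. For a finite group `E` and an
  abelian subgroup `C` of exponent 5 let `S(C)` be the finite group of functions `T → E` generated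
  by the constants and by the functions `g ↦ c ^ u(g)` with `c ∈ C` and `u(g) = lam (P g)` or
  `u(g) = lam (P g) lam (P' P g)`, where `P, P'` run over the products of powers of the `ℓ_a` with
  exponents between `-2` and `2`. The group `Gr C` is given by the multiplication table of the
  finite group `S(C)`, commuting letters `t_0, …, t_4` with `t_4 = 1`, and the relations
  `t_a f t_a⁻¹ = f (ℓ_a ·)` whenever both sides are in `S(C)`. It is finitely presented by
  construction.
* From `E` pass to `E' = (E → F_p) ⋊ (C_5 × E)`, where `C_5` acts by a fifth root of unity, and from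
  `C` to `C' = C_5 × C`. If `Gr C` is soluble, so is `Gr C'` (`solv_step`): the functions with values
  in `E → F_p` generate an abelian normal subgroup. For translates within a bounded distance this
  holds by the multiplication table of `S(C')`; in general it follows by induction on the distance
  from the linear relations among any three of the `ℓ_a` (any four for the quadratic functions).
  The quadratic functions are what makes the induction work (`Family`, `Layer`).
* `Gr C` acts on the functions `T → E`, and with it one checks (`Desc`) that, if the primes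
  alternate between 11 and 31, then any chain of `n` nilpotent steps inside a subgroup of finite
  index of the `n + 1`st group leaves nontrivial elements at the bottom.
-/

namespace Pool.Agent.MP_cdb312_al

open Finset

/-- Units of Laurent series over the field with five elements. -/
abbrev TT : Type := (LaurentSeries (ZMod 5))ˣ

/-- the variable -/
noncomputable def xx : LaurentSeries (ZMod 5) := HahnSeries.single 1 1

/-- the constant -/
noncomputable def kk (a : ZMod 5) : LaurentSeries (ZMod 5) := HahnSeries.single 0 a

/-- the coefficient functional -/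
noncomputable def lm (g : TT) : ZMod 5 := (g : LaurentSeries (ZMod 5)).coeff 0

lemma lin_ne (c : ZMod 5) : xx - kk c ≠ 0 := by
  intro h
  have := congrArg (fun f : LaurentSeries (ZMod 5) => f.coeff 1) h
  simp [xx, kk] at this

/-- the five linear forms -/
noncomputable def ll : Fin 5 → TT :=
  ![Units.mk0 _ (lin_ne 0), Units.mk0 _ (lin_ne 1), Units.mk0 _ (lin_ne 2), Units.mk0 _ (lin_ne 3), 1]

lemma coeff_kk (c : ZMod 5) (f : LaurentSeries (ZMod 5)) : (kk c * f).coeff 0 = c * f.coeff 0 := by
  unfold kk
  simp

lemma xx_pow (N : ℕ) : xx ^ N = HahnSeries.single (N : ℤ) (1 : ZMod 5) := by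
  unfold xx
  rw [HahnSeries.single_pow]
  simp

theorem goodDat : GoodDat ll lm where
  l4 := rfl
  lin := by
    refine ⟨fun g => (xx * (g : LaurentSeries (ZMod 5))).coeff 0,
      fun g => (g : LaurentSeries (ZMod 5)).coeff 0, fun a g => ?_⟩
    have key : ∀ c : ZMod 5, ((xx - kk c) * (g : LaurentSeries (ZMod 5))).coeff 0 =
        1 * (xx * (g : LaurentSeries (ZMod 5))).coeff 0 +
          (-c) * (g : LaurentSeries (ZMod 5)).coeff 0 := by
      intro c
      rw [sub_mul, HahnSeries.coeff_sub, coeff_kk]; ring
    fin_cases a
    · have := key 0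
      rwa [neg_zero] at this
    · exact key 1
    · exact key 2
    · exact key 3
    · change ((1 : TT) * g : LaurentSeries (ZMod 5)).coeff 0 = 0 * _ + 1 * _
      rw [Units.val_one, one_mul, zero_mul, zero_add, one_mul]
  nonper N hN := by
    have h1 : lm (ll 0 ^ N) = 0 := by
      unfold lm
      rw [Units.val_pow_eq_pow_val]
      have : ((ll 0 : TT) : LaurentSeries (ZMod 5)) = xx := by
        change xx - kk 0 = xx
        simp [kk]
      rw [this, xx_pow, HahnSeries.coeff_single_of_ne]
      exact_mod_cast hN.ne
    have h2 : lm 1 = 1 := by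
      unfold lm
      rw [Units.val_one]
      simp
    rw [h1, h2]
    exact zero_ne_one

instance fact11 : Fact (Nat.Prime 11) := ⟨by norm_num⟩
instance fact31 : Fact (Nat.Prime 31) := ⟨by norm_num⟩

lemma rt11 : IsRt (3 : ZMod 11) := ⟨by decide, by decide⟩
lemma rt31 : IsRt (2 : ZMod 31) := ⟨by decide, by decide⟩

/-- The levels. -/
theorem levels (n : ℕ) : ∃ (E : Type) (_ : Group E) (_ : Finite E) (C : Subgroup E),
    GoodC C ∧ Group.IsSolvable (Gr ll lm C) ∧ ∃ p : ℕ, (p = 11 ∨ p = 31) ∧ DD goodDat C p n := by
  induction n with
  | zero =>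
    have hC : GoodC (⊥ : Subgroup PUnit.{1}) :=
      ⟨fun _ _ => rfl, fun _ _ _ _ => rfl⟩
    refine ⟨EP PUnit.{1} rt11, inferInstance, inferInstance, CP rt11 ⊥, goodC_CP hC,
      solv_step goodDat hC solv_base, 11, Or.inl rfl, DD_base rt11 goodDat⟩
  | succ n ih =>
    obtain ⟨E, _, _, C, hC, hS, p, hp, hDD⟩ := ih
    rcases hp with rfl | rfl
    · exact ⟨EP E rt31, inferInstance, inferInstance, CP rt31 C, goodC_CP hC,
        solv_step goodDat hC hS, 31, Or.inr rfl, DD_step rt31 goodDat (by norm_num) hDD⟩
    · exact ⟨EP E rt11, inferInstance, inferInstance, CP rt11 C, goodC_CP hC,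
        solv_step goodDat hC hS, 11, Or.inl rfl, DD_step rt11 goodDat (by norm_num) hDD⟩

/-- The finite presentation, in the form of the problem. -/
theorem fp_form {E : Type} [Group E] [Finite E] (C : Subgroup E) :
    ∃ (n : ℕ) (φ : FreeGroup (Fin n) →* Gr ll lm C), Function.Surjective φ ∧
        ∃ S : Finset (FreeGroup (Fin n)),
          Subgroup.normalClosure (↑S : Set (FreeGroup (Fin n))) = φ.ker := by
  obtain ⟨n, φ, hφ, S, hS, hSφ⟩ := (fp_Gr ll lm C).out
  exact ⟨n, φ, hφ, hS.toFinset, by rw [hS.coe_toFinset, hSφ]⟩

end Pool.Agent.MP_cdb312_al
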